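import Pool.Agent.Lib.MP_98022b_gln.GeoIface
import Pool.Agent.Lib.MP_98022b_gln.ConeDefs

/-!
# The cone construction without local convexity: definitions

`ConeData1` is `ConeData` without the condition on the local convexity of the gauges, `ConeOut1` is
the output of the cone construction with constant weights.
-/

set_option autoImplicit false

open Set Filter Topology

namespace Pool.Agent.TD

open Pool.Agent.GLN Pool.Agent.FA

/-- The data for the cone construction for a finite subset `S` of `G`: the gauges `F m` are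
`L`-Lipschitz, decreasing in `m`, and convex up to a shift of `m`; `R` bounds the growth of the
radius, `η` bounds the displacement of the base point by the elements of `S`. -/
structure ConeData1 (G : Type) [Group G] (S : Finset G) (B : Type) [MetricSpace B] [MulAction G B]
    (geo : B → B → ℝ → B) (o : B) (F : ℕ → B → ℝ) (L R η : ℝ) : Prop where
  bicomb : Bicomb B geo
  isom : ∀ (g : G) (x y : B), dist (g • x) (g • y) = dist x y
  geo_smul : ∀ (g : G) (x y : B) t, 0 ≤ t → t ≤ 1 → g • geo x y t = geo (g • x) (g • y) t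
  nonneg : ∀ m x, 0 ≤ F m x
  anti : ∀ m x, F (m + 1) x ≤ F m x
  lip : ∀ m x y, |F m x - F m y| ≤ L * dist x y
  base : ∀ m, F m o = 0
  convex : ∀ m x y t, 0 ≤ t → t ≤ 1 → F (m + 1) (geo x y t) ≤ (1 - t) * F m x + t * F m y
  smul : ∀ s ∈ S, ∀ m x, F (m + 1) (s • x) ≤ F m x
  radius : ∀ m x, dist o x ≤ R * (m + 1) + 2 * F m x
  compact : ∀ c : ℕ → ℝ, Tendsto c atTop (𝓝 0) → IsCompact {x | ∀ m, F m x ≤ c m}
  eta : ∀ s ∈ S, dist o (s • o) ≤ η

/-- The output of the cone construction for the finite set `S` (`N₀` does not depend on `S`). -/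
def ConeOut1 {G B : Type} [Group G] [MetricSpace B] [MulAction G B] (geo : B → B → ℝ → B) (o : B)
    (F : ℕ → B → ℝ) (S : Finset G) (N₀ : ℕ) : Prop :=
  ∃ C : ℝ, 0 < C ∧ ∀ D : ℕ, C ≤ D → ∃ (X : Type) (_ : TopologicalSpace X), CompactSpace X ∧
    TopologicalSpace.MetrizableSpace X ∧ ContractibleSpace X ∧
    StronglyLocallyContractibleSpace X ∧ CovDimLE X N₀ ∧
    ∃ (θ : HomotopyAction G S X) (p : X → B), Continuous p ∧
      (∀ z (m : ℕ), F (m + 1) (p z) ≤ C * D ^ 2 / (m + 1)) ∧
      ∀ g z, ∀ q ∈ θ.nbhd S.card (g, z),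
        dist (g • p z) (q.1 • p q.2) ≤ C * (dist (g • o) (g • p z) + 1) / D ∧
        |dist (g • o) (g • p z) - dist (q.1 • o) (q.1 • p q.2)| ≤ C ∧
        ∃ σ : ℝ, |σ| ≤ C ∧ ∀ s, C ≤ s → s + C ≤ dist (g • o) (g • p z) →
          dist (endPt geo (g • o) (g • p z) s) (endPt geo (q.1 • o) (q.1 • p q.2) (s + σ)) ≤
            C * (1 / D + s / dist (g • o) (g • p z))

end Pool.Agent.TD
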