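import Pool.Agent.Lib.MP_98022b_gln.ConeTop
import Pool.Agent.Lib.MP_98022b_td.ConeDefs1

/-!
# Gauges in a complete space with a conical bicombing

`KK geo S o m` is the compact set obtained from `{o}` by `m` steps `K ↦ S • geo (K, K, [0, 1])`; the
gauge `gg geo S o m` is the distance to it.
-/

set_option autoImplicit false

open Set Filter Topology

namespace Pool.Agent.TD

open Pool.Agent.GLN Pool.Agent.FA

variable {G : Type} [Group G] {B : Type} [MetricSpace B] [MulAction G B]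

/-- The compact sets. -/
def KK (geo : B → B → ℝ → B) (S : Finset G) (o : B) : ℕ → Set B
  | 0 => {o}
  | m + 1 => ⋃ s ∈ S, (fun p : B × B × ℝ => s • geo p.1 p.2.1 p.2.2) ''
      (KK geo S o m ×ˢ KK geo S o m ×ˢ Icc (0 : ℝ) 1)

/-- The gauges. -/
noncomputable def gg (geo : B → B → ℝ → B) (S : Finset G) (o : B) (m : ℕ) (x : B) : ℝ :=
  Metric.infDist x (KK geo S o m)

theorem mem_KK_succ {geo : B → B → ℝ → B} {S : Finset G} {o : B} {m : ℕ} {w : B} :
    w ∈ KK geo S o (m + 1) ↔ ∃ s ∈ S, ∃ x ∈ KK geo S o m, ∃ y ∈ KK geo S o m, ∃ t : ℝ, 0 ≤ t ∧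
      t ≤ 1 ∧ w = s • geo x y t := by
  constructor
  · intro h
    obtain ⟨s, hs, h⟩ := mem_iUnion₂.1 h
    obtain ⟨⟨x, y, t⟩, ⟨hx, hy, ht⟩, rfl⟩ := h
    exact ⟨s, hs, x, hx, y, hy, t, ht.1, ht.2, rfl⟩
  · rintro ⟨s, hs, x, hx, y, hy, t, h0, h1, rfl⟩
    exact mem_iUnion₂.2 ⟨s, hs, ⟨(x, y, t), ⟨hx, hy, h0, h1⟩, rfl⟩⟩

section

variable {geo : B → B → ℝ → B} (hb : Bicomb B geo)
  (isom : ∀ (g : G) (x y : B), dist (g • x) (g • y) = dist x y) {S : Finset G} (h1S : (1 : G) ∈ S)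
  {o : B}

include hb h1S

theorem geo_mem_KK {m : ℕ} {x y : B} (hx : x ∈ KK geo S o m) (hy : y ∈ KK geo S o m) {t : ℝ}
    (h0 : 0 ≤ t) (h1 : t ≤ 1) : geo x y t ∈ KK geo S o (m + 1) :=
  mem_KK_succ.2 ⟨1, h1S, x, hx, y, hy, t, h0, h1, (one_smul _ _).symm⟩

theorem KK_subset (m : ℕ) : KK geo S o m ⊆ KK geo S o (m + 1) := by
  intro x hx
  have h := geo_mem_KK hb h1S hx hx le_rfl zero_le_one
  rwa [hb.zero] at h

theorem o_mem_KK (m : ℕ) : o ∈ KK geo S o m := by
  induction m with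
  | zero => exact mem_singleton o
  | succ m ih => exact KK_subset hb h1S m ih

omit h1S in
theorem smul_mem_KK {s : G} (hs : s ∈ S) {m : ℕ} {x : B} (hx : x ∈ KK geo S o m) :
    s • x ∈ KK geo S o (m + 1) :=
  mem_KK_succ.2 ⟨s, hs, x, hx, x, hx, 0, le_rfl, zero_le_one, by rw [hb.zero]⟩

omit h1S in
include isom in
theorem isCompact_KK (m : ℕ) : IsCompact (KK geo S o m) := by
  induction m with
  | zero => exact isCompact_singleton
  | succ m ih =>
    refine S.finite_toSet.isCompact_biUnion fun s _ => ?_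
    have hsmul : Continuous fun y : B => s • y := by
      have h : Isometry fun y : B => s • y := Isometry.of_dist_eq fun x y => isom s x y
      exact h.continuous
    refine (ih.prod (ih.prod isCompact_Icc)).image_of_continuousOn ?_
    refine hsmul.comp_continuousOn ?_
    rintro ⟨x, y, t⟩ ⟨hx, hy, ht⟩
    refine hb.tendsto ?_ ?_ ?_ ?_ ?_ ht.1 ht.2
    · exact (continuous_fst.tendsto _).mono_left nhdsWithin_le_nhds
    · exact ((continuous_fst.comp continuous_snd).tendsto _).mono_left nhdsWithin_le_nhds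
    · exact ((continuous_snd.comp continuous_snd).tendsto _).mono_left nhdsWithin_le_nhds
    · filter_upwards [self_mem_nhdsWithin] with p hp
      exact hp.2.2.1
    · filter_upwards [self_mem_nhdsWithin] with p hp
      exact hp.2.2.2

omit h1S in
include isom in
theorem dist_KK_le {η : ℝ} (hη : ∀ s ∈ S, dist o (s • o) ≤ η) (m : ℕ) :
    ∀ x ∈ KK geo S o m, dist o x ≤ η * m := by
  induction m with
  | zero =>
    intro x hx
    rw [mem_singleton_iff.1 hx, dist_self]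
    simp
  | succ m ih =>
    intro w hw
    obtain ⟨s, hs, x, hx, y, hy, t, h0, h1, rfl⟩ := mem_KK_succ.1 hw
    have h2 := hb.conical o o x y t h0 h1
    rw [hb.self o h0 h1] at h2
    have h3 := mul_le_mul_of_nonneg_left (ih x hx) (sub_nonneg.2 h1)
    have h4 := mul_le_mul_of_nonneg_left (ih y hy) h0
    have h5 : dist (s • o) (s • geo x y t) = dist o (geo x y t) := isom s _ _
    have h6 := dist_triangle o (s • o) (s • geo x y t)
    have h7 := hη s hs
    push_cast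
    linarith

/-- The data for the cone construction in a complete space. -/
theorem coneData1 [CompleteSpace B]
    (isom : ∀ (g : G) (x y : B), dist (g • x) (g • y) = dist x y)
    (geo_smul : ∀ (g : G) (x y : B) t, 0 ≤ t → t ≤ 1 → g • geo x y t = geo (g • x) (g • y) t) :
    ∃ η : ℝ, 0 ≤ η ∧ (∀ s ∈ S, dist o (s • o) ≤ η) ∧ ConeData1 G S B geo o (gg geo S o) 1 η η := by
  obtain ⟨η, hη⟩ : ∃ η : ℝ, ∀ s ∈ S, dist o (s • o) ≤ η := by
    refine ⟨∑ s ∈ S, dist o (s • o), fun s hs => ?_⟩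
    exact Finset.single_le_sum (f := fun s => dist o (s • o)) (fun s _ => dist_nonneg) hs
  have hη0 : 0 ≤ η := dist_nonneg.trans (hη 1 h1S)
  have hne : ∀ m, (KK geo S o m).Nonempty := fun m => ⟨o, o_mem_KK hb h1S m⟩
  have hcpt : ∀ m, IsCompact (KK geo S o m) := isCompact_KK hb isom
  have hnear : ∀ m x, ∃ a ∈ KK geo S o m, dist x a = gg geo S o m x := by
    intro m x
    obtain ⟨a, ha, h⟩ := (hcpt m).exists_infDist_eq_dist (hne m) x
    exact ⟨a, ha, h.symm⟩
  have hlip : ∀ m x y, |gg geo S o m x - gg geo S o m y| ≤ 1 * dist x y := by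
    intro m x y
    rw [one_mul, ← Real.dist_eq]
    have h := (Metric.lipschitz_infDist_pt (KK geo S o m)).dist_le_mul x y
    rwa [NNReal.coe_one, one_mul] at h
  refine ⟨η, hη0, hη, hb, isom, geo_smul, fun m x => Metric.infDist_nonneg, fun m x => ?_, hlip,
    fun m => Metric.infDist_zero_of_mem (o_mem_KK hb h1S m), fun m x y t h0 h1 => ?_,
    fun s hs m x => ?_, fun m x => ?_, fun c hc => ?_, hη⟩
  · exact Metric.infDist_le_infDist_of_subset (KK_subset hb h1S m) (hne m)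
  · obtain ⟨a, ha, ha'⟩ := hnear m x
    obtain ⟨b, hb', hb''⟩ := hnear m y
    refine (Metric.infDist_le_dist_of_mem (geo_mem_KK hb h1S ha hb' h0 h1)).trans ?_
    rw [← ha', ← hb'']
    exact hb.conical x y a b t h0 h1
  · obtain ⟨a, ha, ha'⟩ := hnear m x
    refine (Metric.infDist_le_dist_of_mem (smul_mem_KK hb hs ha)).trans ?_
    rw [← ha', isom]
  · obtain ⟨a, ha, ha'⟩ := hnear m x
    have h2 := dist_KK_le hb isom hη m a ha
    have h3 := dist_triangle o a x
    rw [dist_comm a x] at h3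
    have h4 : 0 ≤ gg geo S o m x := Metric.infDist_nonneg
    linarith
  · have hcont : ∀ m, Continuous (gg geo S o m) := fun m => Metric.continuous_infDist_pt _
    refine TotallyBounded.isCompact_of_isClosed (s := {x | ∀ m, gg geo S o m x ≤ c m}) ?_ ?_
    · rw [Metric.totallyBounded_iff]
      intro ε hε
      obtain ⟨m, hm⟩ := ((Metric.tendsto_atTop.1 hc) (ε / 2) (half_pos hε))
      have hm' := hm m le_rfl
      rw [Real.dist_eq, sub_zero] at hm'
      have hm2 := (abs_lt.1 hm').2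
      obtain ⟨t, ht, htf⟩ := Metric.totallyBounded_iff.1 (hcpt m).totallyBounded (ε / 2) (half_pos hε)
      refine ⟨t, ht, fun x hx => ?_⟩
      obtain ⟨a, ha, ha'⟩ := hnear m x
      obtain ⟨y, hy, hay⟩ := mem_iUnion₂.1 (htf ha)
      refine mem_iUnion₂.2 ⟨y, hy, ?_⟩
      rw [Metric.mem_ball] at hay ⊢
      have h2 := hx m
      have h3 := dist_triangle x a y
      linarith
    · have : {x | ∀ m, gg geo S o m x ≤ c m} = ⋂ m, {x | gg geo S o m x ≤ c m} := by
        ext x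
        simp
      rw [this]
      exact isClosed_iInter fun m => isClosed_le (hcont m) continuous_const

end

/-! ### Finite nets -/

/-- Finite nets of the sets of small gauge. -/
def GaugeNet (F : ℕ → B → ℝ) : Prop :=
  ∃ C : ℕ, ∀ m : ℕ, ∃ A : Set B, A.Finite ∧ A.ncard ≤ 2 ^ 2 ^ (C * (m + 1)) ∧
    ∀ w, ∃ a ∈ A, dist w a ≤ F m w + 1 / 2 ^ m

/-- The finite nets. -/
def AA (geo : B → B → ℝ → B) (S : Finset G) (o : B) (N : ℕ) : ℕ → Set B
  | 0 => {o}
  | m + 1 => ⋃ s ∈ S, (fun p : B × B × ℕ => s • geo p.1 p.2.1 (p.2.2 / N)) ''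
      (AA geo S o N m ×ˢ AA geo S o N m ×ˢ {k | k ≤ N})

theorem finite_AA (geo : B → B → ℝ → B) (S : Finset G) (o : B) (N m : ℕ) :
    (AA geo S o N m).Finite := by
  induction m with
  | zero => exact finite_singleton o
  | succ m ih =>
    refine S.finite_toSet.biUnion fun s _ => ?_
    exact (ih.prod (ih.prod (finite_le_nat N))).image _

theorem ncard_AA_le (geo : B → B → ℝ → B) (S : Finset G) (o : B) (N m : ℕ) (hS : 0 < S.card) :
    (AA geo S o N m).ncard ≤ (S.card * (N + 1)) ^ (2 ^ m) := by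
  have hpos : 0 < S.card * (N + 1) := Nat.mul_pos hS (Nat.succ_pos N)
  -- a slightly stronger statement
  suffices h : (AA geo S o N m).ncard * (S.card * (N + 1)) ≤ (S.card * (N + 1)) ^ (2 ^ m) from
    (Nat.le_mul_of_pos_right _ hpos).trans h
  induction m with
  | zero =>
    show ({o} : Set B).ncard * (S.card * (N + 1)) ≤ (S.card * (N + 1)) ^ (2 ^ 0)
    rw [ncard_singleton, one_mul, pow_zero, pow_one]
  | succ m ih =>
    have hfin := finite_AA geo S o N m
    have h1 : (AA geo S o N (m + 1)).ncard ≤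
        S.card * ((AA geo S o N m).ncard * ((AA geo S o N m).ncard * (N + 1))) := by
      show (⋃ s ∈ S, (fun p : B × B × ℕ => s • geo p.1 p.2.1 (p.2.2 / N)) ''
        (AA geo S o N m ×ˢ AA geo S o N m ×ˢ {k | k ≤ N})).ncard ≤ _
      refine (Finset.set_ncard_biUnion_le S _).trans ?_
      rw [← smul_eq_mul]
      refine Finset.sum_le_card_nsmul _ _ _ fun s _ => ?_
      refine (ncard_image_le (hfin.prod (hfin.prod (finite_le_nat N)))).trans ?_
      rw [ncard_prod, ncard_prod]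
      have h2 : ({k | k ≤ N} : Set ℕ).ncard = N + 1 := by
        have h3 : ({k | k ≤ N} : Set ℕ) = ((Finset.range (N + 1) : Finset ℕ) : Set ℕ) := by
          ext k
          simp [Nat.lt_succ_iff]
        rw [h3, ncard_coe_finset, Finset.card_range]
      rw [h2]
    calc (AA geo S o N (m + 1)).ncard * (S.card * (N + 1))
        ≤ S.card * ((AA geo S o N m).ncard * ((AA geo S o N m).ncard * (N + 1))) *
          (S.card * (N + 1)) := Nat.mul_le_mul_right _ h1
      _ = ((AA geo S o N m).ncard * (S.card * (N + 1))) ^ 2 := by ring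
      _ ≤ ((S.card * (N + 1)) ^ (2 ^ m)) ^ 2 := Nat.pow_le_pow_left ih 2
      _ = (S.card * (N + 1)) ^ (2 ^ (m + 1)) := by rw [← pow_mul, pow_succ]

theorem AA_subset {geo : B → B → ℝ → B} {S : Finset G} {o : B} {N : ℕ} (hN : 0 < N) (m : ℕ) :
    AA geo S o N m ⊆ KK geo S o m := by
  induction m with
  | zero => exact Subset.rfl
  | succ m ih =>
    intro w hw
    obtain ⟨s, hs, hw⟩ := mem_iUnion₂.1 hw
    obtain ⟨⟨x, y, k⟩, ⟨hx, hy, hk⟩, rfl⟩ := hw
    have hN' : (0 : ℝ) < N := Nat.cast_pos.2 hN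
    refine mem_KK_succ.2 ⟨s, hs, x, ih hx, y, ih hy, (k : ℝ) / N, by positivity, ?_, rfl⟩
    rw [div_le_one hN']
    exact Nat.cast_le.2 hk

theorem exists_near_AA {geo : B → B → ℝ → B} (hb : Bicomb B geo)
    (isom : ∀ (g : G) (x y : B), dist (g • x) (g • y) = dist x y) {S : Finset G} {o : B} {η : ℝ}
    (hη : ∀ s ∈ S, dist o (s • o) ≤ η) (hη0 : 0 ≤ η) {N : ℕ} (hN : 0 < N) (m : ℕ) :
    ∀ x ∈ KK geo S o m, ∃ a ∈ AA geo S o N m, dist x a ≤ 2 * η * m ^ 2 / N := by
  have hN' : (0 : ℝ) < N := Nat.cast_pos.2 hN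
  induction m with
  | zero =>
    intro x hx
    refine ⟨o, mem_singleton o, ?_⟩
    rw [mem_singleton_iff.1 hx, dist_self]
    positivity
  | succ m ih =>
    intro w hw
    obtain ⟨s, hs, x, hx, y, hy, t, h0, h1, rfl⟩ := mem_KK_succ.1 hw
    obtain ⟨a, ha, hxa⟩ := ih x hx
    obtain ⟨b, hb', hyb⟩ := ih y hy
    have hk : ⌊t * N⌋₊ ≤ N := by
      have h2 : t * N ≤ N := mul_le_of_le_one_left hN'.le h1
      exact Nat.floor_le_of_le h2
    have hk1 : ((⌊t * N⌋₊ : ℕ) : ℝ) ≤ t * N := Nat.floor_le (by positivity)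
    have hk2 : t * N < (⌊t * N⌋₊ : ℕ) + 1 := Nat.lt_floor_add_one _
    refine ⟨s • geo a b ((⌊t * N⌋₊ : ℕ) / N), mem_iUnion₂.2 ⟨s, hs, ⟨(a, b, ⌊t * N⌋₊),
      ⟨ha, hb', hk⟩, rfl⟩⟩, ?_⟩
    rw [isom]
    have hd1 := hb.conical x y a b t h0 h1
    have hs1 : ((⌊t * N⌋₊ : ℕ) : ℝ) / N ≤ 1 := by
      rw [div_le_one hN']
      exact Nat.cast_le.2 hk
    have hd2 := hb.speed a b t (((⌊t * N⌋₊ : ℕ) : ℝ) / N) h0 h1 (by positivity) hs1
    have hd3 : |t - ((⌊t * N⌋₊ : ℕ) : ℝ) / N| ≤ 1 / N := by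
      rw [abs_le]
      constructor
      · have : ((⌊t * N⌋₊ : ℕ) : ℝ) / N ≤ t := by
          rw [div_le_iff₀ hN']
          exact hk1
        have h3 : (0 : ℝ) ≤ 1 / N := by positivity
        linarith
      · have : t ≤ ((⌊t * N⌋₊ : ℕ) : ℝ) / N + 1 / N := by
          rw [← add_div, le_div_iff₀ hN']
          exact hk2.le
        linarith
    have hd4 : dist a b ≤ 2 * η * m := by
      have h2 := dist_KK_le hb isom hη m a (AA_subset hN m ha)
      have h3 := dist_KK_le hb isom hη m b (AA_subset hN m hb')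
      have h4 := dist_triangle a o b
      rw [dist_comm a o] at h4
      linarith
    have hd5 : |t - ((⌊t * N⌋₊ : ℕ) : ℝ) / N| * dist a b ≤ 2 * η * m / N := by
      calc |t - ((⌊t * N⌋₊ : ℕ) : ℝ) / N| * dist a b ≤ 1 / N * (2 * η * m) :=
            mul_le_mul hd3 hd4 dist_nonneg (by positivity)
        _ = 2 * η * m / N := by ring
    have hd6 := mul_le_mul_of_nonneg_left hxa (sub_nonneg.2 h1)
    have hd7 := mul_le_mul_of_nonneg_left hyb h0
    have hd8 := dist_triangle (geo x y t) (geo a b t) (geo a b (((⌊t * N⌋₊ : ℕ) : ℝ) / N))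
    have hd9 : dist (geo x y t) (geo a b (((⌊t * N⌋₊ : ℕ) : ℝ) / N)) ≤
        2 * η * m ^ 2 / N + 2 * η * m / N := by linarith
    refine hd9.trans ?_
    rw [← add_div]
    refine div_le_div_of_nonneg_right ?_ hN'.le
    push_cast
    nlinarith [mul_nonneg hη0 (Nat.cast_nonneg (α := ℝ) m)]

/-- The finite nets of the sets of small gauge. -/
theorem gaugeNet {geo : B → B → ℝ → B} (hb : Bicomb B geo)
    (isom : ∀ (g : G) (x y : B), dist (g • x) (g • y) = dist x y) {S : Finset G}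
    (h1S : (1 : G) ∈ S) {o : B} {η : ℝ}
    (hη : ∀ s ∈ S, dist o (s • o) ≤ η) : GaugeNet (gg geo S o) := by
  have hη0 : 0 ≤ η := dist_nonneg.trans (hη 1 h1S)
  obtain ⟨E, hE⟩ := exists_nat_ge η
  have hScard : 0 < S.card := Finset.card_pos.2 ⟨1, h1S⟩
  refine ⟨S.card + E + 7, fun m => ?_⟩
  set N : ℕ := 2 * ((E + 1) * ((m + 1) ^ 2 * 2 ^ m)) with hN
  have hN0 : 0 < N := by positivity
  have hN' : (0 : ℝ) < N := Nat.cast_pos.2 hN0
  refine ⟨AA geo S o N m, finite_AA geo S o N m, ?_, fun w => ?_⟩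
  · refine (ncard_AA_le geo S o N m hScard).trans ?_
    -- the base
    have h1 : ∀ k : ℕ, k ≤ 2 ^ k := fun k => Nat.lt_two_pow_self.le
    have h2 : S.card * (N + 1) ≤ 2 ^ ((S.card + E + 6) * (m + 1)) := by
      have h3 : N + 1 ≤ 2 * N := by omega
      have h4 : E + 1 ≤ 2 ^ ((E + 1) * (m + 1)) :=
        (h1 _).trans (Nat.pow_le_pow_right (by norm_num) (Nat.le_mul_of_pos_right _ (Nat.succ_pos m)))
      have h5 : (m + 1) ^ 2 ≤ 2 ^ (2 * (m + 1)) := by
        calc (m + 1) ^ 2 ≤ (2 ^ (m + 1)) ^ 2 := Nat.pow_le_pow_left (h1 _) 2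
          _ = 2 ^ (2 * (m + 1)) := by rw [← pow_mul, mul_comm]
      have h6 : S.card ≤ 2 ^ (S.card * (m + 1)) :=
        (h1 _).trans (Nat.pow_le_pow_right (by norm_num) (Nat.le_mul_of_pos_right _ (Nat.succ_pos m)))
      calc S.card * (N + 1) ≤ S.card * (2 * N) := Nat.mul_le_mul_left _ h3
        _ = S.card * (4 * ((E + 1) * ((m + 1) ^ 2 * 2 ^ m))) := by rw [hN]; ring
        _ ≤ 2 ^ (S.card * (m + 1)) * (4 * (2 ^ ((E + 1) * (m + 1)) * (2 ^ (2 * (m + 1)) * 2 ^ m))) :=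
          Nat.mul_le_mul h6 (Nat.mul_le_mul_left _ (Nat.mul_le_mul h4 (Nat.mul_le_mul_right _ h5)))
        _ = 2 ^ (S.card * (m + 1) + (2 + ((E + 1) * (m + 1) + (2 * (m + 1) + m)))) := by
          rw [pow_add, pow_add, pow_add, pow_add]
          norm_num
        _ ≤ 2 ^ ((S.card + E + 6) * (m + 1)) := by
          refine Nat.pow_le_pow_right (by norm_num) ?_
          nlinarith
    calc (S.card * (N + 1)) ^ (2 ^ m) ≤ (2 ^ ((S.card + E + 6) * (m + 1))) ^ (2 ^ m) :=
          Nat.pow_le_pow_left h2 _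
      _ = 2 ^ ((S.card + E + 6) * (m + 1) * 2 ^ m) := by rw [← pow_mul]
      _ ≤ 2 ^ 2 ^ ((S.card + E + 7) * (m + 1)) := by
        refine Nat.pow_le_pow_right (by norm_num) ?_
        calc (S.card + E + 6) * (m + 1) * 2 ^ m
            ≤ 2 ^ ((S.card + E + 6) * (m + 1)) * 2 ^ m := Nat.mul_le_mul_right _ (h1 _)
          _ = 2 ^ ((S.card + E + 6) * (m + 1) + m) := by rw [pow_add]
          _ ≤ 2 ^ ((S.card + E + 7) * (m + 1)) := by
            refine Nat.pow_le_pow_right (by norm_num) ?_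
            nlinarith
  · have hcpt := isCompact_KK hb isom (S := S) (o := o) m
    obtain ⟨x, hx, hwx⟩ := hcpt.exists_infDist_eq_dist ⟨o, o_mem_KK hb h1S m⟩ w
    obtain ⟨a, ha, hxa⟩ := exists_near_AA hb isom hη hη0 hN0 m x hx
    refine ⟨a, ha, ?_⟩
    have h1 := dist_triangle w x a
    have h2 : 2 * η * m ^ 2 / N ≤ 1 / 2 ^ m := by
      rw [div_le_div_iff₀ hN' (by positivity)]
      rw [hN]
      push_cast
      have h3 : (m : ℝ) ^ 2 ≤ (m + 1) ^ 2 := by
        have : (0 : ℝ) ≤ m := Nat.cast_nonneg m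
        nlinarith
      have h4 : η * (m : ℝ) ^ 2 ≤ (E + 1) * (m + 1) ^ 2 :=
        mul_le_mul (by linarith) h3 (by positivity) (by positivity)
      have h5 : (0 : ℝ) ≤ 2 * 2 ^ m := by positivity
      have h6 := mul_le_mul_of_nonneg_left h4 h5
      linarith
    have h3 : gg geo S o m w = dist w x := hwx
    rw [h3]
    linarith

end Pool.Agent.TD
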