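import Pool.Agent.Lib.MP_98022b_cc.Iface

/-!
# The interface between the geometry and the machine with reduced sequences
-/

set_option autoImplicit false

open Set Filter Topology

namespace Pool.Agent.TD

open Pool.Agent.GLN Pool.Agent.FA

/-- Discretization; `P` is the type of the parameters (thresholds), `dV` is the distance of states
up to a bounded error. -/
structure DiscQ (P G B V : Type) [Group G] [MetricSpace B] [MulAction G B] [MulAction G V]
    (dV : V → V → ℕ) (geo : B → B → ℝ → B) where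
  st : P → B → V
  far : P → ℝ → B → Prop
  st_smul : ∀ (g : G) r w, st r (g • w) = g • st r w
  far_smul : ∀ (g : G) r e w, far r e (g • w) ↔ far r e w
  far_mono : ∀ r e e' w, far r e w → e' ≤ e → far r e' w
  far_dist : ∀ r e w w', far r e w → far r (e - dist w w') w'
  st_eq : ∀ r e w w', far r e w → dist w w' < e → st r w' = st r w
  short : ∃ (n : ℕ) (r : Fin n → P) (e : ℝ), 0 < e ∧ ∀ w, ∃ j, far (r j) e w
  near : ∃ C : ℕ, ∀ r r' w w', (dV (st r w) (st r' w') : ℝ) ≤ dist w w' + C ∧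
    dist w w' ≤ dV (st r w) (st r' w') + C
  few : ∃ M : ℕ, ∀ (r : P) (x y : B) (n : ℕ) (s : ℕ → ℝ), (∀ i < n, s i ≤ s (i + 1)) → 0 ≤ s 0 →
    s n ≤ s 0 + 1 → s n ≤ dist x y →
    (∀ i < n, st r (endPt geo x y (s i)) ≠ st r (endPt geo x y (s (i + 1)))) → n ≤ M
  pairs : ∃ K A : ℕ, ∀ n : ℕ, 2 ≤ n → ∃ (r : Fin K → P) (δ : Fin K → ℝ) (ε : ℝ), 0 < ε ∧
    1 / 2 ^ (n ^ A) ≤ ε ∧ (∀ k, ε ≤ δ k ∧ δ k ≤ 1 / 100) ∧
    ∀ x y : B, 5 * (n : ℝ) ≤ dist x y → ∃ k,
      TR.IsEvents (n : ℝ) (δ k) (fun s => st (r k) (endPt geo x y s))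
        {s | ¬ far (r k) ε (endPt geo x y s)}

end Pool.Agent.TD
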