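import Pool.Agent.Lib.MP_98022b_cc.ParamExp

/-!
# The parameters
-/

set_option autoImplicit false

namespace Pool.Agent.TD

open Pool.Agent.CCC

theorem param_Q (C b : ℝ) (hC : 0 < C) (hb : 0 < b) (a c₁ η C' : ℕ) (hc₁ : 1 ≤ c₁) :
    ∃ A₀ H₀ : ℕ, ∀ H ≥ H₀,
    ∃ D m : ℕ, C ≤ D ∧ b ≤ D ∧ 20 * ((2 * (c₁ * H) + 2 * η : ℕ) : ℝ) * b ≤ D ∧
    C * (1 / D + 5 * ((2 * (c₁ * H) + 2 * η : ℕ) : ℝ) * b / D) <
      1 / 2 ^ ((2 * (c₁ * H) + 2 * η) ^ a) / 4 ∧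
    C * D ^ 2 / (m + 1) + 1 / 2 ^ (m + 2) < 1 / 2 ^ ((2 * (c₁ * H) + 2 * η) ^ a) / 2 ∧
    C' * (m + 3) ≤ 2 ^ (H ^ A₀) := by
  obtain ⟨A₀, H₀, h⟩ := geo_param (C + 1) b (by linarith) hb a η (C' + 2)
  refine ⟨2 * A₀ + 2, max 2 (max c₁ H₀), fun H hH => ?_⟩
  have hH2 : 2 ≤ H := (le_max_left _ _).trans hH
  have hHc : c₁ ≤ H := (le_max_left _ _).trans ((le_max_right _ _).trans hH)
  have hHH : H₀ ≤ H := (le_max_right _ _).trans ((le_max_right _ _).trans hH)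
  obtain ⟨D, h1, h2, h3, h4, -, h6⟩ := h (c₁ * H) (hHH.trans (Nat.le_mul_of_pos_left H hc₁))
  obtain ⟨ε₀, hε₀⟩ : ∃ ε₀ : ℝ, ε₀ = 1 / 2 ^ ((2 * (c₁ * H) + 2 * η) ^ a) := ⟨_, rfl⟩
  obtain ⟨hh, hhh⟩ : ∃ hh : ℝ, hh = ((2 * (c₁ * H) + 2 * η : ℕ) : ℝ) := ⟨_, rfl⟩
  have hhh' : 2 * ((c₁ * H : ℕ) : ℝ) + 2 * η = hh := by
    rw [hhh]
    push_cast
    ring
  have hh0 : 0 ≤ hh := by
    rw [hhh]
    positivity
  rw [hhh', ← hε₀] at h4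
  rw [hhh'] at h3
  rw [← hhh, ← hε₀]
  have hD0 : (0 : ℝ) < D := by linarith
  have hD1 : (1 : ℝ) ≤ D := by linarith
  have hD1' : 1 ≤ D := by exact_mod_cast hD1
  have hq : (0 : ℝ) ≤ 5 * hh * b / D := by positivity
  have hD1C : (C + 1) * (1 / D) < ε₀ / 4 := by
    refine lt_of_le_of_lt (mul_le_mul_of_nonneg_left ?_ (by linarith)) h4
    linarith
  have hε0 : 0 < ε₀ := by
    rw [hε₀]
    positivity
  refine ⟨D, D ^ 4, by linarith, h2, h3, ?_, ?_, ?_⟩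
  · refine lt_of_le_of_lt (mul_le_mul_of_nonneg_right (by linarith) ?_) h4
    positivity
  · have e1 : C * (D : ℝ) ^ 2 / (((D ^ 4 : ℕ) : ℝ) + 1) ≤ C * (1 / D) := by
      rw [mul_one_div, div_le_div_iff₀ (by positivity) hD0]
      push_cast
      have : (D : ℝ) ^ 2 * D ≤ (D : ℝ) ^ 4 + 1 := by
        have h7 : (D : ℝ) ^ 3 ≤ (D : ℝ) ^ 4 := pow_le_pow_right₀ hD1 (by norm_num)
        calc (D : ℝ) ^ 2 * D = (D : ℝ) ^ 3 := by ring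
          _ ≤ (D : ℝ) ^ 4 + 1 := by linarith
      calc C * (D : ℝ) ^ 2 * D = C * ((D : ℝ) ^ 2 * D) := by ring
        _ ≤ C * ((D : ℝ) ^ 4 + 1) := mul_le_mul_of_nonneg_left this hC.le
    have e2 : (1 : ℝ) / 2 ^ (D ^ 4 + 2) ≤ 1 / D := by
      refine one_div_le_one_div_of_le hD0 ?_
      have h7 : D ≤ 2 ^ (D ^ 4 + 2) := by
        have h8 : D ^ 4 + 2 < 2 ^ (D ^ 4 + 2) := Nat.lt_two_pow_self
        have h9 : D ≤ D ^ 4 := by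
          calc D = D ^ 1 := (pow_one D).symm
            _ ≤ D ^ 4 := Nat.pow_le_pow_right hD1' (by norm_num)
        omega
      exact_mod_cast h7
    have e3 : (C + 1) * (1 / D) = C * (1 / D) + 1 / D := by ring
    linarith
  · have e1 : C' * (D ^ 4 + 3) ≤ ((C' + 2) * (D ^ 2 + 2)) ^ 2 := by
      have : C' * (D ^ 4 + 3) ≤ (C' + 2) ^ 2 * (D ^ 2 + 2) ^ 2 := by
        refine Nat.mul_le_mul ?_ ?_
        · nlinarith
        · nlinarith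
      rwa [← mul_pow] at this
    have e2 := Nat.pow_le_pow_left h6 2
    refine e1.trans (e2.trans ?_)
    rw [← pow_mul]
    refine Nat.pow_le_pow_right (by norm_num) ?_
    have e3 : (c₁ * H) ^ A₀ ≤ H ^ (2 * A₀) := by
      rw [pow_mul]
      exact Nat.pow_le_pow_left (by nlinarith) _
    calc (c₁ * H) ^ A₀ * 2 ≤ H ^ (2 * A₀) * H ^ 2 := by
          refine Nat.mul_le_mul e3 ?_
          nlinarith
      _ = H ^ (2 * A₀ + 2) := (pow_add _ _ _).symm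

end Pool.Agent.TD
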