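import Pool.Agent.Lib.MP_98022b_td.Red2

/-!
# The sequence of the persistent states
-/

set_option autoImplicit false

open Set

namespace Pool.Agent.TD

open Pool.Agent.TR (IsEvents)

variable {V : Type}

/-- The state `p` has the index `c` in the sequence of the persistent states in `[H, 3 * H]`. -/
def IsSeq (u : ℝ → V) (δ H : ℝ) (c : ℤ) (p : V) : Prop :=
  ∃ s ∈ PT u δ, H ≤ s ∧ s ≤ 3 * H ∧
    (nch u (PT u δ) H s : ℤ) - nch u (PT u δ) H (2 * H) = c ∧ u s = p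

open Classical in
/-- The sequence of the persistent states, indexed by the number of changes. -/
noncomputable def seqR (u : ℝ → V) (δ H : ℝ) (c : ℤ) : Option V :=
  if h : ∃ p, IsSeq u δ H c p then some h.choose else none

section

variable {u u' : ℝ → V} {δ H : ℝ} {M : ℕ}

theorem IsSeq.unique (hf : Few u M (3 * H)) (hH : 0 ≤ H) {c : ℤ} {p p' : V}
    (h : IsSeq u δ H c p) (h' : IsSeq u δ H c p') : p = p' := by
  obtain ⟨s, hs, h1, h2, h3, rfl⟩ := h
  obtain ⟨t, ht, k1, k2, k3, rfl⟩ := h'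
  have he : nch u (PT u δ) H s = nch u (PT u δ) H t := by omega
  rcases le_total s t with hst | hst
  · exact eq_of_nch_eq (hf.bdd hH k2) hs ht h1 hst he
  · exact (eq_of_nch_eq (hf.bdd hH h2) ht hs k1 hst he.symm).symm

theorem seqR_eq_some (hf : Few u M (3 * H)) (hH : 0 ≤ H) {c : ℤ} {p : V} :
    seqR u δ H c = some p ↔ IsSeq u δ H c p := by
  unfold seqR
  split_ifs with h
  · rw [Option.some_inj]
    constructor
    · intro he
      exact he ▸ h.choose_spec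
    · intro hp
      exact IsSeq.unique hf hH h.choose_spec hp
  · constructor
    · intro he
      cases he
    · intro hp
      exact absurd ⟨p, hp⟩ h

theorem IsSeq.ne (hf : Few u M (3 * H)) (hH : 0 ≤ H) {c : ℤ} {p p' : V}
    (h : IsSeq u δ H c p) (h' : IsSeq u δ H (c + 1) p') : p ≠ p' := by
  obtain ⟨s, hs, h1, h2, h3, rfl⟩ := h
  obtain ⟨t, ht, k1, k2, k3, rfl⟩ := h'
  have he : nch u (PT u δ) H t = nch u (PT u δ) H s + 1 := by omega
  rcases le_total s t with hst | hst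
  · exact ne_of_nch_succ (hf.bdd hH k2) hs ht h1 hst he
  · have := nch_mono (hf.bdd (S := PT u δ) hH h2) le_rfl hst
    omega

/-- The difference of the indices is bounded by the time. -/
theorem IsSeq.time (hf : Few u M (3 * H)) (hH : 0 ≤ H) {c c' : ℤ} {p p' : V}
    (h : IsSeq u δ H c p) (h' : IsSeq u δ H c' p') : ∃ s t, H ≤ s ∧ s ≤ 3 * H ∧ H ≤ t ∧
      t ≤ 3 * H ∧ u s = p ∧ u t = p' ∧ ((|c - c'| : ℤ) : ℝ) ≤ (M + 1) * (|s - t| + 1) := by
  obtain ⟨s, hs, h1, h2, h3, h4⟩ := h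
  obtain ⟨t, ht, k1, k2, k3, k4⟩ := h'
  refine ⟨s, t, h1, h2, k1, k2, h4, k4, ?_⟩
  have key : ∀ s t, s ∈ PT u δ → H ≤ s → s ≤ t → t ≤ 3 * H →
      ((nch u (PT u δ) H t : ℝ) - nch u (PT u δ) H s) ≤ (M + 1) * (t - s + 1) := by
    intro s t hs hHs hst ht3
    have e1 := nch_add (hf.bdd hH ht3) hs hHs hst
    obtain ⟨k, hk⟩ : ∃ k : ℕ, k = ⌊t - s⌋₊ := ⟨_, rfl⟩
    have e2 : t ≤ s + (k + 1) := by
      have := Nat.lt_floor_add_one (t - s)
      rw [hk]
      linarith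
    have e3 := hf.nch_le (S := PT u δ) (hH.trans hHs) ht3 k e2
    have e4 : (k : ℝ) ≤ t - s := by
      rw [hk]
      exact Nat.floor_le (by linarith)
    have e5 : ((nch u (PT u δ) s t : ℕ) : ℝ) ≤ (M + 1) * (k + 1) := by exact_mod_cast e3
    have e6 : ((nch u (PT u δ) H t : ℕ) : ℝ) = nch u (PT u δ) H s + nch u (PT u δ) s t := by
      exact_mod_cast e1
    rw [e6]
    have e7 : ((M : ℝ) + 1) * (k + 1) ≤ (M + 1) * (t - s + 1) :=
      mul_le_mul_of_nonneg_left (by linarith) (by positivity)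
    linarith
  have hcc : ((|c - c'| : ℤ) : ℝ) =
      |(nch u (PT u δ) H s : ℝ) - nch u (PT u δ) H t| := by
    rw [← h3, ← k3]
    push_cast
    congr 1
    ring
  rw [hcc]
  rcases le_total s t with hst | hst
  · have e1 := key s t hs h1 hst k2
    have e2 : (nch u (PT u δ) H s : ℝ) ≤ nch u (PT u δ) H t := by
      exact_mod_cast nch_mono (hf.bdd hH k2) le_rfl hst
    rw [abs_of_nonpos (by linarith), abs_of_nonpos (by linarith)]
    linarith
  · have e1 := key t s ht k1 hst h2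
    have e2 : (nch u (PT u δ) H t : ℝ) ≤ nch u (PT u δ) H s := by
      exact_mod_cast nch_mono (hf.bdd hH h2) le_rfl hst
    rw [abs_of_nonneg (by linarith), abs_of_nonneg (by linarith)]
    linarith

/-! ### Equivariance -/

variable {G : Type} [Group G] [MulAction G V]

theorem PT_smul (g : G) : PT (fun s => g • u s) δ = PT u δ := by
  ext s
  simp only [PT, mem_ofPred_eq, smul_left_cancel_iff]

theorem Chn_smul (g : G) {S : Set ℝ} {n : ℕ} {a b : ℝ} :
    Chn (fun s => g • u s) S n a b ↔ Chn u S n a b := by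
  simp only [Chn, ne_eq, smul_left_cancel_iff]

theorem nch_smul (g : G) {S : Set ℝ} {a b : ℝ} :
    nch (fun s => g • u s) S a b = nch u S a b := by
  simp only [nch, Chn_smul]

theorem isSeq_smul (g : G) {c : ℤ} {p : V} :
    IsSeq (fun s => g • u s) δ H c p ↔ IsSeq u δ H c (g⁻¹ • p) := by
  simp only [IsSeq, PT_smul, nch_smul, eq_inv_smul_iff]

theorem Few.smul (g : G) {T : ℝ} (hf : Few u M T) : Few (fun s => g • u s) M T := by
  intro n s h1 h2 h3 h4 h5
  refine hf n s h1 h2 h3 h4 fun i hi he => h5 i hi ?_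
  show g • u (s i) = g • u (s (i + 1))
  rw [he]

theorem smul_seqR_eq_some (hf : Few u M (3 * H)) (hH : 0 ≤ H) (g : G) {c : ℤ} {p : V} :
    g • seqR u δ H c = some p ↔ IsSeq (fun s => g • u s) δ H c p := by
  rw [isSeq_smul, ← seqR_eq_some hf hH]
  cases h : seqR u δ H c with
  | none => simp
  | some v =>
    rw [Option.smul_some, Option.some_inj, Option.some_inj, eq_inv_smul_iff]

end

/-! ### Lower bounds -/

section

variable {u : ℝ → V} {E : Set ℝ} {δ H R : ℝ} {M : ℕ}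

theorem IsEvents.agr (hE : IsEvents H δ u E) {a b : ℝ} (ha : 0 ≤ a) (hb : b ≤ 5 * H) :
    Agr u u E a b :=
  ⟨fun s hs t ht => hE.const s ⟨ha.trans hs.1, hs.2.trans hb⟩ t ⟨ha.trans ht.1, ht.2.trans hb⟩,
    fun _ _ _ => rfl⟩

theorem nch_lower (hδ : 0 < δ) (hδ1 : δ ≤ 1 / 100) (hE : IsEvents H δ u E)
    (hf : Few u M (5 * H)) (hR0 : 1 ≤ R)
    (hR : ∀ s t, 0 ≤ s → s + R ≤ t → t ≤ 5 * H → u s ≠ u t) {a b : ℝ} (ha : 1 ≤ a)
    (hb : b + 1 ≤ 5 * H) {n : ℕ} (hn : a + n * (R + 1) + 1 ≤ b) :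
    n ≤ nch u (PT u δ) a b := by
  have hag := IsEvents.agr hE (a := 0) (b := 5 * H) le_rfl le_rfl
  have hR1 : 0 ≤ R + 1 := by linarith
  have hch : ∀ i : ℕ, ∃ t : ℝ, i ≤ n → t ∈ PT u δ ∧ |t - (a + 1 / 2 + i * (R + 1))| ≤ 1 / 40 := by
    intro i
    by_cases hi : i ≤ n
    · have hi' : (i : ℝ) * (R + 1) ≤ n * (R + 1) :=
        mul_le_mul_of_nonneg_right (by exact_mod_cast hi) hR1
      have hi0 : 0 ≤ (i : ℝ) * (R + 1) := by positivity
      obtain ⟨t, x, h1, h2, h3, h4⟩ := companion hδ hE.gap (s := a + 1 / 2 + i * (R + 1))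
        (by linarith) (by linarith)
      have h1' := abs_le.1 h1
      exact ⟨t, fun _ => ⟨hag.gd_subset hδ h3 (by linarith) (by linarith), by linarith⟩⟩
    · exact ⟨0, fun h => absurd h hi⟩
  choose t ht using hch
  have hstep : ∀ i < n, t i + R ≤ t (i + 1) := by
    intro i hi
    have h1 := abs_le.1 (ht i hi.le).2
    have h2 := abs_le.1 (ht (i + 1) hi).2
    push_cast at h2
    linarith [h1.1, h1.2, h2.1, h2.2]
  have h0 := abs_le.1 (ht 0 (Nat.zero_le _)).2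
  have hn' := abs_le.1 (ht n le_rfl).2
  simp only [Nat.cast_zero, zero_mul, add_zero] at h0
  have hmono : ∀ i < n, t i ≤ t (i + 1) := fun i hi => by linarith [hstep i hi]
  refine Chn.le_nch (hf.bdd (by linarith) (by linarith)) ⟨t, hmono, fun i hi => (ht i hi).1,
    by linarith, by linarith, fun i hi => hR _ _ ?_ (hstep i hi) ?_⟩
  · have := chain_le hmono (Nat.zero_le i) hi.le
    linarith
  · have := chain_le hmono (i := i + 1) (j := n) hi le_rfl
    linarith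

/-- The sequence is defined in a large window. -/
theorem exists_isSeq (hδ : 0 < δ) (hδ1 : δ ≤ 1 / 100) (hE : IsEvents H δ u E)
    (hf : Few u M (5 * H)) (hR0 : 1 ≤ R)
    (hR : ∀ s t, 0 ≤ s → s + R ≤ t → t ≤ 5 * H → u s ≠ u t) {W : ℕ}
    (hW : (W + 1) * (R + 1) + 1 ≤ H / 2) {c : ℤ} (hc : |c| ≤ W) :
    ∃ s ∈ PT u δ, 3 / 2 * H ≤ s ∧ s ≤ 5 / 2 * H ∧
      (nch u (PT u δ) H s : ℤ) - nch u (PT u δ) H (2 * H) = c := by
  have hWR : 0 ≤ ((W : ℝ) + 1) * (R + 1) := by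
    have : 0 ≤ R + 1 := by linarith
    positivity
  have hWR2 : 2 ≤ ((W : ℝ) + 1) * (R + 1) := by
    have h1 : (0 : ℝ) ≤ W := Nat.cast_nonneg W
    nlinarith
  have hH : 6 ≤ H := by linarith
  have h1 : W + 1 ≤ nch u (PT u δ) (3 / 2 * H) (2 * H) :=
    nch_lower hδ hδ1 hE hf hR0 hR (by linarith) (by linarith) (by push_cast; linarith)
  have h2 : W + 1 ≤ nch u (PT u δ) (2 * H) (5 / 2 * H) :=
    nch_lower hδ hδ1 hE hf hR0 hR (by linarith) (by linarith) (by push_cast; linarith)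
  have h3 := nch_super (hf.bdd (S := PT u δ) (a := H) (b := 2 * H) (by linarith) (by linarith))
    (m := 3 / 2 * H) (by linarith) (by linarith)
  have h4 := nch_super (hf.bdd (S := PT u δ) (a := H) (b := 5 / 2 * H) (by linarith) (by linarith))
    (m := 2 * H) (by linarith) (by linarith)
  have hc' := abs_le.1 hc
  obtain ⟨k, hk⟩ : ∃ k : ℕ, (k : ℤ) = nch u (PT u δ) H (2 * H) + c :=
    ⟨(nch u (PT u δ) H (2 * H) + c).toNat, Int.toNat_of_nonneg (by omega)⟩
  -- a persistent time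
  obtain ⟨x, y, k1, k2, k3, k4⟩ := companion hδ hE.gap (s := 2 * H) (by linarith) (by linarith)
  have k1' := abs_le.1 k1
  have hx : x ∈ Icc (2 * H - δ) (2 * H + δ) ∨ True := Or.inr trivial
  have hxp := (IsEvents.agr hE (a := 0) (b := 5 * H) le_rfl le_rfl).gd_subset hδ k3 (by linarith)
    (by linarith)
  obtain ⟨t, ht, t1, t2, t3⟩ := exists_nch_eq (hf.bdd (S := PT u δ) (a := H) (b := 5 / 2 * H)
    (by linarith) (by linarith)) hxp (by linarith) (by linarith) (c := k) (by omega)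
  refine ⟨t, ht, ?_, t2, by omega⟩
  by_contra hcon
  push Not at hcon
  have := nch_mono (hf.bdd (S := PT u δ) (a := H) (b := 3 / 2 * H) (by linarith) (by linarith))
    le_rfl hcon.le
  omega

end

/-! ### Comparison -/

section

variable {u' : ℝ → V} {δ : ℝ}

theorem PT_shift (σ : ℝ) {x : ℝ} :
    x ∈ PT (fun y => u' (y + σ)) δ ↔ x + σ ∈ PT u' δ := by
  constructor
  · intro h t ht
    have h1 := h (t - σ) ⟨by linarith [ht.1], by linarith [ht.2]⟩
    simpa only [sub_add_cancel] using h1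
  · intro h t ht
    exact h (t + σ) ⟨by linarith [ht.1], by linarith [ht.2]⟩

theorem nch_shift (σ a b : ℝ) :
    nch (fun y => u' (y + σ)) (PT (fun y => u' (y + σ)) δ) a b =
      nch u' (PT u' δ) (a + σ) (b + σ) := by
  have : ∀ n, Chn (fun y => u' (y + σ)) (PT (fun y => u' (y + σ)) δ) n a b ↔
      Chn u' (PT u' δ) n (a + σ) (b + σ) := by
    intro n
    constructor
    · intro h
      refine h.map (fun x => x + σ) (fun x hx h1 h2 => ⟨(PT_shift σ).1 hx, by linarith,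
        by linarith, rfl⟩) fun x _ y _ _ h _ _ => by linarith
    · intro h
      refine h.map (fun x => x - σ) (fun x hx h1 h2 => ⟨(PT_shift σ).2 (by simpa using hx),
        by linarith, by linarith, by simp⟩) fun x _ y _ _ h _ _ => by linarith
  unfold nch
  congr 1
  ext n
  exact this n

end

section

variable {u u' : ℝ → V} {E : Set ℝ} {H δ σ : ℝ} {M : ℕ}

/-- The counts between good times agree. -/
theorem nch_good_eq (hδ : 0 < δ) (hE : IsEvents H δ u E) (hf : Few u M (5 * H))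
    (hf' : Few u' M (5 * H)) (hH : 0 ≤ H)
    (hst : ∀ s ∈ Icc (H / 2) (9 * H / 2), s ∉ E → u' (s + σ) = u s) {x y : ℝ} (hx : x ∈ Gd E δ)
    (hy : y ∈ Gd E δ) (hxy : x ≤ y) (h1 : H / 2 + 4 * δ ≤ x) (h2 : y + 4 * δ ≤ 9 * H / 2)
    (h3 : H ≤ x + σ) (h4 : y + σ ≤ 3 * H) :
    nch u' (PT u' δ) (x + σ) (y + σ) = nch u (PT u δ) x y := by
  have hagu : Agr u u E (H / 2) (9 * H / 2) := IsEvents.agr hE (by linarith) (by linarith)
  have hagw : Agr u (fun y => u' (y + σ)) E (H / 2) (9 * H / 2) := ⟨hagu.const, hst⟩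
  rw [← nch_shift]
  have hbw : Bdd (fun y => u' (y + σ)) (PT (fun y => u' (y + σ)) δ) x y := by
    obtain ⟨K, hK⟩ := hf'.bdd (S := PT u' δ) (a := x + σ) (b := y + σ) (by linarith)
      (by linarith)
    refine ⟨K, fun n hn => hK ?_⟩
    have hn' : Chn (fun y => u' (y + σ)) (PT (fun y => u' (y + σ)) δ) n x y := hn
    exact hn'.map (fun x => x + σ) (fun x hx h1 h2 =>
      ⟨(PT_shift σ).1 hx, by linarith, by linarith, rfl⟩) fun x _ y _ _ h _ _ => by linarith
  rw [hagw.nch_eq hδ (by linarith) (T := 5 * H) (by linarith) hE.gap hx hy hxy h1 h2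
    (hf.bdd (by linarith) (by linarith)) hbw,
    hagu.nch_eq hδ (by linarith) (T := 5 * H) (by linarith) hE.gap hx hy hxy h1 h2
    (hf.bdd (by linarith) (by linarith)) (hf.bdd (by linarith) (by linarith))]

/-- The difference of counts at near times. -/
theorem nch_near {v : ℝ → V} (hv : Few v M (5 * H)) (hH : 0 ≤ H) {k : ℕ} {x y : ℝ} (h1 : H ≤ x)
    (h2 : x ≤ 3 * H) (h3 : H ≤ y) (h4 : y ≤ 3 * H) (h5 : |x - y| ≤ ((k + 1 : ℕ) : ℝ) + 1) :
    |(nch v (PT v δ) H x : ℤ) - nch v (PT v δ) H y| ≤ (M + 1) * (k + 2) + 1 := by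
  have hbound : ∀ (x y : ℝ), H ≤ x → x ≤ y → y ≤ 3 * H → y ≤ x + (((k + 1 : ℕ) : ℝ) + 1) →
      (nch v (PT v δ) H x ≤ nch v (PT v δ) H y) ∧
      nch v (PT v δ) H y ≤ nch v (PT v δ) H x + ((M + 1) * (k + 2) + 1) := by
    intro x y h1 h2 h3 h4
    refine ⟨nch_mono (hv.bdd (by linarith) (by linarith)) le_rfl h2, ?_⟩
    have h5 := nch_sub (hv.bdd (S := PT v δ) (a := H) (b := y) (by linarith) (by linarith)) h1 h2
    have h6 := hv.nch_le (S := PT v δ) (a := x) (b := y) (by linarith) (by linarith) (k + 1) h4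
    have h7 : (M + 1) * (k + 1 + 1) = (M + 1) * (k + 2) := by ring
    omega
  have h5' := abs_le.1 h5
  have h9 : (0 : ℤ) ≤ ((M : ℤ) + 1) * (k + 2) + 1 := by positivity
  rw [abs_le]
  rcases le_total x y with hxy | hxy
  · obtain ⟨h6, h7⟩ := hbound x y h1 hxy h4 (by linarith)
    have h8 : (nch v (PT v δ) H y : ℤ) ≤ nch v (PT v δ) H x + ((M + 1) * (k + 2) + 1) := by
      exact_mod_cast h7
    have h10 : (nch v (PT v δ) H x : ℤ) ≤ nch v (PT v δ) H y := by exact_mod_cast h6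
    constructor <;> linarith
  · obtain ⟨h6, h7⟩ := hbound y x h3 hxy h2 (by linarith)
    have h8 : (nch v (PT v δ) H x : ℤ) ≤ nch v (PT v δ) H y + ((M + 1) * (k + 2) + 1) := by
      exact_mod_cast h7
    have h10 : (nch v (PT v δ) H y : ℤ) ≤ nch v (PT v δ) H x := by exact_mod_cast h6
    constructor <;> linarith

/-- The count at the good time near a persistent time. -/
theorem nch_eq_of_const (hf : Few u M (5 * H)) (hH : 0 ≤ H) {s t : ℝ} (hs : s ∈ PT u δ)
    (ht : t ∈ PT u δ) (h1 : H ≤ s) (h2 : s ≤ 5 * H) (h3 : H ≤ t) (h4 : t ≤ 5 * H)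
    (hc : ∀ y ∈ uIcc s t, u y = u s) : nch u (PT u δ) H t = nch u (PT u δ) H s := by
  rcases le_total s t with h | h
  · have e1 := nch_add (hf.bdd (S := PT u δ) hH h4) hs h1 h
    rw [nch_eq_zero (s := s) (t := t) fun x _ h1 h2 => hc x (by
      rw [uIcc_of_le h]; exact ⟨h1, h2⟩)] at e1
    omega
  · have e1 := nch_add (hf.bdd (S := PT u δ) hH h2) ht h3 h
    rw [nch_eq_zero (s := t) (t := s) fun x _ h1 h2 => by
      rw [hc t right_mem_uIcc]
      exact hc x (by rw [uIcc_of_ge h]; exact ⟨h1, h2⟩)] at e1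
    omega

/-- The differences of the counts agree. -/
theorem nch_diff_eq (hδ : 0 < δ) (hE : IsEvents H δ u E) (hf : Few u M (5 * H))
    (hf' : Few u' M (5 * H)) (hH : 0 ≤ H)
    (hst : ∀ s ∈ Icc (H / 2) (9 * H / 2), s ∉ E → u' (s + σ) = u s) {x y : ℝ} (hx : x ∈ Gd E δ)
    (hy : y ∈ Gd E δ) (hxy : x ≤ y) (hx' : x ∈ PT u δ) (hxu' : x + σ ∈ PT u' δ)
    (h1 : H / 2 + 4 * δ ≤ x) (h2 : y + 4 * δ ≤ 9 * H / 2)
    (h0 : H ≤ x) (h3 : H ≤ x + σ) (h4 : y + σ ≤ 3 * H) :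
    (nch u' (PT u' δ) H (y + σ) : ℤ) - nch u' (PT u' δ) H (x + σ) =
      nch u (PT u δ) H y - nch u (PT u δ) H x := by
  have e1 := nch_good_eq hδ hE hf hf' hH hst hx hy hxy h1 h2 h3 h4
  have e2 := nch_add (hf.bdd (S := PT u δ) (a := H) (b := y) hH (by linarith)) hx' h0 hxy
  have e3 := nch_add (hf'.bdd (S := PT u' δ) (a := H) (b := y + σ) hH (by linarith)) hxu' h3
    (by linarith)
  omega

end

/-- THE COMPARISON of the sequences of close paths. -/
theorem seq_agree {u u' : ℝ → V} {E : Set ℝ} {C H R δ σ : ℝ} {M W k : ℕ} (hδ : 0 < δ)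
    (hδ1 : δ ≤ 1 / 100) (hE : IsEvents H δ u E) (hf : Few u M (5 * H)) (hf' : Few u' M (5 * H))
    (hR0 : 1 ≤ R) (hR : ∀ s t, 0 ≤ s → s + R ≤ t → t ≤ 5 * H → u s ≠ u t)
    (hW : (W + 1) * (R + 1) + 1 ≤ H / 2) (hCH : C + 1 ≤ H / 2) (hCk : C ≤ k)
    (hσ : |σ| ≤ C) (hst : ∀ s ∈ Icc (H / 2) (9 * H / 2), s ∉ E → u' (s + σ) = u s) :
    ∃ sh : ℤ, |sh| ≤ 2 * ((M + 1) * (k + 2) + 1) ∧ ∀ c : ℤ, |c| ≤ W → ∃ p, IsSeq u δ H c p ∧
      IsSeq u' δ H (c + sh) p ∧ ∃ s ∈ Icc (H / 2) (9 * H / 2), s ∉ E ∧ u s = p ∧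
        u' (s + σ) = p := by
  have hWR : 2 ≤ ((W : ℝ) + 1) * (R + 1) := by
    have h1 : (0 : ℝ) ≤ W := Nat.cast_nonneg W
    nlinarith
  have hH : 6 ≤ H := by linarith
  have hH0 : 0 ≤ H := by linarith
  have hk0 : (0 : ℝ) ≤ k := Nat.cast_nonneg k
  obtain ⟨hσ1, hσ2⟩ := abs_le.1 hσ
  have hagu : Agr u u E (H / 2) (9 * H / 2) := IsEvents.agr hE (by linarith) (by linarith)
  have hagw : Agr u (fun y => u' (y + σ)) E (H / 2) (9 * H / 2) := ⟨hagu.const, hst⟩
  -- the base time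
  obtain ⟨t₀, x₀, a1, a2, a3, a4⟩ := companion hδ hE.gap (s := 2 * H) (by linarith) (by linarith)
  obtain ⟨a5, a6⟩ := abs_le.1 a1
  clear a2 a4
  have ht₀ : t₀ ∈ PT u δ := hagu.gd_subset hδ a3 (by linarith) (by linarith)
  have ht₀' : t₀ + σ ∈ PT u' δ :=
    (PT_shift σ).1 (hagw.gd_subset hδ a3 (by linarith) (by linarith))
  have b1 : H ≤ t₀ - 1 := by linarith
  have b2 : t₀ + 1 ≤ 3 * H := by linarith
  have b3 : H ≤ t₀ + σ := by linarith
  have b4 : t₀ + σ ≤ 3 * H := by linarith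
  obtain ⟨sh, hsh⟩ : ∃ sh : ℤ, sh = ((nch u' (PT u' δ) H (t₀ + σ) : ℤ) -
    nch u' (PT u' δ) H (2 * H)) - ((nch u (PT u δ) H t₀ : ℤ) - nch u (PT u δ) H (2 * H)) := ⟨_, rfl⟩
  have hshb : |sh| ≤ 2 * ((M + 1) * (k + 2) + 1) := by
    have h1 := nch_near (δ := δ) hf' hH0 (k := k) b3 b4 (by linarith) (by linarith)
      (show |t₀ + σ - 2 * H| ≤ _ by push_cast; rw [abs_le]; constructor <;> linarith)
    have h2 := nch_near (δ := δ) hf hH0 (k := k) (x := t₀) (y := 2 * H) (by linarith)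
      (by linarith) (by linarith) (by linarith)
      (by push_cast; rw [abs_le]; constructor <;> linarith)
    rw [hsh]
    refine (abs_sub _ _).trans ?_
    linarith
  refine ⟨sh, hshb, fun c hc => ?_⟩
  obtain ⟨s, hs, s1, s2, s3⟩ := exists_isSeq hδ hδ1 hE hf hR0 hR hW hc
  obtain ⟨t, c1, c2, c3⟩ := hagu.exists_gd hδ (by linarith) (T := 5 * H) (by linarith) hE.gap hs
    (by linarith) (by linarith)
  obtain ⟨c4, c5⟩ := abs_le.1 c2
  clear hW hWR a1 c2 hσ
  have d1 : 3 / 2 * H - 1 / 40 ≤ t := by linarith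
  have d2 : t ≤ 5 / 2 * H + 1 / 40 := by linarith
  clear c4 c5
  have ht : t ∈ PT u δ := hagu.gd_subset hδ c1 (by linarith) (by linarith)
  have ht' : t + σ ∈ PT u' δ :=
    (PT_shift σ).1 (hagw.gd_subset hδ c1 (by linarith) (by linarith))
  have htE : t ∉ E := c1 t ⟨by linarith, by linarith⟩
  have htI : t ∈ Icc (H / 2) (9 * H / 2) := ⟨by linarith, by linarith⟩
  have hut : u t = u s := c3 t right_mem_uIcc
  have d3 : H ≤ t + σ := by linarith
  have d4 : t + σ ≤ 3 * H := by linarith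
  have hNt : nch u (PT u δ) H t = nch u (PT u δ) H s :=
    nch_eq_of_const hf hH0 hs ht (by linarith) (by linarith) (by linarith) (by linarith) c3
  have hdiff : (nch u' (PT u' δ) H (t + σ) : ℤ) - nch u' (PT u' δ) H (t₀ + σ) =
      nch u (PT u δ) H t - nch u (PT u δ) H t₀ := by
    rcases le_total t₀ t with h | h
    · exact nch_diff_eq hδ hE hf hf' hH0 hst a3 c1 h ht₀ ht₀' (by linarith) (by linarith)
        (by linarith) b3 d4
    · have := nch_diff_eq hδ hE hf hf' hH0 hst c1 a3 h ht ht' (by linarith) (by linarith)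
        (by linarith) d3 b4
      omega
  refine ⟨u s, ⟨s, hs, by linarith, by linarith, s3, rfl⟩, ⟨t + σ, ht', d3, d4,
    by omega, ?_⟩, t, htI, htE, hut, ?_⟩
  · rw [hst t htI htE, hut]
  · rw [hst t htI htE, hut]

end Pool.Agent.TD
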