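import Pool.Agent.Lib.MP_98022b_td.MachQ
import Pool.Agent.Lib.MP_98022b_td.IfaceQ
import Pool.Agent.Lib.MP_98022b_td.Red3
import Pool.Agent.Lib.MP_98022b_td.ParamQ
import Pool.Agent.Lib.MP_98022b_td.Gauge1
import Pool.Agent.Lib.MP_98022b_gln.GeoTrack

/-!
# Transfer reducible groups from spaces with a discretization
-/

set_option autoImplicit false

open Set Filter Topology

namespace Pool.Agent.TD

open Pool.Agent.FA Pool.Agent.GLN Pool.Agent.CCM
open Pool.Agent.TR (IsEvents)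

/-! ### Geodesics -/

theorem dist_endPt_endPt {B : Type} [MetricSpace B] {geo : B → B → ℝ → B} (hB : Bicomb B geo)
    {x y : B} {s t : ℝ} (hs : 0 ≤ s) (hst : s ≤ t) (ht : t ≤ dist x y) :
    t - s ≤ dist (endPt geo x y s) (endPt geo x y t) := by
  rcases (hs.trans (hst.trans ht)).eq_or_lt with h0 | h0
  · rw [← h0] at ht
    have := dist_nonneg (x := endPt geo x y s) (y := endPt geo x y t)
    linarith
  have h1 : t / dist x y ≤ 1 := (div_le_one h0).2 ht
  have h2 : s / dist x y ≤ t / dist x y := div_le_div_of_nonneg_right hst h0.le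
  have h3 : 0 ≤ s / dist x y := by positivity
  have e1 := hB.speed x y 0 (1 - t / dist x y) le_rfl zero_le_one (by linarith) (by linarith)
  have e2 := hB.speed x y (1 - s / dist x y) 1 (by linarith) (by linarith) zero_le_one le_rfl
  rw [hB.zero, zero_sub, abs_neg, abs_of_nonneg (by linarith)] at e1
  rw [hB.one, sub_sub_cancel_left, abs_neg, abs_of_nonneg h3] at e2
  have e3 := dist_triangle4 x (endPt geo x y t) (endPt geo x y s) y
  rw [dist_comm (endPt geo x y t) (endPt geo x y s)] at e3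
  unfold endPt at *
  have e4 : (1 - t / dist x y) * dist x y = dist x y - t := by
    field_simp
  have e5 : s / dist x y * dist x y = s := by
    field_simp
  rw [e4] at e1
  rw [e5] at e2
  linarith

theorem smul_endPt {G B : Type} [Group G] [MetricSpace B] [MulAction G B] {geo : B → B → ℝ → B}
    (isom : ∀ (g : G) (x y : B), dist (g • x) (g • y) = dist x y)
    (geo_smul : ∀ (g : G) (x y : B) t, 0 ≤ t → t ≤ 1 → g • geo x y t = geo (g • x) (g • y) t)
    (g : G) {x y : B} {s : ℝ} (hs : 0 ≤ s) (h : s ≤ dist x y) :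
    g • endPt geo x y s = endPt geo (g • x) (g • y) s := by
  unfold endPt
  rw [isom]
  rcases hs.eq_or_lt with rfl | hs0
  · rw [zero_div, sub_zero]
    exact geo_smul g _ _ 1 zero_le_one le_rfl
  · have hT : 0 < dist x y := hs0.trans_le h
    have h1 : s / dist x y ≤ 1 := (div_le_one hT).2 h
    have h2 : 0 ≤ s / dist x y := by positivity
    exact geo_smul g _ _ _ (by linarith) (by linarith)

/-! ### `SeqQ` from an equivariant family of sequences -/

section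

variable {G X V V' : Type} [Group G] [MulAction G V] {d' : V → V → ℕ} {π : V → V'}

/-- The domain consists of the frames for which the sequence has all properties. -/
def SeqQ.ofP (hsm : ∀ (g : G) u v, d' (g • u) (g • v) = d' u v)
    (hinj : ∀ (g : G) u v, π u = π v → π (g • u) = π (g • v)) (Λ W q : ℕ)
    (P : G → X → ℤ → V) (hP : ∀ h g x c, P (h * g) x c = h • P g x c) (A : Set V) (hA : A.Finite)
    (hAq : A.ncard ≤ q) : SeqQ G X V V' d' π Λ W q where
  Dom g x := (∀ (n : ℕ) (c : ℕ → ℤ), (∀ i ≤ n, |c i| ≤ W) →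
      (∀ i < n, c i ≤ c (i + 1) ∧ π (P g x (c i)) ≠ π (P g x (c (i + 1)))) →
      n ≤ Λ * (d' (P g x (c 0)) (P g x (c n)) + 1)) ∧
    ∀ c : ℤ, |c| ≤ W → g⁻¹ • P g x c ∈ A
  P := P
  dom_smul := by
    rintro h g x ⟨h1, h2⟩
    refine ⟨fun n c hc hch => ?_, fun c hc => ?_⟩
    · simp only [hP, hsm] at hch ⊢
      exact h1 n c hc fun i hi => ⟨(hch i hi).1, fun he => (hch i hi).2 (hinj h _ _ he)⟩
    · rw [hP, mul_inv_rev, mul_smul, inv_smul_smul]
      exact h2 c hc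
  smul := hP
  chg g x hx := hx.1
  fin := ⟨A, hA, hAq, fun g x hx => hx.2⟩

end

/-- The times of a sequence of persistent states. -/
theorem exists_times {V V' : Type} {u : ℝ → V} {δ H : ℝ} {M : ℕ} (hf : Few u M (3 * H))
    (hH : 0 ≤ H) {π : V → V'} {n : ℕ} {c : ℕ → ℤ} {p : ℕ → V}
    (hp : ∀ i ≤ n, IsSeq u δ H (c i) (p i))
    (hc : ∀ i < n, c i ≤ c (i + 1) ∧ π (p i) ≠ π (p (i + 1))) :
    ∃ s : ℕ → ℝ, (∀ i < n, s i ≤ s (i + 1)) ∧ H ≤ s 0 ∧ s n ≤ 3 * H ∧ ∀ i ≤ n, u (s i) = p i := by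
  have hch : ∀ i, ∃ s : ℝ, i ≤ n → s ∈ PT u δ ∧ H ≤ s ∧ s ≤ 3 * H ∧
      (nch u (PT u δ) H s : ℤ) - nch u (PT u δ) H (2 * H) = c i ∧ u s = p i := by
    intro i
    by_cases hi : i ≤ n
    · obtain ⟨s, hs⟩ := hp i hi
      exact ⟨s, fun _ => hs⟩
    · exact ⟨0, fun h => absurd h hi⟩
  choose s hs using hch
  refine ⟨s, fun i hi => ?_, (hs 0 (Nat.zero_le _)).2.1, (hs n le_rfl).2.2.1,
    fun i hi => (hs i hi).2.2.2.2⟩
  obtain ⟨a1, a2, a3, a4, a5⟩ := hs i hi.le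
  obtain ⟨b1, b2, b3, b4, b5⟩ := hs (i + 1) hi
  obtain ⟨h1, h2⟩ := hc i hi
  by_contra hcon
  push Not at hcon
  have h3 := nch_mono (hf.bdd (S := PT u δ) hH a3) le_rfl hcon.le
  have h4 : c i = c (i + 1) := by omega
  have h5 : IsSeq u δ H (c i) (p (i + 1)) := by
    rw [h4]
    exact hp (i + 1) hi
  exact h2 (by rw [(hp i hi.le).unique hf hH h5])

/-- THE SEQUENCES of a space with a discretization. -/
theorem exists_seqQ {G B V V' P : Type} [Group G] [MetricSpace B] [MulAction G B]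
    [MulAction G V] {dV d' : V → V → ℕ} {π : V → V'} {geo : B → B → ℝ → B}
    (hsm : ∀ (g : G) u v, d' (g • u) (g • v) = d' u v)
    (hinj : ∀ (g : G) u v, π u = π v → π (g • u) = π (g • v)) (Δ : DiscQ P G B V dV geo)
    (hchg : ∃ Λ : ℕ, ∀ (r : P) (x y : B) (n : ℕ) (s : ℕ → ℝ), (∀ i < n, s i ≤ s (i + 1)) →
      0 ≤ s 0 → s n ≤ dist x y →
      (∀ i < n, π (Δ.st r (endPt geo x y (s i))) ≠ π (Δ.st r (endPt geo x y (s (i + 1))))) →
      n ≤ Λ * (d' (Δ.st r (endPt geo x y (s 0))) (Δ.st r (endPt geo x y (s n))) + 1))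
    (o : B) (N₀ : ℕ)
    (hcone : ∀ S : Finset G, (1 : G) ∈ S → ∃ (F : ℕ → B → ℝ) (L R η₀ : ℝ),
      ConeData1 G S B geo o F L R η₀ ∧ GaugeNet F ∧ ConeOut1 geo o F S N₀) :
    ∃ n₁ n₂ Λ : ℕ, ∀ S : Finset G, (1 : G) ∈ S → ∃ η A₀ H₀ : ℕ, ∀ H ≥ H₀, ∃ q : ℕ,
      q ≤ tow 3 (H ^ A₀) ∧ ∃ (X : Type) (_ : TopologicalSpace X), CompactSpace X ∧
      TopologicalSpace.MetrizableSpace X ∧ ContractibleSpace X ∧
      StronglyLocallyContractibleSpace X ∧ CovDimLE X N₀ ∧
      ∃ (θ : HomotopyAction G S X) (cS : Fin n₁ → G → X → V → Prop)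
        (D : Fin n₂ → SeqQ G X V V' d' π Λ H q), (∀ j, IsCol (fun _ => True) (cS j)) ∧
        ∀ g x, (∃ j l, ∀ q ∈ θ.nbhd S.card (g, x), ∀ᶠ y in 𝓝 q.2, cS j q.1 y l) ∨
          ∃ j, (D j).Dom g x ∧
            ∀ q ∈ θ.nbhd S.card (g, x), ∀ᶠ y in 𝓝 q.2, (D j).Sees η g x q.1 y := by
  classical
  obtain ⟨K, e, hpairs⟩ := Δ.pairs
  obtain ⟨n₁, rS, eS, heS, hshortS⟩ := Δ.short
  obtain ⟨Cn, hnearS⟩ := Δ.near
  obtain ⟨M, hfewS⟩ := Δ.few
  obtain ⟨Λ, hchg⟩ := hchg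
  refine ⟨n₁, K, Λ, fun S hS1 => ?_⟩
  obtain ⟨F, L, R, η₀, cd, ⟨C', hC'⟩, C, hC, hout⟩ := hcone S hS1
  obtain ⟨k, hk⟩ : ∃ k : ℕ, C ≤ k := exists_nat_ge _
  obtain ⟨η, hη⟩ : ∃ η : ℕ, η = 2 * ((M + 1) * (k + 2) + 1) := ⟨_, rfl⟩
  obtain ⟨b, hb⟩ : ∃ b : ℝ, b = 8 * C / eS := ⟨_, rfl⟩
  have hb0 : 0 < b := by
    rw [hb]
    positivity
  -- the rate of the changes
  obtain ⟨c₁, hc₁⟩ : ∃ c₁ : ℕ, c₁ = 2 * Cn + 1 + 1 := ⟨_, rfl⟩
  obtain ⟨η₂, hη₂⟩ : ∃ η₂ : ℕ, η₂ = (η + 1) * c₁ + k + 2 := ⟨_, rfl⟩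
  obtain ⟨A₀, H₀, hpar⟩ := param_Q C b hC hb0 e c₁ η₂ C' (by omega)
  refine ⟨η, A₀, max H₀ 1, fun H hH => ?_⟩
  obtain ⟨D, m, hCD, hD8, hD20, hDε, hDF, hDA⟩ := hpar H ((le_max_left _ _).trans hH)
  obtain ⟨h, hh⟩ : ∃ h : ℕ, h = 2 * (c₁ * H) + 2 * η₂ := ⟨_, rfl⟩
  rw [← hh] at hD20 hDε hDF
  obtain ⟨X, _, t1, t2, t3, t4, t5, θ, p, hp, hF, hnear⟩ := hout D hCD
  -- the finite net
  obtain ⟨As, hAs, hAsc, hAsm⟩ := hC' (m + 2)
  have hq : As.ncard ≤ 2 ^ 2 ^ (C' * (m + 3)) := hAsc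
  refine ⟨2 ^ 2 ^ (C' * (m + 3)), Nat.pow_le_pow_right (by norm_num)
    (Nat.pow_le_pow_right (by norm_num) hDA), X, inferInstance, t1, t2, t3, t4, t5, θ, ?_⟩
  -- the constants
  have hk0 : (0 : ℝ) ≤ k := Nat.cast_nonneg k
  have hhR : (h : ℝ) = 2 * (c₁ * H) + 2 * ((η + 1) * c₁ + k + 2) := by
    rw [hh, hη₂]
    push_cast
    ring
  have hcH : (0 : ℝ) ≤ (c₁ : ℝ) * H := by positivity
  have hcη : (0 : ℝ) ≤ ((η : ℝ) + 1) * c₁ := by positivity
  have hCh : C + 1 ≤ (h : ℝ) / 2 := by linarith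
  have hh4 : (4 : ℝ) ≤ h := by linarith
  have hh0 : (0 : ℝ) ≤ h := by linarith
  have hh2 : 2 ≤ h := by
    have h1 : (2 : ℝ) ≤ h := by linarith
    exact_mod_cast h1
  have hW : (((H + η : ℕ) : ℝ) + 1) * ((2 * (Cn : ℝ) + 1) + 1) + 1 ≤ (h : ℝ) / 2 := by
    have h1 : (c₁ : ℝ) = 2 * (Cn : ℝ) + 1 + 1 := by
      rw [hc₁]
      push_cast
      ring
    rw [hhR, h1]
    push_cast
    linarith
  have hD0 : (0 : ℝ) < D := hC.trans_le hCD
  obtain ⟨r, δ, ε, hε0, hεl, hδ, hgood⟩ := hpairs h hh2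
  have hDε' : C * (1 / D + 5 * h * b / D) < ε / 4 := hDε.trans_le (by linarith)
  have hDF' : C * D ^ 2 / (m + 1) + 1 / 2 ^ (m + 2) < ε / 2 := hDF.trans_le (by linarith)
  -- the paths and the sequences
  obtain ⟨u, hu⟩ : ∃ u : Fin K → X → ℝ → V,
      u = fun j x s => Δ.st (r j) (endPt geo o (p x) s) := ⟨_, rfl⟩
  obtain ⟨Pj, hPj⟩ : ∃ Pj : Fin K → G → X → ℤ → V,
      Pj = fun j g x c => g • (seqR (u j x) (δ j) h c).getD (u j x 0) := ⟨_, rfl⟩
  have hPsm : ∀ j h g x c, Pj j (h * g) x c = h • Pj j g x c := by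
    intro j h g x c
    rw [hPj]
    exact mul_smul _ _ _
  have hAj : ∀ j, (Δ.st (r j) '' As).Finite := fun j => hAs.image _
  have hAjc : ∀ j, (Δ.st (r j) '' As).ncard ≤ 2 ^ 2 ^ (C' * (m + 3)) := fun j =>
    (ncard_image_le hAs).trans hq
  refine ⟨fun j g x l => l = g • Δ.st (rS j) (p x),
    fun j => SeqQ.ofP hsm hinj Λ H _ (Pj j) (hPsm j) _ (hAj j) (hAjc j),
    fun j => ⟨?_, ?_, fun _ _ _ _ => trivial⟩, fun g z => ?_⟩
  · rintro g x l l' rfl rfl
    rfl
  · rintro h g x l rfl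
    rw [mul_smul]
  -- a common colour
  have hTT : ∀ (h : G) (x : X), dist (h • o) (h • p x) = dist o (p x) := fun h x => cd.isom h _ _
  by_cases hshort : dist (g • o) (g • p z) ≤ D / b
  · -- short frames
    left
    obtain ⟨j, hj⟩ := hshortS (g • p z)
    refine ⟨j, Δ.st (rS j) (g • p z), fun q hq' => ?_⟩
    obtain ⟨h1, -, -⟩ := hnear g z q hq'
    have h2 : ∀ᶠ y in 𝓝 q.2, dist (p y) (p q.2) < eS / 8 :=
      hp.continuousAt.eventually (Metric.ball_mem_nhds _ (by positivity))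
    filter_upwards [h2] with y hy
    rw [← Δ.st_smul]
    refine (Δ.st_eq _ eS _ _ hj ?_).symm
    have hbe : C / b = eS / 8 := by
      rw [hb]
      field_simp
    have h3 : C * (dist (g • o) (g • p z) + 1) / D ≤ eS / 8 + eS / 8 := by
      rw [div_le_iff₀ hD0]
      have h4 : C * dist (g • o) (g • p z) ≤ eS / 8 * D := by
        calc C * dist (g • o) (g • p z) ≤ C * (D / b) :=
              mul_le_mul_of_nonneg_left hshort hC.le
          _ = C / b * D := by ring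
          _ = eS / 8 * D := by rw [hbe]
      have h5 : C ≤ eS / 8 * D := by
        rw [← hbe, div_mul_eq_mul_div, le_div_iff₀ hb0]
        exact mul_le_mul_of_nonneg_left hD8 hC.le
      linarith
    have h6 : dist (q.1 • p q.2) (q.1 • p y) < eS / 8 := by
      rw [cd.isom, dist_comm]
      exact hy
    have h7 : dist (q.1 • p y) (g • p z) < eS / 8 + eS / 8 + eS / 8 := by
      rw [dist_comm]
      exact (dist_triangle _ (q.1 • p q.2) _).trans_lt (by linarith)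
    rw [dist_comm]
    exact h7.trans_le (by linarith)
  -- long frames
  right
  push Not at hshort
  have hT20 : 20 * (h : ℝ) < dist (g • o) (g • p z) := by
    refine lt_of_le_of_lt ?_ hshort
    rw [le_div_iff₀ hb0]
    exact hD20
  have hTz : 20 * (h : ℝ) < dist o (p z) := by rwa [hTT] at hT20
  obtain ⟨j, hE⟩ := hgood o (p z) (by linarith)
  obtain ⟨hδ1, hδ2⟩ := hδ j
  have hδ0 : 0 < δ j := hε0.trans_le hδ1
  -- properties of all long paths
  have hfew : ∀ x, 5 * (h : ℝ) ≤ dist o (p x) → Few (u j x) M (5 * h) := by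
    intro x hx n s h1 h2 h3 h4 h5
    rw [hu] at h5
    exact hfewS (r j) o (p x) n s h1 h2 h3 (h4.trans hx) h5
  have hfew3 : ∀ x, 5 * (h : ℝ) ≤ dist o (p x) → Few (u j x) M (3 * h) := by
    intro x hx n s h1 h2 h3 h4 h5
    exact hfew x hx n s h1 h2 h3 (h4.trans (by linarith)) h5
  have hPsome : ∀ (g : G) (x : X), 5 * (h : ℝ) ≤ dist o (p x) → ∀ c v,
      IsSeq (fun s => g • u j x s) (δ j) h c v → Pj j g x c = v := by
    intro g x hx c v hv
    have h1 := (smul_seqR_eq_some (hfew3 x hx) hh0 g).2 hv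
    rw [hPj]
    cases h2 : seqR (u j x) (δ j) h c with
    | none =>
      rw [h2] at h1
      cases h1
    | some w =>
      rw [h2] at h1
      simp only [h2, Option.getD_some]
      exact Option.some_inj.1 h1
  have hR : ∀ s t, 0 ≤ s → s + (2 * (Cn : ℝ) + 1) ≤ t → t ≤ 5 * (h : ℝ) →
      g • u j z s ≠ g • u j z t := by
    intro s t h1 h2 h3 h4
    rw [smul_left_cancel_iff, hu] at h4
    have h4' : Δ.st (r j) (endPt geo o (p z) s) = Δ.st (r j) (endPt geo o (p z) t) := h4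
    have hCn : (0 : ℝ) ≤ Cn := Nat.cast_nonneg _
    have h5 := dist_endPt_endPt cd.bicomb h1 (by linarith) (h3.trans (by linarith))
    have h6 := (hnearS (r j) (r j) (endPt geo o (p z) s) (endPt geo o (p z) t)).2
    have h7 := (hnearS (r j) (r j) (endPt geo o (p z) s) (endPt geo o (p z) s)).1
    rw [dist_self] at h7
    rw [← h4'] at h6
    linarith
  have hEg : IsEvents (h : ℝ) (δ j) (fun s => g • u j z s)
      {s | ¬ Δ.far (r j) ε (endPt geo o (p z) s)} := by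
    refine ⟨fun s hs t ht hst hc => ?_, hE.gap⟩
    have h1 : u j z s = u j z t := by
      rw [hu]
      exact hE.const s hs t ht hst hc
    show g • u j z s = g • u j z t
    rw [h1]
  have hFg : Few (fun s => g • u j z s) M (5 * h) := (hfew z (by linarith)).smul g
  -- the frames which are close
  have key : ∀ q ∈ θ.nbhd S.card (g, z), ∀ᶠ y in 𝓝 q.2,
      (SeqQ.ofP hsm hinj Λ H _ (Pj j) (hPsm j) _ (hAj j) (hAjc j)).Sees η g z q.1 y := by
    intro q hq'
    obtain ⟨-, h1, σ, hσ, h2⟩ := hnear g z q hq'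
    have h3 : ∀ᶠ y in 𝓝 q.2, dist (p y) (p q.2) < min 1 (ε / 8) :=
      hp.continuousAt.eventually (Metric.ball_mem_nhds _ (by positivity))
    filter_upwards [h3] with y hy
    have hy1 : dist (p y) (p q.2) < 1 := hy.trans_le (min_le_left _ _)
    have hy2 : dist (p y) (p q.2) < ε / 8 := hy.trans_le (min_le_right _ _)
    obtain ⟨hσ1, hσ2⟩ := abs_le.1 hσ
    obtain ⟨h1a, h1b⟩ := abs_le.1 h1
    have h4 : |dist (q.1 • o) (q.1 • p q.2) - dist (q.1 • o) (q.1 • p y)| ≤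
        dist (p y) (p q.2) := by
      rw [cd.isom, cd.isom, dist_comm o (p q.2), dist_comm o (p y), dist_comm (p y) (p q.2)]
      exact abs_dist_sub_le (p q.2) (p y) o
    obtain ⟨h4a, h4b⟩ := abs_le.1 h4
    have hTq : 6 * (h : ℝ) ≤ dist (q.1 • o) (q.1 • p q.2) := by linarith
    have hTy : 6 * (h : ℝ) ≤ dist (q.1 • o) (q.1 • p y) := by linarith
    have hTy' : 6 * (h : ℝ) ≤ dist o (p y) := by rwa [hTT] at hTy
    have hTy5 : 5 * (h : ℝ) ≤ dist o (p y) := by linarith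
    have hclose : ∀ s ∈ Icc ((h : ℝ) / 2) (9 * (h : ℝ) / 2),
        dist (g • endPt geo o (p z) s) (q.1 • endPt geo o (p y) (s + σ)) < ε / 2 := by
      intro s hs
      have hs1 := hs.1
      have hs2 := hs.2
      rw [smul_endPt cd.isom cd.geo_smul g (by linarith) (by linarith),
        smul_endPt cd.isom cd.geo_smul q.1 (by linarith) (by linarith)]
      have k1 := h2 s (by linarith) (by linarith)
      have k2 : C * (1 / D + s / dist (g • o) (g • p z)) < ε / 4 := by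
        refine lt_of_le_of_lt (mul_le_mul_of_nonneg_left ?_ hC.le) hDε'
        have k3 : s / dist (g • o) (g • p z) ≤ 5 * (h : ℝ) * b / D := by
          rw [div_le_div_iff₀ (by linarith) hD0]
          have k4 : (D : ℝ) ≤ b * dist (g • o) (g • p z) := by
            rw [div_lt_iff₀ hb0] at hshort
            linarith
          calc s * D ≤ 5 * (h : ℝ) * (b * dist (g • o) (g • p z)) := by
                refine mul_le_mul (by linarith) k4 hD0.le (by linarith)
            _ = 5 * (h : ℝ) * b * dist (g • o) (g • p z) := by ring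
        linarith
      have k5 := cd.bicomb.dist_endPt_le (x := q.1 • o) (y := q.1 • p q.2) (y' := q.1 • p y)
        (s := s + σ) (by linarith) (by linarith) (by linarith)
      rw [cd.isom, dist_comm (p q.2)] at k5
      exact (dist_triangle _ (endPt geo (q.1 • o) (q.1 • p q.2) (s + σ)) _).trans_lt
        (by linarith)
    have hst : ∀ s ∈ Icc ((h : ℝ) / 2) (9 * (h : ℝ) / 2),
        s ∉ {s | ¬ Δ.far (r j) ε (endPt geo o (p z) s)} →
        q.1 • u j y (s + σ) = g • u j z s := by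
      intro s hs he
      have k1 : Δ.far (r j) ε (g • endPt geo o (p z) s) := by
        rw [Δ.far_smul]
        by_contra hcon
        exact he hcon
      rw [hu]
      show q.1 • Δ.st (r j) (endPt geo o (p y) (s + σ)) = g • Δ.st (r j) (endPt geo o (p z) s)
      rw [← Δ.st_smul, ← Δ.st_smul]
      exact Δ.st_eq _ ε _ _ k1 ((hclose s hs).trans (by linarith))
    obtain ⟨sh, hsh, hag⟩ := seq_agree (W := H + η) hδ0 hδ2 hEg hFg ((hfew y hTy5).smul q.1)
      (by have : (0 : ℝ) ≤ Cn := Nat.cast_nonneg _; linarith) hR hW hCh hk hσ hst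
    have hsh' : |sh| ≤ (η : ℤ) := by
      rw [hη]
      push_cast
      exact hsh
    obtain ⟨hsh1, hsh2⟩ := abs_le.1 hsh'
    -- the states of the other frame
    have hPy : ∀ c : ℤ, |c| ≤ H → IsSeq (fun s => q.1 • u j y s) (δ j) h c (Pj j q.1 y c) ∧
        ∃ s ∈ Icc ((h : ℝ) / 2) (9 * (h : ℝ) / 2),
          s ∉ {s | ¬ Δ.far (r j) ε (endPt geo o (p z) s)} ∧
          q.1 • u j y (s + σ) = Pj j q.1 y c := by
      intro c hc
      obtain ⟨hc1, hc2⟩ := abs_le.1 hc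
      obtain ⟨v, k1, k2, s, k3, k4, k5, k6⟩ := hag (c - sh) (by
        push_cast
        rw [abs_le]
        constructor <;> omega)
      rw [sub_add_cancel] at k2
      rw [hPsome q.1 y hTy5 c v k2]
      exact ⟨k2, s, k3, k4, k6⟩
    refine ⟨⟨fun n c hc hch => ?_, fun c hc => ?_⟩, sh, hsh', fun c hc => ?_⟩
    · obtain ⟨s, k1, k2, k3, k4⟩ := exists_times (Few.smul q.1 (hfew3 y hTy5)) hh0 (π := π)
        (p := fun i => Pj j q.1 y (c i)) (fun i hi => (hPy (c i) (hc i hi)).1) hch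
      have k5 : ∀ i ≤ n, Pj j q.1 y (c i) = Δ.st (r j) (endPt geo (q.1 • o) (q.1 • p y) (s i)) := by
        intro i hi
        rw [← k4 i hi, hu]
        have k6 : (h : ℝ) ≤ s i := k2.trans (chain_le k1 (Nat.zero_le i) hi)
        have k7 : s i ≤ 3 * h := (chain_le k1 hi le_rfl).trans k3
        show q.1 • Δ.st (r j) (endPt geo o (p y) (s i)) = _
        rw [← smul_endPt cd.isom cd.geo_smul q.1 (by linarith) (by linarith), Δ.st_smul]
      have k8 := hchg (r j) (q.1 • o) (q.1 • p y) n s k1 (by linarith) (k3.trans (by linarith))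
        fun i hi => by
          rw [← k5 i hi.le, ← k5 (i + 1) hi]
          exact (hch i hi).2
      rwa [← k5 0 (Nat.zero_le _), ← k5 n le_rfl] at k8
    · obtain ⟨-, s, k3, k4, k5⟩ := hPy c hc
      rw [← k5, inv_smul_smul, hu]
      show Δ.st (r j) (endPt geo o (p y) (s + σ)) ∈ _
      have k6 : Δ.far (r j) ε (g • endPt geo o (p z) s) := by
        rw [Δ.far_smul]
        by_contra hcon
        exact k4 hcon
      have k7 : Δ.far (r j) (ε / 2) (endPt geo o (p y) (s + σ)) := by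
        rw [← Δ.far_smul q.1]
        exact Δ.far_mono _ _ _ _ (Δ.far_dist _ _ _ _ k6) (by linarith [hclose s k3])
      obtain ⟨a, ha, had⟩ := hAsm (endPt geo o (p y) (s + σ))
      refine ⟨a, ha, Δ.st_eq _ _ _ _ k7 (had.trans_lt ?_)⟩
      -- the gauge is small
      unfold endPt
      have hTpos : 0 < dist o (p y) := by linarith
      have h8 : (s + σ) / dist o (p y) ≤ 1 := by
        rw [div_le_one hTpos]
        linarith [k3.2]
      have h9 : 0 ≤ (s + σ) / dist o (p y) := div_nonneg (by linarith [k3.1]) hTpos.le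
      have h10 := cd.convex (m + 1) o (p y) (1 - (s + σ) / dist o (p y)) (by linarith)
        (by linarith)
      rw [cd.base, mul_zero, zero_add] at h10
      have h11 := hF y m
      have h12 : (1 - (s + σ) / dist o (p y)) * F (m + 1) (p y) ≤ F (m + 1) (p y) := by
        have := mul_le_mul_of_nonneg_right (show 1 - (s + σ) / dist o (p y) ≤ 1 by linarith)
          (cd.nonneg (m + 1) (p y))
        linarith
      linarith
    · obtain ⟨hc1, hc2⟩ := abs_le.1 hc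
      obtain ⟨v, k1, k2, -⟩ := hag c (by
        push_cast
        rw [abs_le]
        constructor <;> omega)
      show Pj j q.1 y (c + sh) = Pj j g z c
      rw [hPsome q.1 y hTy5 _ v k2, hPsome g z (by linarith) _ v k1]
  exact ⟨j, (key (g, z) (mem_nbhd θ hS1 _ _)).self_of_nhds.1, key⟩

/-- The machine with a map of the states. -/
theorem transferReducible_of_discQ' {Γ B V V' P : Type} [Group Γ] [MetricSpace B] [MulAction Γ B]
    [MulAction Γ V] [MulAction Γ V'] {G : Subgroup Γ} (hfg : Group.FG G) {dV d' : V → V → ℕ}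
    {π : V → V'} {geo : B → B → ℝ → B} (hsm : ∀ (g : Γ) u v, d' (g • u) (g • v) = d' u v)
    (hmap : ∀ (g : Γ) u, π (g • u) = g • π u) {k₀ l₀ : ℕ} (hch : ChainCond' Γ d' k₀ l₀)
    (𝓕 : Subgroup G → Prop)
    (hJ : ∀ T : Set V, T.Finite → Far d' k₀ T → ∀ t : Γ,
      Nrm (fixingSubgroup Γ T) t → ∀ H : Subgroup G,
      (∀ n ∈ H, (n : Γ) ∈ fixingSubgroup Γ T ⊔ Subgroup.zpowers t) → 𝓕 H)
    (hV : ∀ v : V', ∀ H : Subgroup G, (∀ h ∈ H, h • v = v) → 𝓕 H) (Δ : DiscQ P G B V dV geo)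
    (hchg : ∃ Λ : ℕ, ∀ (r : P) (x y : B) (n : ℕ) (s : ℕ → ℝ), (∀ i < n, s i ≤ s (i + 1)) →
      0 ≤ s 0 → s n ≤ dist x y →
      (∀ i < n, π (Δ.st r (endPt geo x y (s i))) ≠ π (Δ.st r (endPt geo x y (s (i + 1))))) →
      n ≤ Λ * (d' (Δ.st r (endPt geo x y (s 0))) (Δ.st r (endPt geo x y (s n))) + 1))
    (o : B) (N₀ : ℕ)
    (hcone : ∀ S : Finset G, (1 : G) ∈ S → ∃ (F : ℕ → B → ℝ) (L R η₀ : ℝ),
      ConeData1 G S B geo o F L R η₀ ∧ GaugeNet F ∧ ConeOut1 geo o F S N₀) :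
    TransferReducible G 𝓕 := by
  obtain ⟨n₁, n₂, Λ, h⟩ := exists_seqQ (G := G) (d' := d') (π := π)
    (fun g u v => hsm (g : Γ) u v) (fun g u v huv => by
      have h1 := hmap (g : Γ) u
      have h2 := hmap (g : Γ) v
      rw [huv, ← h2] at h1
      exact h1) Δ hchg o N₀ hcone
  exact transferReducible_of_seqQ hfg hsm hmap hch 𝓕 hJ hV N₀ n₁ n₂ Λ 3 h

/-- The number of the changes is bounded by the distance. -/
theorem exists_chg {G B V P : Type} [Group G] [MetricSpace B] [MulAction G B] [MulAction G V]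
    {dV : V → V → ℕ} {geo : B → B → ℝ → B} (hb : Bicomb B geo) (Δ : DiscQ P G B V dV geo) :
    ∃ Λ : ℕ, ∀ (r : P) (x y : B) (n : ℕ) (s : ℕ → ℝ), (∀ i < n, s i ≤ s (i + 1)) →
      0 ≤ s 0 → s n ≤ dist x y →
      (∀ i < n, id (Δ.st r (endPt geo x y (s i))) ≠ id (Δ.st r (endPt geo x y (s (i + 1))))) →
      n ≤ Λ * (dV (Δ.st r (endPt geo x y (s 0))) (Δ.st r (endPt geo x y (s n))) + 1) := by
  obtain ⟨Cn, hnear⟩ := Δ.near
  obtain ⟨M, hfew⟩ := Δ.few
  refine ⟨(M + 1) * (Cn + 1), fun r x y n s h1 h2 h3 h4 => ?_⟩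
  obtain ⟨u, hu⟩ : ∃ u : ℝ → V, u = fun s => Δ.st r (endPt geo x y s) := ⟨_, rfl⟩
  have hf : Few u M (dist x y) := by
    intro n s k1 k2 k3 k4 k5
    rw [hu] at k5
    exact hfew r x y n s k1 k2 k3 k4 k5
  have h0n : s 0 ≤ s n := chain_le h1 (Nat.zero_le n) le_rfl
  obtain ⟨k, hk⟩ : ∃ k : ℕ, k = ⌊s n - s 0⌋₊ := ⟨_, rfl⟩
  have hk1 : s n ≤ s 0 + (k + 1) := by
    have := Nat.lt_floor_add_one (s n - s 0)
    rw [hk]
    linarith
  have hk2 : (k : ℝ) ≤ s n - s 0 := by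
    rw [hk]
    exact Nat.floor_le (by linarith)
  have h5 := hf.long k n s h1 h2 hk1 h3 (fun i hi => by
    rw [hu]
    exact h4 i hi)
  have h6 := dist_endPt_endPt hb h2 h0n h3
  have h7 := (hnear r r (endPt geo x y (s 0)) (endPt geo x y (s n))).2
  have h8 : k ≤ dV (Δ.st r (endPt geo x y (s 0))) (Δ.st r (endPt geo x y (s n))) + Cn := by
    have : (k : ℝ) ≤ dV (Δ.st r (endPt geo x y (s 0))) (Δ.st r (endPt geo x y (s n))) + Cn := by
      linarith
    exact_mod_cast this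
  refine h5.trans ?_
  rw [mul_assoc]
  refine Nat.mul_le_mul_left _ ?_
  nlinarith

/-- THE GEOMETRIC THEOREM. -/
theorem transferReducible_of_discQ {Γ B V P : Type} [Group Γ] [MetricSpace B] [MulAction Γ B]
    [MulAction Γ V] (G : Subgroup Γ) (hfg : Group.FG G) {dV : V → V → ℕ} {geo : B → B → ℝ → B}
    (hsm : ∀ (g : Γ) u v, dV (g • u) (g • v) = dV u v) (𝓕 : Subgroup G → Prop) (k₀ l₀ : ℕ)
    (hst : CCC.StabCond Γ V dV G 𝓕 k₀ l₀) (Δ : DiscQ P G B V dV geo) (o : B) (N₀ : ℕ)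
    (hcone : ∀ S : Finset G, (1 : G) ∈ S → ∃ (F : ℕ → B → ℝ) (L R η₀ : ℝ),
      ConeData1 G S B geo o F L R η₀ ∧ GaugeNet F ∧ ConeOut1 geo o F S N₀) :
    TransferReducible G 𝓕 := by
  have hb : Bicomb B geo := by
    obtain ⟨F, L, R, η₀, cd, -⟩ := hcone {1} (Finset.mem_singleton_self 1)
    exact cd.bicomb
  refine transferReducible_of_discQ' (d' := dV) (π := id) hfg hsm (fun _ _ => rfl)
    (k₀ := k₀) (l₀ := l₀) ?_ 𝓕 ?_ hst.vx Δ (exists_chg hb Δ) o N₀ hcone
  · intro T hmono hfin hfar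
    exact hst.chain T hfin (fun i => hmono (Nat.le_succ i)) hfar
  · intro T hT hfar t ht K hK
    refine hst.cyc T hT hfar t (fun j => ⟨fun hj => (ht j hj).1, fun hj => ?_⟩) K hK
    have h1 := (ht _ hj).2
    convert h1 using 1
    group

end Pool.Agent.TD
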