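import Pool.Agent.Lib.MP_98022b_td.CatDefs

/-!
# Euclidean simplicial complexes: definitions
-/

set_option autoImplicit false

open Set Filter Topology

namespace Pool.Agent.TD

/-- The structure of a Euclidean simplicial complex on the metric space `X`: `faces` is the set of
the simplices, `co x v` is the barycentric coordinate of the point `x` at the vertex `v`, `pos v` is
the vertex `v` as a point of `X`. The points are the functions `a ≥ 0` with sum `1` whose support is
a simplex (`carrier`, `exists_pt`, `inj`). The closed simplices are Euclidean (`euclid`). A point has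
a neighbourhood in the union of the closed simplices which contain it (`locally`). -/
structure EComplex (X V : Type) [MetricSpace X] where
  faces : Set (Finset V)
  down : ∀ s ∈ faces, ∀ t ⊆ s, t.Nonempty → t ∈ faces
  vert : ∀ v, {v} ∈ faces
  co : X → V → ℝ
  co_nonneg : ∀ x v, 0 ≤ co x v
  carrier : ∀ x, ∃ s ∈ faces, (∀ v, 0 < co x v ↔ v ∈ s) ∧ ∑ v ∈ s, co x v = 1
  exists_pt : ∀ s ∈ faces, ∀ a : V → ℝ, (∀ v, 0 ≤ a v) → (∀ v, v ∉ s → a v = 0) →
    ∑ v ∈ s, a v = 1 → ∃ x, co x = a
  inj : ∀ x y, co x = co y → x = y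
  pos : V → X
  pos_co : ∀ v, co (pos v) v = 1
  euclid : ∀ s ∈ faces, ∀ x y, (∀ v, v ∉ s → co x v = 0) → (∀ v, v ∉ s → co y v = 0) →
    dist x y ^ 2 = -(1 / 2) * ∑ u ∈ s, ∑ v ∈ s,
      (co x u - co y u) * (co x v - co y v) * dist (pos u) (pos v) ^ 2
  locally : ∀ x, ∃ ε > 0, ∀ y, dist x y < ε → ∃ s ∈ faces,
    (∀ v, v ∉ s → co x v = 0) ∧ (∀ v, v ∉ s → co y v = 0)

namespace EComplex

variable {X V : Type} [MetricSpace X] (K : EComplex X V)

/-- The length of the edge `{u, v}`. -/
noncomputable def len (u v : V) : ℝ := dist (K.pos u) (K.pos v)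

/-- The set of the lengths of the edges. -/
def lens : Set ℝ := {l | ∃ s ∈ K.faces, ∃ u ∈ s, ∃ v ∈ s, u ≠ v ∧ l = K.len u v}

/-- `x` is in the closed simplex `s`. -/
def In (x : X) (s : Finset V) : Prop := s ∈ K.faces ∧ ∀ v, v ∉ s → K.co x v = 0

/-- The open simplex which contains `x` is `s`. -/
def Supp (x : X) (s : Finset V) : Prop := s ∈ K.faces ∧ ∀ v, 0 < K.co x v ↔ v ∈ s

/-- The bilinear form on the vector space of the simplex `s`. -/
noncomputable def form (s : Finset V) (a b : V → ℝ) : ℝ :=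
  -(1 / 2) * ∑ u ∈ s, ∑ v ∈ s, a u * b v * K.len u v ^ 2

/-- `a` is a tangent vector of the simplex `s`. -/
def Tan (s : Finset V) (a : V → ℝ) : Prop := (∀ v, v ∉ s → a v = 0) ∧ ∑ v ∈ s, a v = 0

end EComplex

/-- The coordinates `f` are affine functions of the time on `[a, b]`. -/
def AffOn {V : Type} (f : ℝ → V → ℝ) (a b : ℝ) : Prop :=
  ∃ p q : V → ℝ, ∀ s ∈ Icc a b, ∀ v, f s v = p v + s * q v

/-- The coordinates `f` are not affine functions near the time `s`. -/
def IsBreak {V : Type} (f : ℝ → V → ℝ) (s : ℝ) : Prop :=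
  ¬ ∃ ε > 0, AffOn f (s - ε) (s + ε)

end Pool.Agent.TD
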