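import Pool.Agent.Lib.MP_98022b_gln.ConeTop
import Pool.Agent.Lib.MP_98022b_td.ConeDefs1

/-!
# The cone space with constant weights is strongly locally contractible

The gauges `F m` need not be convex; it suffices that they are Lipschitz and convex up to a shift of
`m`, since the sum of the tail of the series is not changed by the shift.
-/

set_option autoImplicit false

open Set Filter Topology

namespace Pool.Agent.TD

open Pool.Agent.GLN Pool.Agent.FA Pool.Agent.GLN.Cn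

variable {B : Type} [MetricSpace B] {o : B} {F : ℕ → B → ℝ} {q Θ : ℝ}

/-- A star-shaped neighbourhood of `z₀` is contractible. -/
theorem contractible_star {geo : B → B → ℝ → B} (hb : Bicomb B geo)
    (z₀ : Cn o F q Θ) (h₀ : 0 < z₀.c) {ε : ℝ} (hε : 0 < ε) (Y : Set B) (hY₀ : z₀.x ∈ Y)
    (hY : ∀ y ∈ Y, ∀ t : ℝ, 0 ≤ t → t ≤ 1 → geo z₀.x y t ∈ Y)
    (hYv : ∀ y ∈ Y, ∀ m, ∑ j ∈ Finset.range m, q ^ j * F j y ≤ (z₀.c⁻¹ + ε) * Θ) :
    ContractibleSpace {z : Cn o F q Θ | 0 < z.c ∧ |z.c⁻¹ - z₀.c⁻¹| ≤ ε ∧ z.x ∈ Y} := by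
  have hpos : 0 < z₀.c⁻¹ + ε := add_pos (inv_pos.2 h₀) hε
  have hone : 1 ≤ z₀.c⁻¹ + ε := by
    have := (one_le_inv₀ h₀).2 z₀.c_le
    linarith
  -- the radial coordinate during the homotopy
  have ha : ∀ (z : Cn o F q Θ) (s : ℝ), 0 < z.c → |z.c⁻¹ - z₀.c⁻¹| ≤ ε → 0 ≤ s → s ≤ 1 →
      z.c⁻¹ ≤ (1 - s) * z.c⁻¹ + s * (z₀.c⁻¹ + ε) ∧
      (1 - s) * z.c⁻¹ + s * (z₀.c⁻¹ + ε) ≤ z₀.c⁻¹ + ε ∧
      0 < (1 - s) * z.c⁻¹ + s * (z₀.c⁻¹ + ε) ∧ 1 ≤ (1 - s) * z.c⁻¹ + s * (z₀.c⁻¹ + ε) := by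
    intro z s hz hz1 h0 h1
    have h2 : z.c⁻¹ ≤ z₀.c⁻¹ + ε := by
      have := (abs_le.1 hz1).2
      linarith
    have h3 : 1 ≤ z.c⁻¹ := (one_le_inv₀ hz).2 z.c_le
    have h4 := mul_nonneg h0 (sub_nonneg.2 h2)
    have h5 := mul_nonneg (sub_nonneg.2 h1) (sub_nonneg.2 h2)
    have h6 : z.c⁻¹ ≤ (1 - s) * z.c⁻¹ + s * (z₀.c⁻¹ + ε) := by linarith
    exact ⟨h6, by linarith, by linarith, by linarith⟩
  have hval : ∀ (z : Cn o F q Θ) (s t : ℝ), 0 < z.c → |z.c⁻¹ - z₀.c⁻¹| ≤ ε → z.x ∈ Y → 0 ≤ s →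
      s ≤ 1 → 0 ≤ t → t ≤ 1 → (s = 1 ∨ t = 1) →
      Valid o F q Θ ((1 - s) * z.c⁻¹ + s * (z₀.c⁻¹ + ε))⁻¹ (geo z₀.x z.x t) := by
    intro z s t hz hz1 hz2 hs0 hs1 ht0 ht1 hst
    obtain ⟨h1, h2, h3, h4⟩ := ha z s hz hz1 hs0 hs1
    refine Or.inr ⟨inv_pos.2 h3, inv_le_one_of_one_le₀ h4, fun m => ?_⟩
    rw [inv_mul_le_iff₀ h3]
    rcases hst with rfl | rfl
    · have h5 : (1 - (1 : ℝ)) * z.c⁻¹ + 1 * (z₀.c⁻¹ + ε) = z₀.c⁻¹ + ε := by ring
      rw [h5]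
      exact hYv _ (hY _ hz2 t ht0 ht1) m
    · rw [hb.one]
      have h5 : ∑ j ∈ Finset.range m, q ^ j * F j z.x ≤ z.c⁻¹ * Θ := by
        rw [← div_eq_inv_mul, le_div_iff₀' hz]
        exact z.sum_le hz m
      refine h5.trans (mul_le_mul_of_nonneg_right h1 ?_)
      have h6 := z.sum_le hz 0
      rwa [Finset.range_zero, Finset.sum_empty, mul_zero] at h6
  have hvz : Valid o F q Θ (z₀.c⁻¹ + ε)⁻¹ z₀.x := by
    have h1 := hval z₀ 1 1 h₀ (by rw [sub_self, abs_zero]; exact hε.le) hY₀ zero_le_one le_rfl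
      zero_le_one le_rfl (Or.inl rfl)
    rw [hb.one] at h1
    have h5 : (1 - (1 : ℝ)) * z₀.c⁻¹ + 1 * (z₀.c⁻¹ + ε) = z₀.c⁻¹ + ε := by ring
    rwa [h5] at h1
  have hs : ∀ u : ℝ, 0 ≤ u → u ≤ 1 → 0 ≤ min 1 (2 * u) ∧ min 1 (2 * u) ≤ 1 ∧
      0 ≤ 1 - max 0 (2 * u - 1) ∧ 1 - max 0 (2 * u - 1) ≤ 1 ∧
      (min 1 (2 * u) = 1 ∨ 1 - max 0 (2 * u - 1) = 1) := by
    intro u h0 h1
    refine ⟨le_min zero_le_one (by linarith), min_le_left _ _, ?_, ?_, ?_⟩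
    · have : max 0 (2 * u - 1) ≤ 1 := max_le zero_le_one (by linarith)
      linarith
    · have : 0 ≤ max 0 (2 * u - 1) := le_max_left _ _
      linarith
    · rcases le_total 1 (2 * u) with h | h
      · exact Or.inl (min_eq_left h)
      · right
        rw [max_eq_left (by linarith), sub_zero]
  refine contractibleSpace_of _ (pt (z₀.c⁻¹ + ε)⁻¹ z₀.x) ?_
    (fun p => pt ((1 - min 1 (2 * p.2.1)) * p.1.1.c⁻¹ + min 1 (2 * p.2.1) * (z₀.c⁻¹ + ε))⁻¹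
      (geo z₀.x p.1.1.x (1 - max 0 (2 * p.2.1 - 1)))) ?_ (fun p => ?_) (fun p => ?_) (fun p => ?_)
  · show 0 < (pt _ _ : Cn o F q Θ).c ∧ |(pt _ _ : Cn o F q Θ).c⁻¹ - z₀.c⁻¹| ≤ ε ∧
      (pt _ _ : Cn o F q Θ).x ∈ Y
    rw [c_pt hvz, x_pt hvz, inv_inv, add_sub_cancel_left, abs_of_pos hε]
    exact ⟨inv_pos.2 hpos, le_rfl, hY₀⟩
  · rw [continuous_iff_continuousAt]
    rintro ⟨⟨z, hz, hz1, hz2⟩, u⟩
    obtain ⟨h1, h2, h3, h4, h5⟩ := hs u.1 u.2.1 u.2.2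
    have hv := hval z _ _ hz hz1 hz2 h1 h2 h3 h4 h5
    refine (tendsto_iff ?_).2 ⟨?_, ?_⟩
    · rw [c_pt hv]
      exact inv_pos.2 (ha z _ hz hz1 h1 h2).2.2.1
    · rw [c_pt hv]
      have h6 : Continuous fun p : {z : Cn o F q Θ | 0 < z.c ∧ |z.c⁻¹ - z₀.c⁻¹| ≤ ε ∧
          z.x ∈ Y} × unitInterval => min 1 (2 * p.2.1) :=
        continuous_const.min (continuous_const.mul (continuous_subtype_val.comp continuous_snd))
      have h7 : ContinuousAt (fun p : {z : Cn o F q Θ | 0 < z.c ∧ |z.c⁻¹ - z₀.c⁻¹| ≤ ε ∧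
          z.x ∈ Y} × unitInterval => p.1.1.c) (⟨z, hz, hz1, hz2⟩, u) :=
        (continuous_c.comp (continuous_subtype_val.comp continuous_fst)).continuousAt
      have h8 : ContinuousAt (fun p : {z : Cn o F q Θ | 0 < z.c ∧ |z.c⁻¹ - z₀.c⁻¹| ≤ ε ∧
          z.x ∈ Y} × unitInterval =>
          ((1 - min 1 (2 * p.2.1)) * p.1.1.c⁻¹ + min 1 (2 * p.2.1) * (z₀.c⁻¹ + ε))⁻¹)
          (⟨z, hz, hz1, hz2⟩, u) := by
        refine (((continuousAt_const.sub h6.continuousAt).mul (h7.inv₀ hz.ne')).add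
          (h6.continuousAt.mul continuousAt_const)).inv₀ ?_
        exact (ha z _ hz hz1 h1 h2).2.2.1.ne'
      refine h8.tendsto.congr fun p => ?_
      obtain ⟨k1, k2, k3, k4, k5⟩ := hs p.2.1 p.2.2.1 p.2.2.2
      rw [c_pt (hval p.1.1 _ _ p.1.2.1 p.1.2.2.1 p.1.2.2.2 k1 k2 k3 k4 k5)]
    · rw [x_pt hv]
      have h6 : Tendsto (fun p : {z : Cn o F q Θ | 0 < z.c ∧ |z.c⁻¹ - z₀.c⁻¹| ≤ ε ∧
          z.x ∈ Y} × unitInterval => geo z₀.x p.1.1.x (1 - max 0 (2 * p.2.1 - 1)))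
          (𝓝 (⟨z, hz, hz1, hz2⟩, u)) (𝓝 (geo z₀.x z.x (1 - max 0 (2 * u.1 - 1)))) := by
        refine hb.tendsto tendsto_const_nhds ?_ ?_ (Eventually.of_forall fun p => ?_)
          (Eventually.of_forall fun p => ?_) h3 h4
        · exact (tendsto_x hz).comp
            ((continuous_subtype_val.comp continuous_fst).tendsto (⟨z, hz, hz1, hz2⟩, u))
        · exact (continuous_const.sub (continuous_const.max ((continuous_const.mul
            (continuous_subtype_val.comp continuous_snd)).sub continuous_const))).tendsto _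
        · exact (hs p.2.1 p.2.2.1 p.2.2.2).2.2.1
        · exact (hs p.2.1 p.2.2.1 p.2.2.2).2.2.2.1
      refine h6.congr fun p => ?_
      obtain ⟨k1, k2, k3, k4, k5⟩ := hs p.2.1 p.2.2.1 p.2.2.2
      rw [x_pt (hval p.1.1 _ _ p.1.2.1 p.1.2.2.1 p.1.2.2.2 k1 k2 k3 k4 k5)]
  · obtain ⟨⟨z, hz, hz1, hz2⟩, u⟩ := p
    obtain ⟨h1, h2, h3, h4, h5⟩ := hs u.1 u.2.1 u.2.2
    have hv := hval z _ _ hz hz1 hz2 h1 h2 h3 h4 h5
    show 0 < (pt _ _ : Cn o F q Θ).c ∧ |(pt _ _ : Cn o F q Θ).c⁻¹ - z₀.c⁻¹| ≤ ε ∧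
      (pt _ _ : Cn o F q Θ).x ∈ Y
    rw [c_pt hv, x_pt hv, inv_inv]
    obtain ⟨k1, k2, k3, _⟩ := ha z _ hz hz1 h1 h2
    refine ⟨inv_pos.2 k3, abs_le.2 ⟨?_, by linarith⟩, hY _ hz2 _ h3 h4⟩
    have := (abs_le.1 hz1).1
    linarith
  · obtain ⟨z, hz, hz1, hz2⟩ := p
    show pt ((1 - min 1 (2 * (0 : ℝ))) * z.c⁻¹ + min 1 (2 * (0 : ℝ)) * (z₀.c⁻¹ + ε))⁻¹
      (geo z₀.x z.x (1 - max 0 (2 * (0 : ℝ) - 1))) = z
    have h1 : min (1 : ℝ) (2 * 0) = 0 := by norm_num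
    have h2 : max (0 : ℝ) (2 * 0 - 1) = 0 := by norm_num
    rw [h1, h2, sub_zero, one_mul, zero_mul, add_zero, inv_inv, hb.one, pt_self]
  · obtain ⟨z, hz, hz1, hz2⟩ := p
    show pt ((1 - min 1 (2 * (1 : ℝ))) * z.c⁻¹ + min 1 (2 * (1 : ℝ)) * (z₀.c⁻¹ + ε))⁻¹
      (geo z₀.x z.x (1 - max 0 (2 * (1 : ℝ) - 1))) = pt (z₀.c⁻¹ + ε)⁻¹ z₀.x
    have h1 : min (1 : ℝ) (2 * 1) = 1 := by norm_num
    have h2 : (1 : ℝ) - max (0 : ℝ) (2 * 1 - 1) = 0 := by norm_num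
    rw [h1, h2, sub_self, zero_mul, zero_add, one_mul, hb.zero]

/-- The sums of the values of the gauges along a short geodesic. -/
theorem sum_geo_le {geo : B → B → ℝ → B} (hb : Bicomb B geo) {L : ℝ} (hL : 0 ≤ L)
    (nonneg : ∀ m x, 0 ≤ F m x) (lip : ∀ m x y, |F m x - F m y| ≤ L * dist x y)
    (convex : ∀ m x y t, 0 ≤ t → t ≤ 1 → F (m + 1) (geo x y t) ≤ (1 - t) * F m x + t * F m y)
    (x : B) {a : ℝ} (ha : ∀ m, ∑ j ∈ Finset.range m, F j x ≤ a) {τ : ℝ} (hτ : 0 < τ) :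
    ∃ ρ : ℝ, 0 < ρ ∧ ∀ y, dist x y ≤ ρ → ∀ b : ℝ, a ≤ b → (∀ m, ∑ j ∈ Finset.range m, F j y ≤ b) →
      ∀ t : ℝ, 0 ≤ t → t ≤ 1 → ∀ m, ∑ j ∈ Finset.range m, F j (geo x y t) ≤ b + τ := by
  -- the tail of the series at `x`
  have hsummable : Summable fun j => F j x := by
    refine summable_of_sum_range_le (fun j => nonneg j x) ha
  obtain ⟨N, hN⟩ : ∃ N : ℕ, ∀ m, ∑ j ∈ Finset.range m, F (N + j) x ≤ τ / 4 := by
    have h1 := hsummable.tendsto_sum_tsum_nat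
    obtain ⟨N, hN⟩ := (Metric.tendsto_atTop.1 h1 (τ / 8) (by linarith))
    refine ⟨N, fun m => ?_⟩
    have h2 := hN N le_rfl
    have h3 := hN (N + m) (by omega)
    rw [Finset.sum_range_add, Real.dist_eq] at h3
    rw [Real.dist_eq] at h2
    have h4 := (abs_lt.1 h2).1
    have h5 := (abs_lt.1 h3).2
    linarith
  have hNL : 0 < 4 * ((N : ℝ) + 2) * (L + 1) := by positivity
  refine ⟨τ / (4 * ((N : ℝ) + 2) * (L + 1)), div_pos hτ hNL, fun y hy b hab hb' t ht0 ht1 m => ?_⟩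
  have hρ : ((N : ℝ) + 1) * (L * dist x y) ≤ τ / 4 := by
    rw [le_div_iff₀ hNL] at hy
    have h1 : 0 ≤ dist x y := dist_nonneg
    have h2 : 0 ≤ (N : ℝ) := Nat.cast_nonneg N
    nlinarith [mul_nonneg h1 hL, mul_nonneg (mul_nonneg h1 hL) h2, mul_nonneg h1 h2]
  -- it suffices to consider large `m`
  have hmono : ∑ j ∈ Finset.range m, F j (geo x y t) ≤
      ∑ j ∈ Finset.range (N + 1 + m), F j (geo x y t) :=
    Finset.sum_le_sum_of_subset_of_nonneg (Finset.range_mono (by omega)) fun j _ _ => nonneg _ _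
  refine hmono.trans ?_
  rw [Finset.sum_range_add]
  -- the head
  have h1 : ∑ j ∈ Finset.range (N + 1), F j (geo x y t) ≤
      ∑ j ∈ Finset.range (N + 1), F j x + τ / 4 := by
    have h2 : ∀ j ∈ Finset.range (N + 1), F j (geo x y t) ≤ F j x + L * dist x y := by
      intro j _
      have h3 := lip j (geo x y t) x
      have h4 := hb.dist_left x y ht0 ht1
      have h5 : dist (geo x y t) x ≤ dist x y := by
        rw [dist_comm]
        exact h4.trans (mul_le_of_le_one_left dist_nonneg ht1)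
      have h6 := (abs_le.1 h3).2
      have h7 := mul_le_mul_of_nonneg_left h5 hL
      linarith
    refine (Finset.sum_le_sum h2).trans ?_
    rw [Finset.sum_add_distrib, Finset.sum_const, Finset.card_range, nsmul_eq_mul]
    push_cast
    linarith
  -- the tail
  have h2 : ∑ j ∈ Finset.range m, F (N + 1 + j) (geo x y t) ≤
      (1 - t) * ∑ j ∈ Finset.range m, F (N + j) x + t * ∑ j ∈ Finset.range m, F (N + j) y := by
    rw [Finset.mul_sum, Finset.mul_sum, ← Finset.sum_add_distrib]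
    refine Finset.sum_le_sum fun j _ => ?_
    have h3 := convex (N + j) x y t ht0 ht1
    have h4 : N + 1 + j = N + j + 1 := by ring
    rw [h4]
    exact h3
  have h3 : ∑ j ∈ Finset.range m, F (N + j) y ≤ b - ∑ j ∈ Finset.range N, F j x + τ / 4 := by
    have h4 := hb' (N + m)
    rw [Finset.sum_range_add] at h4
    have h5 : ∑ j ∈ Finset.range N, F j x - τ / 4 ≤ ∑ j ∈ Finset.range N, F j y := by
      have h6 : ∀ j ∈ Finset.range N, F j x ≤ F j y + L * dist x y := by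
        intro j _
        have := (abs_le.1 (lip j x y)).2
        linarith
      have h7 := Finset.sum_le_sum h6
      rw [Finset.sum_add_distrib, Finset.sum_const, Finset.card_range, nsmul_eq_mul] at h7
      have h8 : (N : ℝ) * (L * dist x y) ≤ ((N : ℝ) + 1) * (L * dist x y) :=
        mul_le_mul_of_nonneg_right (by linarith) (mul_nonneg hL dist_nonneg)
      linarith
    linarith
  have h4 := mul_le_mul_of_nonneg_left (hN m) (sub_nonneg.2 ht1)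
  have h5 := mul_le_mul_of_nonneg_left h3 ht0
  have h6 : F N x ≤ τ / 4 := by
    have := hN 1
    rwa [Finset.sum_range_one, add_zero] at this
  have h7 : ∑ j ∈ Finset.range N, F j x ≤ a := ha N
  have h10 : ∑ j ∈ Finset.range (N + 1), F j x = ∑ j ∈ Finset.range N, F j x + F N x :=
    Finset.sum_range_succ _ _
  have h8 : 0 ≤ (1 - t) * (b - ∑ j ∈ Finset.range N, F j x) :=
    mul_nonneg (sub_nonneg.2 ht1) (by linarith)
  have h9 : (1 - t) * (τ / 4) + t * (τ / 4) = τ / 4 := by ring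
  have h11 : t * (b - ∑ j ∈ Finset.range N, F j x + τ / 4) =
      t * (b - ∑ j ∈ Finset.range N, F j x) + t * (τ / 4) := by ring
  have h12 : (1 - t) * (b - ∑ j ∈ Finset.range N, F j x) =
      (b - ∑ j ∈ Finset.range N, F j x) - t * (b - ∑ j ∈ Finset.range N, F j x) := by ring
  rw [h11] at h5
  rw [h12] at h8
  linarith

theorem stronglyLocallyContractible1 (hsm : Small o F 1 Θ) {geo : B → B → ℝ → B}
    (hb : Bicomb B geo) {L : ℝ} (hL : 0 ≤ L) (hΘ : 0 < Θ)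
    (nonneg : ∀ m x, 0 ≤ F m x) (lip : ∀ m x y, |F m x - F m y| ≤ L * dist x y)
    (convex : ∀ m x y t, 0 ≤ t → t ≤ 1 → F (m + 1) (geo x y t) ≤ (1 - t) * F m x + t * F m y) :
    StronglyLocallyContractibleSpace (Cn o F 1 Θ) := by
  refine ⟨fun z => hasBasis_self.2 fun t ht => ?_⟩
  rcases z.c_nonneg.eq_or_lt with h | h
  · obtain ⟨ε, hε, hεt⟩ := mem_nhds_zero hsm h.symm ht
    refine ⟨{z' | z'.c < ε}, ?_, contractible_lt hsm hε, hεt⟩
    exact (isOpen_lt continuous_c continuous_const).mem_nhds (show z.c < ε from h ▸ hε)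
  · obtain ⟨ε, hε, hεt⟩ := mem_nhds_pos h ht
    -- a bound for the inverse
    have hinv : ∃ ε' : ℝ, 0 < ε' ∧ ∀ c' : ℝ, 0 < c' → |c'⁻¹ - z.c⁻¹| ≤ ε' → |c' - z.c| < ε := by
      have h1 : Tendsto (fun a : ℝ => a⁻¹) (𝓝 z.c⁻¹) (𝓝 z.c) := by
        have := tendsto_inv₀ (inv_ne_zero h.ne')
        rwa [inv_inv] at this
      obtain ⟨ε', hε', h2⟩ := Metric.tendsto_nhds_nhds.1 h1 ε hε
      refine ⟨ε' / 2, half_pos hε', fun c' hc' h3 => ?_⟩
      have h4 := h2 (x := c'⁻¹) (by rw [Real.dist_eq]; linarith)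
      rwa [inv_inv, Real.dist_eq] at h4
    obtain ⟨ε', hε', hinv⟩ := hinv
    have hsum : ∀ (y : B) (m : ℕ), ∑ j ∈ Finset.range m, (1 : ℝ) ^ j * F j y =
        ∑ j ∈ Finset.range m, F j y := fun y m => by simp
    have hzs : ∀ m, ∑ j ∈ Finset.range m, F j z.x ≤ z.c⁻¹ * Θ := fun m => by
      rw [← hsum, ← div_eq_inv_mul, le_div_iff₀' h]
      exact z.sum_le h m
    obtain ⟨ρ, hρ, hρ'⟩ := sum_geo_le hb hL nonneg lip convex z.x hzs
      (τ := ε' / 2 * Θ) (by positivity)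
    -- the star
    set Y : Set B := {w | ∃ y, dist z.x y ≤ min ρ (ε / 2) ∧
      (∀ m, ∑ j ∈ Finset.range m, F j y ≤ (z.c⁻¹ + ε' / 2) * Θ) ∧ ∃ s : ℝ, 0 ≤ s ∧ s ≤ 1 ∧
        w = geo z.x y s} with hYdef
    have hab : z.c⁻¹ * Θ ≤ (z.c⁻¹ + ε' / 2) * Θ :=
      mul_le_mul_of_nonneg_right (by linarith) hΘ.le
    have hmin : 0 < min ρ (ε / 2) := lt_min hρ (half_pos hε)
    refine ⟨_, ?_, contractible_star hb z h hε' Y ?_ ?_ ?_, ?_⟩
    · have h1 := continuous_c.tendsto z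
      have h2 := tendsto_x h
      have h3 := (h1.inv₀ h.ne')
      filter_upwards [h1.eventually_const_lt h,
        h3.eventually (Metric.ball_mem_nhds _ (half_pos hε')),
        h2.eventually (Metric.ball_mem_nhds _ hmin)] with z' h4 h5 h6
      have h5' : |z'.c⁻¹ - z.c⁻¹| < ε' / 2 := by
        rw [← Real.dist_eq]
        exact h5
      refine ⟨h4, by linarith, z'.x, ?_, fun m => ?_, 1, zero_le_one, le_rfl, (hb.one _ _).symm⟩
      · rw [dist_comm]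
        exact (Metric.mem_ball.1 h6).le
      · have h7 : ∑ j ∈ Finset.range m, F j z'.x ≤ z'.c⁻¹ * Θ := by
          rw [← hsum, ← div_eq_inv_mul, le_div_iff₀' h4]
          exact z'.sum_le h4 m
        refine h7.trans (mul_le_mul_of_nonneg_right ?_ hΘ.le)
        have := (abs_lt.1 h5').2
        linarith
    · refine ⟨z.x, by rw [dist_self]; exact hmin.le, fun m => (hzs m).trans hab, 1, zero_le_one,
        le_rfl, (hb.one _ _).symm⟩
    · rintro w ⟨y, hy1, hy2, s, hs0, hs1, rfl⟩ t ht0 ht1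
      refine ⟨y, hy1, hy2, t * s, mul_nonneg ht0 hs0, mul_le_one₀ ht1 hs0 hs1, ?_⟩
      have h1 := hb.consistent z.x y 0 s t le_rfl zero_le_one hs0 hs1 ht0 ht1
      rw [hb.zero, mul_zero, zero_add] at h1
      exact h1
    · rintro w ⟨y, hy1, hy2, s, hs0, hs1, rfl⟩ m
      rw [hsum]
      refine (hρ' y (hy1.trans (min_le_left _ _)) _ hab hy2 s hs0 hs1 m).trans (le_of_eq ?_)
      ring
    · rintro z' ⟨h1, h2, y, hy1, -, s, hs0, hs1, h3⟩
      refine hεt z' (hinv _ h1 h2) ?_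
      rw [h3, dist_comm]
      refine (hb.dist_left _ _ hs0 hs1).trans_lt ?_
      refine (mul_le_of_le_one_left dist_nonneg hs1).trans_lt ?_
      exact (hy1.trans (min_le_right _ _)).trans_lt (half_lt_self hε)

end Pool.Agent.TD
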