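import Pool.Agent.Lib.MP_98022b_td.AsmQ
import Pool.Agent.Lib.MP_98022b_td.ConeMain1
import Pool.Agent.Lib.MP_98022b_gln.HullT

/-!
# Groups acting on spaces with a discretization: membership in the class
-/

set_option autoImplicit false

open Set Filter Topology

namespace Pool.Agent.TD

open Pool.Agent.GLN Pool.Agent.FA Pool.Agent.FJ Pool.Agent.CCM

/-- The restriction of a discretization to a subgroup. -/
def DiscQ.sub {Θ Γ B V : Type} [Group Γ] [MetricSpace B] [MulAction Γ B] [MulAction Γ V]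
    {dV : V → V → ℕ} {geo : B → B → ℝ → B} (Δ : DiscQ Θ Γ B V dV geo) (G : Subgroup Γ) :
    DiscQ Θ G B V dV geo where
  st := Δ.st
  far := Δ.far
  st_smul g := Δ.st_smul (g : Γ)
  far_smul g := Δ.far_smul (g : Γ)
  far_mono := Δ.far_mono
  far_dist := Δ.far_dist
  st_eq := Δ.st_eq
  short := Δ.short
  near := Δ.near
  few := Δ.few
  pairs := Δ.pairs

section

variable {P : ∀ (G : Type) [Group G], Prop} (hP : IsFJClassT P) {Γ B V V' Θ : Type} [Group Γ]
  [MetricSpace B] [CompleteSpace B] [MulAction Γ B] [MulAction Γ V] [MulAction Γ V']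
  {geo : B → B → ℝ → B} (hb : Bicomb B geo)
  (isom : ∀ (g : Γ) (x y : B), dist (g • x) (g • y) = dist x y)
  (geo_smul : ∀ (g : Γ) (x y : B) t, 0 ≤ t → t ≤ 1 → g • geo x y t = geo (g • x) (g • y) t)
  {n : ℕ} (hcov : SmallCovers B n)

include hb isom geo_smul hcov in
/-- The data for a subgroup. -/
theorem exists_cone (G : Subgroup Γ) (o : B) (S : Finset G) (hS : (1 : G) ∈ S) :
    ∃ (F : ℕ → B → ℝ) (L R η₀ : ℝ), ConeData1 G S B geo o F L R η₀ ∧ GaugeNet F ∧
      ConeOut1 geo o F S (2 * n + 2) := by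
  have isom' : ∀ (g : G) (x y : B), dist (g • x) (g • y) = dist x y := fun g => isom (g : Γ)
  obtain ⟨η, h0, h1, h2⟩ := coneData1 (o := o) hb hS isom' fun (g : G) x y t h0 h1 =>
    geo_smul (g : Γ) x y t h0 h1
  exact ⟨_, _, _, _, h2, gaugeNet hb isom' hS h1, coneOut1 h2 hS hcov⟩

include hP hb isom geo_smul hcov in
/-- The theorem with a map of the states. -/
theorem mem_of_discQ' {dV d' : V → V → ℕ} {π : V → V'}
    (hsm : ∀ (g : Γ) u v, d' (g • u) (g • v) = d' u v) (hmap : ∀ (g : Γ) u, π (g • u) = g • π u)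
    (Δ : DiscQ Θ Γ B V dV geo)
    (hchg : ∃ Λ : ℕ, ∀ (r : Θ) (x y : B) (n : ℕ) (s : ℕ → ℝ), (∀ i < n, s i ≤ s (i + 1)) →
      0 ≤ s 0 → s n ≤ dist x y →
      (∀ i < n, π (Δ.st r (endPt geo x y (s i))) ≠ π (Δ.st r (endPt geo x y (s (i + 1))))) →
      n ≤ Λ * (d' (Δ.st r (endPt geo x y (s 0))) (Δ.st r (endPt geo x y (s n))) + 1))
    (o : B) (k₀ l₀ : ℕ) (hv : ∀ v : V', P (MulAction.stabilizer Γ v))
    (hchain : ∀ T : ℕ → Set V, (∀ i, (T i).Finite) → (∀ i, T i ⊆ T (i + 1)) →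
      (∃ v ∈ T 0, ∃ w ∈ T 0, k₀ ≤ d' v w) →
      ∃ i < l₀, fixingSubgroup Γ (T i) = fixingSubgroup Γ (T (i + 1)))
    (hcyc : ∀ T : Set V, T.Finite → (∃ v ∈ T, ∃ w ∈ T, k₀ ≤ d' v w) → ∀ t : Γ,
      (∀ j, j ∈ fixingSubgroup Γ T ↔ t * j * t⁻¹ ∈ fixingSubgroup Γ T) →
      P (fixingSubgroup Γ T ⊔ Subgroup.zpowers t : Subgroup Γ)) : P Γ := by
  classical
  refine hP.toIsFJClass.locally fun S₀ => ?_
  obtain ⟨G, hG⟩ : ∃ G : Subgroup Γ, G = Subgroup.closure (S₀ : Set Γ) := ⟨_, rfl⟩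
  refine ⟨G, fun x hx => hG ▸ Subgroup.subset_closure hx, ?_⟩
  have hfg : Group.FG G := by
    rw [hG]
    infer_instance
  have hTR := transferReducible_of_discQ' (G := G) hfg hsm hmap (k₀ := k₀) (l₀ := l₀)
    (fun T hmono hfin hfar => hchain T hfin (fun i => hmono (Nat.le_succ i)) hfar)
    (fun K => P K)
    (fun T hT hfar t ht K hK => by
      refine hP.of_injective
        ((G.subtype.comp K.subtype).codRestrict (fixingSubgroup Γ T ⊔ Subgroup.zpowers t)
          fun k => hK k.1 k.2)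
        (fun a b hab => ?_) (hcyc T hT hfar t fun j => ⟨fun hj => (ht j hj).1, fun hj => ?_⟩)
      · have h1 := congrArg
          (fun x : (fixingSubgroup Γ T ⊔ Subgroup.zpowers t : Subgroup Γ) => (x : Γ)) hab
        exact Subtype.ext (Subtype.ext h1)
      · have h1 := (ht _ hj).2
        convert h1 using 1
        group)
    (fun v K hK => hP.of_injective
      ((G.subtype.comp K.subtype).codRestrict (MulAction.stabilizer Γ v) fun k => hK k.1 k.2)
      (fun a b hab => by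
        have h1 := congrArg (fun x : MulAction.stabilizer Γ v => (x : Γ)) hab
        exact Subtype.ext (Subtype.ext h1)) (hv v))
    (Δ.sub G) hchg o (2 * n + 2) fun S hS => exists_cone hb isom geo_smul hcov G o S hS
  exact hP.transfer _ hTR fun _ h => h

include hP hb isom geo_smul hcov in
/-- A group `Γ` acting by isometries on a complete space with a consistent conical bicombing and a
discretization is in the class if the stabilizers of the states are in the class, the chains of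
pointwise stabilizers of far finite sets of states have bounded length, and for such a stabilizer
`J` and an element `t` which normalizes `J` the group generated by `J` and `t` is in the class. -/
theorem mem_of_discQ {dV : V → V → ℕ} (hsm : ∀ (g : Γ) u v, dV (g • u) (g • v) = dV u v)
    (Δ : DiscQ Θ Γ B V dV geo) (o : B) (k₀ l₀ : ℕ) (hv : ∀ v : V, P (MulAction.stabilizer Γ v))
    (hchain : ∀ T : ℕ → Set V, (∀ i, (T i).Finite) → (∀ i, T i ⊆ T (i + 1)) →
      (∃ v ∈ T 0, ∃ w ∈ T 0, k₀ ≤ dV v w) →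
      ∃ i < l₀, fixingSubgroup Γ (T i) = fixingSubgroup Γ (T (i + 1)))
    (hcyc : ∀ T : Set V, T.Finite → (∃ v ∈ T, ∃ w ∈ T, k₀ ≤ dV v w) → ∀ t : Γ,
      (∀ j, j ∈ fixingSubgroup Γ T ↔ t * j * t⁻¹ ∈ fixingSubgroup Γ T) →
      P (fixingSubgroup Γ T ⊔ Subgroup.zpowers t : Subgroup Γ)) : P Γ :=
  mem_of_discQ' (π := id) hP hb isom geo_smul hcov hsm (fun _ _ => rfl) Δ
    (exists_chg hb Δ) o k₀ l₀ hv hchain hcyc

end

end Pool.Agent.TD
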