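import Pool.Agent.Lib.MP_98022b_td.CatEx
import Pool.Agent.Lib.MP_98022b_cc.MidConvex
import Pool.Agent.Lib.MP_98022b_gln.GeoIface

/-!
# The geodesics of a CAT(0) space form a conical consistent bicombing
-/

set_option autoImplicit false

open Set Filter Topology

namespace Pool.Agent.TD

open Pool.Agent.GLN

variable {X : Type} [MetricSpace X]

private theorem geo_zero_CC [CompleteSpace X] (hX : IsCAT0 X) (x y : X) : geo x y 0 = x := by
  refine (geo_unique hX le_rfl zero_le_one ?_ ?_).symm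
  · rw [dist_self, zero_mul]
  · rw [sub_zero, one_mul]

private theorem geo_one_CC [CompleteSpace X] (hX : IsCAT0 X) (x y : X) : geo x y 1 = y := by
  refine (geo_unique hX zero_le_one le_rfl ?_ ?_).symm
  · rw [one_mul]
  · rw [dist_self, sub_self, zero_mul]

private theorem dist_geo_geo_le_CC [CompleteSpace X] (hX : IsCAT0 X) (x y : X) {s t : ℝ}
    (hs : 0 ≤ s) (hst : s ≤ t) (ht : t ≤ 1) :
    dist (geo x y s) (geo x y t) = (t - s) * dist x y := by
  rcases eq_or_lt_of_le (hs.trans hst) with h0 | h0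
  · have : s = t := le_antisymm hst (by linarith)
    subst this
    rw [dist_self, sub_self, zero_mul]
  have h1 : s / t ≤ 1 := (div_le_one h0).2 hst
  have h2 : 0 ≤ s / t := div_nonneg hs h0.le
  obtain ⟨a1, a2⟩ := geo_spec hX x y h0.le ht
  obtain ⟨b1, b2⟩ := geo_spec hX x (geo x y t) h2 h1
  have hz : geo x (geo x y t) (s / t) = geo x y s := by
    refine geo_unique hX hs (hst.trans ht) ?_ ?_
    · rw [b1, a1, ← mul_assoc, div_mul_cancel₀ _ h0.ne']
    · refine (dist_triangle _ (geo x y t) _).trans ?_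
      rw [b2, a1, a2]
      have : (1 - s / t) * (t * dist x y) = (t - s) * dist x y := by
        field_simp
      rw [this]
      linarith
  rw [← hz, b2, a1]
  field_simp

theorem dist_geo_geo [CompleteSpace X] (hX : IsCAT0 X) (x y : X) {s t : ℝ} (hs : 0 ≤ s)
    (hs1 : s ≤ 1) (ht : 0 ≤ t) (ht1 : t ≤ 1) :
    dist (geo x y s) (geo x y t) = |s - t| * dist x y := by
  rcases le_total s t with h | h
  · rw [dist_geo_geo_le_CC hX x y hs h ht1, abs_sub_comm, abs_of_nonneg (sub_nonneg.2 h)]
  · rw [dist_comm, dist_geo_geo_le_CC hX x y ht h hs1, abs_of_nonneg (sub_nonneg.2 h)]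

theorem mid_spec [CompleteSpace X] (hX : IsCAT0 X) (x y z : X) :
    dist z (geo x y (1 / 2)) ^ 2 ≤ dist z x ^ 2 / 2 + dist z y ^ 2 / 2 - dist x y ^ 2 / 4 := by
  obtain ⟨m, hm⟩ := hX x y
  have h : m = geo x y (1 / 2) := by
    refine geo_unique hX (by norm_num) (by norm_num) ?_ ?_
    · have h1 := hm x
      rw [dist_self] at h1
      have : dist x m ^ 2 ≤ (1 / 2 * dist x y) ^ 2 := by nlinarith
      exact (pow_le_pow_iff_left₀ dist_nonneg (by positivity) two_ne_zero).1 this
    · have h1 := hm y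
      rw [dist_self, dist_comm y x, dist_comm y m] at h1
      have : dist m y ^ 2 ≤ ((1 - 1 / 2) * dist x y) ^ 2 := by nlinarith
      exact (pow_le_pow_iff_left₀ dist_nonneg (by positivity) two_ne_zero).1 this
  rw [← h]
  exact hm z

private theorem mid_comm_CC [CompleteSpace X] (hX : IsCAT0 X) (x y : X) :
    geo x y (1 / 2) = geo y x (1 / 2) := by
  obtain ⟨a1, a2⟩ := geo_spec hX x y (t := 1 / 2) (by norm_num) (by norm_num)
  refine geo_unique hX (by norm_num) (by norm_num) ?_ ?_
  · rw [dist_comm, a2, dist_comm y x]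
    norm_num
  · rw [dist_comm, a1, dist_comm y x]
    norm_num

private theorem mid_lip_CC [CompleteSpace X] (hX : IsCAT0 X) (x y z : X) :
    dist (geo x y (1 / 2)) (geo x z (1 / 2)) ≤ dist y z / 2 := by
  have h1 := mid_spec hX x y (geo x z (1 / 2))
  have h2 := mid_spec hX x z y
  obtain ⟨a1, a2⟩ := geo_spec hX x z (t := 1 / 2) (by norm_num) (by norm_num)
  rw [dist_comm (geo x z (1 / 2)) x, a1] at h1
  rw [dist_comm y x] at h2
  rw [dist_comm (geo x z (1 / 2)) y] at h1
  have : dist (geo x y (1 / 2)) (geo x z (1 / 2)) ^ 2 ≤ (dist y z / 2) ^ 2 := by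
    rw [dist_comm (geo x y (1 / 2)) (geo x z (1 / 2))]
    nlinarith
  exact (pow_le_pow_iff_left₀ dist_nonneg (by positivity) two_ne_zero).1 this

private theorem mid_mid_CC [CompleteSpace X] (hX : IsCAT0 X) (a b a' b' : X) :
    2 * dist (geo a b (1 / 2)) (geo a' b' (1 / 2)) ≤ dist a a' + dist b b' := by
  have h1 := mid_lip_CC hX a b b'
  have h2 := mid_lip_CC hX b' a a'
  rw [← mid_comm_CC hX a b', ← mid_comm_CC hX a' b'] at h2
  have h3 := dist_triangle (geo a b (1 / 2)) (geo a b' (1 / 2)) (geo a' b' (1 / 2))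
  linarith

private theorem geo_eq_mid_CC [CompleteSpace X] (hX : IsCAT0 X) (x y : X) {t ε : ℝ} (hε : 0 < ε)
    (h0 : 0 ≤ t - ε) (h1 : t + ε ≤ 1) :
    geo x y t = geo (geo x y (t - ε)) (geo x y (t + ε)) (1 / 2) := by
  have e1 : dist (geo x y (t - ε)) (geo x y (t + ε)) = 2 * ε * dist x y := by
    rw [dist_geo_geo_le_CC hX x y h0 (by linarith) h1]
    ring
  refine geo_unique hX (by norm_num) (by norm_num) ?_ ?_
  · rw [e1, dist_geo_geo_le_CC hX x y h0 (by linarith) (by linarith)]
    linarith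
  · rw [e1, dist_geo_geo_le_CC hX x y (by linarith) (by linarith) h1]
    linarith

theorem bicomb_geo [CompleteSpace X] (hX : IsCAT0 X) : Bicomb X geo where
  zero := geo_zero_CC hX
  one := geo_one_CC hX
  speed x y s t hs hs1 ht ht1 := (dist_geo_geo hX x y hs hs1 ht ht1).le
  conical x y x' y' t h0 h1 := by
    have hcont : ∀ x y : X, ContinuousOn (fun t => geo x y t) (Icc 0 1) := by
      intro x y
      have : LipschitzOnWith (Real.toNNReal (dist x y)) (fun t => geo x y t) (Icc 0 1) := by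
        refine LipschitzOnWith.of_dist_le_mul fun s hs t ht => ?_
        rw [dist_geo_geo hX x y hs.1 hs.2 ht.1 ht.2, Real.coe_toNNReal _ dist_nonneg,
          Real.dist_eq, mul_comm]
      exact this.continuousOn
    have hc : ContinuousOn (fun t => dist (geo x y t) (geo x' y' t)) (Icc 0 1) :=
      fun t ht => Filter.Tendsto.dist (hcont x y t ht) (hcont x' y' t ht)
    have key := CCC.le_of_midConvex hc (fun t ht => ⟨min t (1 - t), lt_min ht.1 (by
      have := ht.2
      linarith), fun ε hε hεt => by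
        have e1 : ε < t := hεt.trans_le (min_le_left _ _)
        have e2 : ε < 1 - t := hεt.trans_le (min_le_right _ _)
        rw [geo_eq_mid_CC hX x y hε (by linarith) (by linarith),
          geo_eq_mid_CC hX x' y' hε (by linarith) (by linarith)]
        exact mid_mid_CC hX _ _ _ _⟩) t ⟨h0, h1⟩
    simp only [geo_zero_CC hX, geo_one_CC hX] at key
    exact key
  consistent x y a b t ha ha1 hb hb1 ht ht1 := by
    have hc0 : 0 ≤ (1 - t) * a + t * b := by
      have : 0 ≤ (1 - t) * a := mul_nonneg (by linarith) ha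
      have : 0 ≤ t * b := mul_nonneg ht hb
      linarith
    have hc1 : (1 - t) * a + t * b ≤ 1 := by nlinarith
    refine (geo_unique hX ht ht1 ?_ ?_).symm
    · rw [dist_geo_geo hX x y ha ha1 hc0 hc1, dist_geo_geo hX x y ha ha1 hb hb1, ← mul_assoc]
      refine mul_le_mul_of_nonneg_right (le_of_eq ?_) dist_nonneg
      rw [show a - ((1 - t) * a + t * b) = t * (a - b) by ring, abs_mul, abs_of_nonneg ht]
    · rw [dist_geo_geo hX x y hc0 hc1 hb hb1, dist_geo_geo hX x y ha ha1 hb hb1, ← mul_assoc]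
      refine mul_le_mul_of_nonneg_right (le_of_eq ?_) dist_nonneg
      rw [show (1 - t) * a + t * b - b = (1 - t) * (a - b) by ring, abs_mul,
        abs_of_nonneg (by linarith)]

theorem geo_map [CompleteSpace X] (hX : IsCAT0 X) {f : X → X}
    (hf : ∀ x y, dist (f x) (f y) = dist x y) (x y : X) {t : ℝ} (h0 : 0 ≤ t) (h1 : t ≤ 1) :
    f (geo x y t) = geo (f x) (f y) t := by
  obtain ⟨a1, a2⟩ := geo_spec hX x y h0 h1
  refine geo_unique hX h0 h1 ?_ ?_
  · rw [hf, hf, a1]
  · rw [hf, hf, a2]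

theorem IsGeod.eq_geo [CompleteSpace X] (hX : IsCAT0 X) {γ : ℝ → X} {T : ℝ} (h : IsGeod γ T)
    {a b s : ℝ} (ha : 0 ≤ a) (hab : a < b) (hb : b ≤ T) (hs : s ∈ Icc a b) :
    γ s = geo (γ a) (γ b) ((s - a) / (b - a)) := by
  have hba : 0 < b - a := sub_pos.2 hab
  have ma : a ∈ Icc 0 T := ⟨ha, hab.le.trans hb⟩
  have mb : b ∈ Icc 0 T := ⟨ha.trans hab.le, hb⟩
  have ms : s ∈ Icc 0 T := ⟨ha.trans hs.1, hs.2.trans hb⟩
  refine geo_unique hX (div_nonneg (sub_nonneg.2 hs.1) hba.le)
    ((div_le_one hba).2 (by linarith [hs.2])) ?_ ?_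
  · rw [h a ma s ms, h a ma b mb, abs_sub_comm, abs_of_nonneg (sub_nonneg.2 hs.1),
      abs_sub_comm a b, abs_of_pos hba, div_mul_cancel₀ _ hba.ne']
  · rw [h s ms b mb, h a ma b mb, abs_sub_comm s b, abs_of_nonneg (sub_nonneg.2 hs.2),
      abs_sub_comm a b, abs_of_pos hba]
    have : (1 - (s - a) / (b - a)) * (b - a) = b - s := by
      field_simp
      ring
    rw [this]

theorem isGeod_endPt [CompleteSpace X] (hX : IsCAT0 X) (x y : X) :
    IsGeod (fun s => endPt geo x y s) (dist x y) := by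
  intro s hs t ht
  rcases eq_or_lt_of_le (dist_nonneg (x := x) (y := y)) with h0 | h0
  · have hs0 : s = 0 := le_antisymm (by rw [h0]; exact hs.2) hs.1
    have ht0 : t = 0 := le_antisymm (by rw [h0]; exact ht.2) ht.1
    rw [hs0, ht0, dist_self, sub_self, abs_zero]
  · have a1 : s / dist x y ≤ 1 := (div_le_one h0).2 hs.2
    have a2 : t / dist x y ≤ 1 := (div_le_one h0).2 ht.2
    have a3 : 0 ≤ s / dist x y := div_nonneg hs.1 h0.le
    have a4 : 0 ≤ t / dist x y := div_nonneg ht.1 h0.le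
    simp only [endPt]
    rw [dist_geo_geo hX x y (by linarith) (by linarith) (by linarith) (by linarith)]
    rw [show 1 - s / dist x y - (1 - t / dist x y) = (t - s) / dist x y by ring, abs_div,
      abs_of_pos h0, div_mul_cancel₀ _ h0.ne', abs_sub_comm]

end Pool.Agent.TD
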