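import Pool.Agent.Lib.MP_98022b_td.CatCon

/-!
# Row TA3: the inequality of Bruhat and Tits along a geodesic
-/

set_option autoImplicit false

open Set Filter Topology

namespace Pool.Agent.TD

open Pool.Agent.GLN

variable {X : Type} [MetricSpace X]

theorem dist_geo_sq_le [CompleteSpace X] (hX : IsCAT0 X) (x y z : X) {t : ℝ} (h0 : 0 ≤ t)
    (h1 : t ≤ 1) : dist z (geo x y t) ^ 2 ≤
      (1 - t) * dist z x ^ 2 + t * dist z y ^ 2 - t * (1 - t) * dist x y ^ 2 := by
  have hb := bicomb_geo hX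
  have hLip : LipschitzOnWith ⟨dist x y, dist_nonneg⟩ (fun t => geo x y t) (Icc (0 : ℝ) 1) := by
    apply LipschitzOnWith.of_dist_le_mul
    intro s hs t ht
    have h := hb.speed x y s t hs.1 hs.2 ht.1 ht.2
    rw [mul_comm] at h
    exact h
  have hcont : ContinuousOn (fun t : ℝ => dist z (geo x y t) ^ 2 - t ^ 2 * dist x y ^ 2)
      (Icc 0 1) := by
    have h2 : ContinuousOn (fun t => dist z (geo x y t)) (Icc (0 : ℝ) 1) :=
      continuous_dist.comp_continuousOn (continuousOn_const.prodMk hLip.continuousOn)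
    have h3 : ContinuousOn (fun t : ℝ => t ^ 2 * dist x y ^ 2) (Icc (0 : ℝ) 1) := by fun_prop
    exact (h2.pow 2).sub h3
  have key := Pool.Agent.CCC.le_of_midConvex hcont (by
    intro t ht
    refine ⟨min t (1 - t), lt_min ht.1 (by linarith [ht.2]), ?_⟩
    intro ε hε hεlt
    have e1 : ε < t := hεlt.trans_le (min_le_left _ _)
    have e2 : ε < 1 - t := hεlt.trans_le (min_le_right _ _)
    have ha0 : 0 ≤ t - ε := by linarith
    have ha1 : t - ε ≤ 1 := by linarith
    have hb0 : 0 ≤ t + ε := by linarith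
    have hb1 : t + ε ≤ 1 := by linarith
    obtain ⟨m, hm⟩ := hX (geo x y (t - ε)) (geo x y (t + ε))
    have hpm : dist (geo x y (t - ε)) m ≤
        1 / 2 * dist (geo x y (t - ε)) (geo x y (t + ε)) := by
      have h4 := hm (geo x y (t - ε))
      rw [dist_self] at h4
      apply abs_le_of_sq_le_sq' _ (by positivity) |>.2
      nlinarith [h4]
    have hqm : dist m (geo x y (t + ε)) ≤
        (1 - 1 / 2) * dist (geo x y (t - ε)) (geo x y (t + ε)) := by
      have h4 := hm (geo x y (t + ε))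
      rw [dist_self, dist_comm (geo x y (t + ε)) (geo x y (t - ε)),
        dist_comm (geo x y (t + ε)) m] at h4
      apply abs_le_of_sq_le_sq' _ (by positivity) |>.2
      nlinarith [h4]
    have hmm := geo_unique hX (by norm_num) (by norm_num) hpm hqm
    have hcons := hb.consistent x y (t - ε) (t + ε) (1 / 2) ha0 ha1 hb0 hb1 (by norm_num)
      (by norm_num)
    have e3 : (1 - 1 / 2) * (t - ε) + 1 / 2 * (t + ε) = t := by ring
    rw [e3] at hcons
    have hmt : m = geo x y t := hmm.trans hcons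
    have hd : 2 * ε * dist x y ≤ dist (geo x y (t - ε)) (geo x y (t + ε)) := by
      have h5 := (geo_spec hX x y ha0 ha1).1
      have h6 := (geo_spec hX x y hb0 hb1).2
      have h7 := dist_triangle4 x (geo x y (t - ε)) (geo x y (t + ε)) y
      rw [h5, h6] at h7
      linarith
    have hz := hm z
    rw [hmt] at hz
    have hsq : (2 * ε * dist x y) ^ 2 ≤ dist (geo x y (t - ε)) (geo x y (t + ε)) ^ 2 :=
      pow_le_pow_left₀ (by positivity) hd 2
    nlinarith [hz, hsq]) t ⟨h0, h1⟩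
  simp only [hb.zero, hb.one] at key
  nlinarith [key]

/-- The form for a geodesic with unit speed: a point which is almost as near to both ends as
`γ t` is near `γ t`. -/
theorem IsGeod.dist_sq_le [CompleteSpace X] (hX : IsCAT0 X) {γ : ℝ → X} {T : ℝ} (h : IsGeod γ T)
    {z : X} {t e : ℝ} (ht : t ∈ Icc 0 T) (he : 0 ≤ e) (h0 : dist z (γ 0) ≤ t + e)
    (h1 : dist z (γ T) ≤ T - t + e) : dist z (γ t) ^ 2 ≤ e * T + e ^ 2 := by
  have hT : 0 ≤ T := ht.1.trans ht.2
  rcases hT.eq_or_lt with hT0 | hT0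
  · have ht0 : t = 0 := le_antisymm (hT0 ▸ ht.2) ht.1
    rw [ht0] at h0 ⊢
    rw [zero_add] at h0
    have := pow_le_pow_left₀ dist_nonneg h0 2
    rw [← hT0]
    linarith
  · have hγ := h.eq_geo hX le_rfl hT0 le_rfl ht
    have hd : dist (γ 0) (γ T) = T := by
      rw [h 0 ⟨le_rfl, hT⟩ T ⟨hT, le_rfl⟩, zero_sub, abs_neg, abs_of_nonneg hT]
    rw [sub_zero, sub_zero] at hγ
    have hl0 : 0 ≤ t / T := div_nonneg ht.1 hT
    have hl1 : t / T ≤ 1 := by rw [div_le_one hT0]; exact ht.2
    have h2 := dist_geo_sq_le hX (γ 0) (γ T) z hl0 hl1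
    rw [← hγ, hd] at h2
    have h3 := pow_le_pow_left₀ dist_nonneg h0 2
    have h4 := pow_le_pow_left₀ dist_nonneg h1 2
    obtain ⟨l, hl⟩ : ∃ l, l = t / T := ⟨_, rfl⟩
    rw [← hl] at h2 hl0 hl1
    have htl : t = l * T := by rw [hl]; field_simp
    have h5 : dist z (γ t) ^ 2 ≤ (1 - l) * (t + e) ^ 2 + l * (T - t + e) ^ 2 -
        l * (1 - l) * T ^ 2 := by
      have h6 := mul_le_mul_of_nonneg_left h3 (by linarith : 0 ≤ 1 - l)
      have h7 := mul_le_mul_of_nonneg_left h4 hl0
      linarith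
    have h8 : (1 - l) * (t + e) ^ 2 + l * (T - t + e) ^ 2 - l * (1 - l) * T ^ 2 =
        4 * l * (1 - l) * (e * T) + e ^ 2 := by
      rw [htl]
      ring
    rw [h8] at h5
    have h9 : 4 * l * (1 - l) ≤ 1 := by nlinarith [sq_nonneg (2 * l - 1)]
    have h10 := mul_le_mul_of_nonneg_right h9 (mul_nonneg he hT)
    linarith

end Pool.Agent.TD
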