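import Pool.Agent.Lib.MP_98022b_td.EucDefs
import Pool.Agent.Lib.MP_98022b_b4.Basic

/-!
# Row BR1: uniform constants for complexes with finitely many shapes

The form `bil lam s` is positive definite on the vectors `a ≠ 0` supported in `s` with sum `0`: for the
points `x, y` with the coordinates `1 / card s ± η * a` (`exists_pt`, small `η`), `0 < dist x y ^ 2` and
`euclid`. Upper bound: `|K.len u v| ≤ M` for `u, v` in a face (`lens` is finite). Lower bound: enumerate a
face `s` by `Fin m`, `m ≤ d + 1`; the matrix of the lengths is one of finitely many matrices (entries in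
`lens ∪ {0}`). For each matrix for which the form is positive definite on the vectors with sum `0`, the
minimum of the form on the compact set `{a | ∑ a = 0, max |a| = 1}` is positive; take the least of these
minima.
-/

set_option autoImplicit false

open Set Filter Topology

namespace Pool.Agent.TD.EComplex

variable {X V : Type} [MetricSpace X]

/-- The quadratic form of a matrix of lengths. -/
private noncomputable def qf {m : ℕ} (G : Fin m → Fin m → ℝ) (a : Fin m → ℝ) : ℝ :=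
  -(1 / 2) * ∑ i, ∑ j, a i * a j * G i j ^ 2

private def PD {m : ℕ} (G : Fin m → Fin m → ℝ) : Prop :=
  ∀ a : Fin m → ℝ, ∑ i, a i = 0 → a ≠ 0 → 0 < qf G a

private theorem qf_smul {m : ℕ} (G : Fin m → Fin m → ℝ) (c : ℝ) (a : Fin m → ℝ) :
    qf G (c • a) = c ^ 2 * qf G a := by
  unfold qf
  simp only [Pi.smul_apply, smul_eq_mul, Finset.mul_sum]
  refine Finset.sum_congr rfl fun i _ => Finset.sum_congr rfl fun j _ => ?_
  ring

private theorem qf_continuous {m : ℕ} (G : Fin m → Fin m → ℝ) : Continuous (qf G) := by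
  unfold qf
  fun_prop

private theorem exists_bound {m : ℕ} (G : Fin m → Fin m → ℝ) : ∃ C : ℝ, 0 ≤ C ∧ (PD G →
    ∀ a : Fin m → ℝ, ∑ i, a i = 0 → ∀ i, |a i| ≤ C * √(qf G a)) := by
  by_cases hG : PD G
  swap
  · exact ⟨0, le_rfl, fun h => (hG h).elim⟩
  let S : Set (Fin m → ℝ) := {a | ∑ i, a i = 0 ∧ ‖a‖ = 1}
  have hS : IsCompact S := by
    have h1 : IsClosed {a : Fin m → ℝ | ∑ i, a i = 0} :=
      isClosed_eq (by fun_prop) continuous_const
    have h2 : S = Metric.sphere (0 : Fin m → ℝ) 1 ∩ {a : Fin m → ℝ | ∑ i, a i = 0} := by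
      ext a
      simp only [S, mem_ofPred_eq, mem_inter_iff, mem_sphere_iff_norm, sub_zero]
      exact and_comm
    rw [h2]
    exact (isCompact_sphere _ _).inter_right h1
  by_cases hne : S.Nonempty
  · obtain ⟨a₀, ha₀, hmin⟩ := hS.exists_isMinOn hne (qf_continuous G).continuousOn
    have ha₀' : a₀ ≠ 0 := by
      intro h
      have := ha₀.2
      rw [h, norm_zero] at this
      exact zero_ne_one this
    have hc : 0 < qf G a₀ := hG a₀ ha₀.1 ha₀'
    refine ⟨(√(qf G a₀))⁻¹, inv_nonneg.2 (Real.sqrt_nonneg _), fun _ a ha i => ?_⟩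
    by_cases ha0 : a = 0
    · rw [ha0]
      simp only [Pi.zero_apply, abs_zero]
      positivity
    have hn : 0 < ‖a‖ := norm_pos_iff.2 ha0
    have hmem : ‖a‖⁻¹ • a ∈ S := by
      refine ⟨?_, ?_⟩
      · simp only [Pi.smul_apply, smul_eq_mul, ← Finset.mul_sum, ha, mul_zero]
      · rw [norm_smul, norm_inv, norm_norm, inv_mul_cancel₀ hn.ne']
    have h1 : qf G a₀ ≤ qf G (‖a‖⁻¹ • a) := hmin hmem
    rw [qf_smul] at h1
    have h2 : ‖a‖ ^ 2 * qf G a₀ ≤ qf G a := by
      calc ‖a‖ ^ 2 * qf G a₀ ≤ ‖a‖ ^ 2 * (‖a‖⁻¹ ^ 2 * qf G a) :=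
            mul_le_mul_of_nonneg_left h1 (sq_nonneg _)
        _ = qf G a := by
            rw [← mul_assoc, ← mul_pow, mul_inv_cancel₀ hn.ne', one_pow, one_mul]
    have h3 : ‖a‖ * √(qf G a₀) ≤ √(qf G a) := by
      rw [← Real.sqrt_sq hn.le, ← Real.sqrt_mul (sq_nonneg _)]
      exact Real.sqrt_le_sqrt h2
    calc |a i| = ‖a i‖ := rfl
      _ ≤ ‖a‖ := norm_le_pi_norm a i
      _ = (√(qf G a₀))⁻¹ * (‖a‖ * √(qf G a₀)) := by
          rw [mul_comm ‖a‖, ← mul_assoc, inv_mul_cancel₀ (Real.sqrt_pos.2 hc).ne', one_mul]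
      _ ≤ (√(qf G a₀))⁻¹ * √(qf G a) :=
          mul_le_mul_of_nonneg_left h3 (inv_nonneg.2 (Real.sqrt_nonneg _))
  · refine ⟨0, le_rfl, fun _ a ha i => ?_⟩
    have ha0 : a = 0 := by
      by_contra h
      have hn : 0 < ‖a‖ := norm_pos_iff.2 h
      apply hne
      refine ⟨‖a‖⁻¹ • a, ?_, ?_⟩
      · simp only [Pi.smul_apply, smul_eq_mul, ← Finset.mul_sum, ha, mul_zero]
      · rw [norm_smul, norm_inv, norm_norm, inv_mul_cancel₀ hn.ne']
    rw [ha0]
    simp

private theorem exists_bound_unif {L : Set ℝ} (hL : L.Finite) (N : ℕ) : ∃ C : ℝ, 1 ≤ C ∧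
    ∀ m : ℕ, m ≤ N → ∀ G : Fin m → Fin m → ℝ, (∀ i j, G i j ∈ L) → PD G →
      ∀ a : Fin m → ℝ, ∑ i, a i = 0 → ∀ i, |a i| ≤ C * √(qf G a) := by
  have key : ∀ x : (Σ m : ℕ, Fin m → Fin m → ℝ), ∃ C : ℝ, 0 ≤ C ∧ (PD x.2 →
    ∀ a : Fin x.1 → ℝ, ∑ i, a i = 0 → ∀ i, |a i| ≤ C * √(qf x.2 a)) := fun x => exists_bound x.2
  choose f hf0 hf using key
  let S : Set (Σ m : ℕ, Fin m → Fin m → ℝ) := {x | x.1 ≤ N ∧ ∀ i j, x.2 i j ∈ L}
  have hS : S.Finite := by
    have h1 : S ⊆ ⋃ m ∈ Finset.range (N + 1), (Sigma.mk m) ''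
        (Set.pi univ fun _ : Fin m => Set.pi univ fun _ : Fin m => L) := by
      rintro ⟨m, G⟩ ⟨hm, hG⟩
      simp only [mem_iUnion]
      refine ⟨m, Finset.mem_range.2 (Nat.lt_succ_of_le hm), G, ?_, rfl⟩
      exact fun i _ j _ => hG i j
    refine Set.Finite.subset ?_ h1
    refine Set.Finite.biUnion (Finset.finite_toSet _) fun m _ => ?_
    exact (Set.Finite.pi fun _ => Set.Finite.pi fun _ => hL).image _
  obtain ⟨M, hM⟩ := (hS.image f).bddAbove
  refine ⟨max 1 M, le_max_left _ _, fun m hm G hG hPD a ha i => ?_⟩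
  have h1 := hf ⟨m, G⟩ hPD a ha i
  have h2 : f ⟨m, G⟩ ≤ M := hM ⟨⟨m, G⟩, ⟨hm, hG⟩, rfl⟩
  exact h1.trans (mul_le_mul_of_nonneg_right (h2.trans (le_max_right _ _)) (Real.sqrt_nonneg _))

/-- The form is positive definite on the tangent vectors of a face. -/
private theorem bil_pos (K : EComplex X V) {s : Finset V} (hs : s ∈ K.faces) {b : V → ℝ}
    (hb : BP.SuppIn b s) (hsum : ∑ v ∈ s, b v = 0) {v₀ : V} (hv₀ : b v₀ ≠ 0) :
    0 < BP.bil (fun u v => K.len u v ^ 2) s b b := by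
  classical
  have hv₀s : v₀ ∈ s := by
    by_contra h
    exact hv₀ (hb v₀ h)
  have hn : (0 : ℝ) < s.card := by
    exact_mod_cast Finset.card_pos.2 ⟨v₀, hv₀s⟩
  set S : ℝ := ∑ v ∈ s, |b v| with hS
  have hS0 : 0 ≤ S := Finset.sum_nonneg fun v _ => abs_nonneg _
  set η : ℝ := ((s.card : ℝ) * (S + 1))⁻¹ with hη
  have hη0 : 0 < η := inv_pos.2 (mul_pos hn (by linarith))
  have hηb : ∀ v ∈ s, |η * b v| ≤ (s.card : ℝ)⁻¹ := by
    intro v hv
    have h1 : |b v| ≤ S := Finset.single_le_sum (f := fun v => |b v|) (fun v _ => abs_nonneg _) hv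
    rw [abs_mul, abs_of_pos hη0, hη, mul_inv, mul_assoc]
    have h2 : (S + 1)⁻¹ * |b v| ≤ 1 := by
      rw [inv_mul_le_one₀ (by linarith)]
      linarith
    have h3 : 0 ≤ (s.card : ℝ)⁻¹ := inv_nonneg.2 hn.le
    calc (s.card : ℝ)⁻¹ * ((S + 1)⁻¹ * |b v|) ≤ (s.card : ℝ)⁻¹ * 1 :=
          mul_le_mul_of_nonneg_left h2 h3
      _ = (s.card : ℝ)⁻¹ := mul_one _
  have hpt : ∀ r : ℝ, |r| = 1 → ∃ x, K.co x = fun v => if v ∈ s then (s.card : ℝ)⁻¹ + r * (η * b v) else 0 := by
    intro r hr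
    refine K.exists_pt s hs _ ?_ ?_ ?_
    · intro v
      by_cases hv : v ∈ s
      · simp only [hv, if_true]
        have h1 : |r * (η * b v)| ≤ (s.card : ℝ)⁻¹ := by
          rw [abs_mul, hr, one_mul]
          exact hηb v hv
        have h2 := neg_abs_le (r * (η * b v))
        linarith
      · simp only [hv, if_false, le_refl]
    · intro v hv
      simp only [hv, if_false]
    · have h1 : ∑ v ∈ s, (if v ∈ s then (s.card : ℝ)⁻¹ + r * (η * b v) else 0) =
          ∑ v ∈ s, ((s.card : ℝ)⁻¹ + r * (η * b v)) :=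
        Finset.sum_congr rfl fun v hv => by simp only [hv, if_true]
      rw [h1, Finset.sum_add_distrib, Finset.sum_const, nsmul_eq_mul, mul_inv_cancel₀ hn.ne',
        ← Finset.mul_sum, ← Finset.mul_sum, hsum, mul_zero, mul_zero, add_zero]
  obtain ⟨x, hx⟩ := hpt 1 (by norm_num)
  obtain ⟨y, hy⟩ := hpt (-1) (by norm_num)
  have hx' : ∀ v ∈ s, K.co x v = (s.card : ℝ)⁻¹ + η * b v := by
    intro v hv
    rw [hx]
    simp only [hv, if_true, one_mul]
  have hy' : ∀ v ∈ s, K.co y v = (s.card : ℝ)⁻¹ - η * b v := by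
    intro v hv
    rw [hy]
    simp only [hv, if_true]
    ring
  have hxs : ∀ v, v ∉ s → K.co x v = 0 := by
    intro v hv
    rw [hx]
    simp only [hv, if_false]
  have hys : ∀ v, v ∉ s → K.co y v = 0 := by
    intro v hv
    rw [hy]
    simp only [hv, if_false]
  have hxy : x ≠ y := by
    intro h
    have h1 := hx' v₀ hv₀s
    rw [h, hy' v₀ hv₀s] at h1
    have h2 : η * b v₀ = 0 := by linarith
    rcases mul_eq_zero.1 h2 with h3 | h3
    · exact hη0.ne' h3
    · exact hv₀ h3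
  have hd : 0 < dist x y ^ 2 := pow_pos (dist_pos.2 hxy) 2
  rw [K.euclid s hs x y hxs hys] at hd
  have he : ∑ u ∈ s, ∑ v ∈ s, (K.co x u - K.co y u) * (K.co x v - K.co y v) *
      dist (K.pos u) (K.pos v) ^ 2 = (4 * η ^ 2) * ∑ u ∈ s, ∑ v ∈ s, b u * b v * K.len u v ^ 2 := by
    rw [Finset.mul_sum]
    refine Finset.sum_congr rfl fun u hu => ?_
    rw [Finset.mul_sum]
    refine Finset.sum_congr rfl fun v hv => ?_
    rw [hx' u hu, hy' u hu, hx' v hv, hy' v hv]
    unfold len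
    ring
  rw [he] at hd
  have h4 : 0 < 4 * η ^ 2 := by positivity
  have h5 : 0 < (4 * η ^ 2) * BP.bil (fun u v => K.len u v ^ 2) s b b := by
    unfold BP.bil
    calc 0 < -(1 / 2) * ((4 * η ^ 2) * ∑ u ∈ s, ∑ v ∈ s, b u * b v * K.len u v ^ 2) := hd
      _ = (4 * η ^ 2) * (-(1 / 2) * ∑ u ∈ s, ∑ v ∈ s, b u * b v * K.len u v ^ 2) := by ring
  exact (mul_pos_iff_of_pos_left h4).1 h5

theorem exists_isShapes {K : EComplex X V} (hfin : K.lens.Finite) {d : ℕ}
    (hd : ∀ s ∈ K.faces, s.card ≤ d + 1) :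
    ∃ c1 C1 : ℝ, BP.IsShapes K.faces (fun u v => K.len u v ^ 2) d c1 C1 := by
  classical
  set L : Set ℝ := insert 0 K.lens with hLdef
  have hL : L.Finite := hfin.insert 0
  have hlen : ∀ s ∈ K.faces, ∀ u ∈ s, ∀ v ∈ s, K.len u v ∈ L := by
    intro s hs u hu v hv
    by_cases huv : u = v
    · left
      rw [huv]
      exact dist_self _
    · right
      exact ⟨s, hs, u, hu, v, hv, huv, rfl⟩
  obtain ⟨C, hC1, hC⟩ := exists_bound_unif hL (d + 1)
  obtain ⟨M, hM⟩ := hL.bddAbove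
  have hM0 : 0 ≤ M := hM (Set.mem_insert _ _)
  have hD : (0 : ℝ) < d + 1 := by positivity
  have hC0 : 0 < C := by linarith
  refine ⟨((d + 1) * C ^ 2)⁻¹, (d + 1) * M ^ 2 + 1, inv_pos.2 (by positivity), by positivity, ?_, hd,
    K.down, ?_, ?_⟩
  · intro u v
    show K.len u v ^ 2 = K.len v u ^ 2
    unfold len
    rw [dist_comm]
  · -- lower bound
    intro s hs a ha1 ha2
    let e : Fin s.card ≃ s := s.equivFin.symm
    let G : Fin s.card → Fin s.card → ℝ := fun i j => K.len (e i) (e j)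
    have hsum : ∀ F : V → ℝ, ∑ v ∈ s, F v = ∑ i, F (e i) := by
      intro F
      rw [← Finset.sum_coe_sort s F]
      exact (Equiv.sum_comp e (fun v : s => F v)).symm
    have hBq : ∀ b : V → ℝ, BP.bil (fun u v => K.len u v ^ 2) s b b = qf G (fun i => b (e i)) := by
      intro b
      unfold qf BP.bil
      rw [hsum]
      congr 1
      refine Finset.sum_congr rfl fun i _ => ?_
      rw [hsum]
    have hPD : PD G := by
      intro c hc hc0
      let b : V → ℝ := fun v => if h : v ∈ s then c (e.symm ⟨v, h⟩) else 0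
      have hbe : ∀ i, b (e i) = c i := by
        intro i
        show (if h : (e i : V) ∈ s then c (e.symm ⟨e i, h⟩) else 0) = c i
        rw [dif_pos (e i).2]
        congr 1
        exact e.symm_apply_apply i
      have hbs : BP.SuppIn b s := by
        intro v hv
        show (if h : v ∈ s then c (e.symm ⟨v, h⟩) else 0) = 0
        rw [dif_neg hv]
      have hb2 : ∑ v ∈ s, b v = 0 := by
        rw [hsum]
        simp only [hbe]
        exact hc
      obtain ⟨i, hi⟩ := Function.ne_iff.1 hc0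
      have hb0 : b (e i) ≠ 0 := by
        rw [hbe i]
        exact hi
      have := bil_pos K hs hbs hb2 hb0
      rw [hBq b] at this
      simpa only [hbe] using this
    have h1 := hC s.card (hd s hs) G (fun i j => hlen s hs _ (e i).2 _ (e j).2) hPD
      (fun i => a (e i)) (by rw [← hsum]; exact ha2)
    rw [← hBq a] at h1
    set B : ℝ := BP.bil (fun u v => K.len u v ^ 2) s a a with hB
    have hB0 : 0 ≤ B := by
      by_cases h : ∃ v, a v ≠ 0
      · obtain ⟨v, hv⟩ := h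
        exact (bil_pos K hs ha1 ha2 hv).le
      · have h2 : ∀ v, a v = 0 := by
          intro v
          by_contra h3
          exact h ⟨v, h3⟩
        have h3 : B = 0 := by
          rw [hB]
          unfold BP.bil
          simp only [h2, zero_mul, Finset.sum_const_zero, mul_zero]
        exact h3.ge
    have h2 : ∀ v ∈ s, a v ^ 2 ≤ C ^ 2 * B := by
      intro v hv
      have h3 := h1 (e.symm ⟨v, hv⟩)
      simp only [Equiv.apply_symm_apply] at h3
      calc a v ^ 2 = |a v| ^ 2 := (sq_abs _).symm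
        _ ≤ (C * √B) ^ 2 := pow_le_pow_left₀ (abs_nonneg _) h3 2
        _ = C ^ 2 * B := by rw [mul_pow, Real.sq_sqrt hB0]
    have h3 : ∑ v ∈ s, a v ^ 2 ≤ (d + 1) * C ^ 2 * B := by
      calc ∑ v ∈ s, a v ^ 2 ≤ ∑ v ∈ s, C ^ 2 * B := Finset.sum_le_sum h2
        _ = (s.card : ℝ) * (C ^ 2 * B) := by rw [Finset.sum_const, nsmul_eq_mul]
        _ ≤ (d + 1) * (C ^ 2 * B) := by
            refine mul_le_mul_of_nonneg_right ?_ (by positivity)
            exact_mod_cast hd s hs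
        _ = (d + 1) * C ^ 2 * B := by ring
    rw [inv_mul_le_iff₀ (by positivity)]
    exact h3
  · -- upper bound
    intro s hs a ha1 ha2
    unfold BP.bil
    have h2 : |∑ u ∈ s, ∑ v ∈ s, a u * a v * K.len u v ^ 2| ≤
        ∑ u ∈ s, ∑ v ∈ s, (a u ^ 2 + a v ^ 2) / 2 * M ^ 2 := by
      refine (Finset.abs_sum_le_sum_abs _ _).trans (Finset.sum_le_sum fun u hu => ?_)
      refine (Finset.abs_sum_le_sum_abs _ _).trans (Finset.sum_le_sum fun v hv => ?_)
      rw [abs_mul, abs_pow]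
      have h3 : |K.len u v| ≤ M := by
        have h0 : 0 ≤ K.len u v := dist_nonneg
        rw [abs_of_nonneg h0]
        exact hM (hlen s hs u hu v hv)
      have h4 : |a u * a v| ≤ (a u ^ 2 + a v ^ 2) / 2 := by
        rw [abs_le]
        constructor
        · nlinarith [sq_nonneg (a u + a v)]
        · nlinarith [sq_nonneg (a u - a v)]
      have h5 : |K.len u v| ^ 2 ≤ M ^ 2 := pow_le_pow_left₀ (abs_nonneg _) h3 2
      exact mul_le_mul h4 h5 (by positivity) (by positivity)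
    have h3 : ∑ u ∈ s, ∑ v ∈ s, (a u ^ 2 + a v ^ 2) / 2 * M ^ 2 =
        (s.card : ℝ) * (∑ v ∈ s, a v ^ 2) * M ^ 2 := by
      have h4 : ∀ u ∈ s, ∑ v ∈ s, (a u ^ 2 + a v ^ 2) / 2 * M ^ 2 =
          (s.card : ℝ) * (a u ^ 2 / 2 * M ^ 2) + (∑ v ∈ s, a v ^ 2) / 2 * M ^ 2 := by
        intro u _
        rw [← nsmul_eq_mul, ← Finset.sum_const, Finset.sum_div, Finset.sum_mul,
          ← Finset.sum_add_distrib]
        refine Finset.sum_congr rfl fun v _ => ?_
        ring
      rw [Finset.sum_congr rfl h4, Finset.sum_add_distrib, Finset.sum_const, nsmul_eq_mul,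
        ← Finset.mul_sum, ← Finset.sum_mul, ← Finset.sum_div]
      ring
    have hQ : 0 ≤ ∑ v ∈ s, a v ^ 2 := Finset.sum_nonneg fun v _ => sq_nonneg _
    have h4 : (s.card : ℝ) ≤ d + 1 := by exact_mod_cast hd s hs
    have h5 : (s.card : ℝ) * (∑ v ∈ s, a v ^ 2) * M ^ 2 ≤ (d + 1) * (∑ v ∈ s, a v ^ 2) * M ^ 2 := by
      gcongr
    have h8 := neg_abs_le (∑ u ∈ s, ∑ v ∈ s, a u * a v * K.len u v ^ 2)
    rw [h3] at h2
    have h9 : (d + 1) * (∑ v ∈ s, a v ^ 2) * M ^ 2 + ∑ v ∈ s, a v ^ 2 =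
        ((d + 1) * M ^ 2 + 1) * ∑ v ∈ s, a v ^ 2 := by ring
    have h10 := abs_nonneg (∑ u ∈ s, ∑ v ∈ s, a u * a v * K.len u v ^ 2)
    linarith

end Pool.Agent.TD.EComplex
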