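import Pool.Agent.Lib.MP_98022b_td.SeqL

/-!
# The colours of a family of reduced sequences
-/

set_option autoImplicit false

open Set
open scoped Pointwise

namespace Pool.Agent.TD

open Pool.Agent.GLN Pool.Agent.FA Pool.Agent.CCM

variable {Γ X V V' : Type} [Group Γ] [MulAction Γ V] [MulAction Γ V'] {G : Subgroup Γ}
  {d' : V → V → ℕ} {π : V → V'} {Λ W q : ℕ}

/-- The sequence as a sequence of optional states. -/
def oP (D : SeqQ G X V V' d' π Λ W q) (g : G) (x : X) : ℤ → Option V := fun c => some (D.P g x c)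

omit [MulAction Γ V'] in
theorem oP_smul (D : SeqQ G X V V' d' π Λ W q) (h g : G) (x : X) (c : ℤ) :
    oP D (h * g) x c = (h : Γ) • oP D g x c := by
  unfold oP
  rw [D.smul, Option.smul_some]
  rfl

/-- The colour by two-sided extensions of far windows. -/
def colP (D : SeqQ G X V V' d' π Λ W q) (k₀ : ℕ) (R a b ρ : ℤ) (g : G) (x : X)
    (l : Set (ℤ → Option V)) : Prop :=
  D.Dom g x ∧ Far d' k₀ (wset (oP D g x) a) ∧
    fixingSubgroup Γ (wset (oP D g x) a) = fixingSubgroup Γ (wset (oP D g x) b) ∧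
    ∃ (k : ℤ) (γ : G) (Q : ℤ → Option V), 0 < |k| ∧ |k| ≤ R ∧ (∀ j, γ • Q j = Q (j + k)) ∧
      (∀ j : ℤ, |j| ≤ ρ → Q j = oP D g x j) ∧ l = cls Q

/-- The marker colours: `F` is a rule, `C'` is the beginning of an interval of length `R'`. -/
def colK (D : SeqQ G X V V' d' π Λ W q) (R ρ : ℤ) {r : ℕ}
    (e : (Fin (2 * r + 1) → Option V) → ℕ) (F : (ℤ → ℕ) → ℤ → Prop) (C' : ℤ) (R' : ℕ) (g : G)
    (x : X) (l : V) : Prop :=
  D.Dom g x ∧ ¬ Per G (oP D g x) R ρ ∧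
    ∃ n : ℤ, (C' ≤ n ∧ n < C' + R') ∧ F (code G e (oP D g x)) n ∧ D.P g x n = l

/-- The colour by the constant image in an interval. -/
def colV (D : SeqQ G X V V' d' π Λ W q) (a b : ℤ) (g : G) (x : X) (l : V') : Prop :=
  D.Dom g x ∧ ∀ i : ℤ, a ≤ i → i ≤ b → π (D.P g x i) = l

theorem isCol_colV (hmap : ∀ (g : Γ) u, π (g • u) = g • π u) (D : SeqQ G X V V' d' π Λ W q)
    {a b : ℤ} (hab : a ≤ b) : IsCol (fun _ => True) (colV D a b) := by
  refine ⟨?_, ?_, fun _ _ _ _ => trivial⟩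
  · rintro g x l l' ⟨-, h1⟩ ⟨-, h2⟩
    rw [← h1 a le_rfl hab, ← h2 a le_rfl hab]
  · rintro h g x l ⟨hx, h1⟩
    refine ⟨D.dom_smul h g x hx, fun i hi hi' => ?_⟩
    rw [D.smul, ← h1 i hi hi']
    exact hmap (h : Γ) _

omit [MulAction Γ V'] in
theorem common_colV (D : SeqQ G X V V' d' π Λ W q) {η : ℕ} {a b : ℤ}
    (ha : |a| + η ≤ W) (hb : |b| + η ≤ W) {g : G} {x : X} {l : V'}
    (hc : ∀ i : ℤ, a - η ≤ i → i ≤ b + η → π (D.P g x i) = l) {h : G} {y : X}
    (hs : D.Sees η g x h y) : colV D a b h y l := by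
  have ha' := abs_le.1 (show |a| ≤ W - η by linarith)
  have hb' := abs_le.1 (show |b| ≤ W - η by linarith)
  obtain ⟨hy, σ, hσ, hs⟩ := hs
  have hσ' := abs_le.1 hσ
  refine ⟨hy, fun i hi hi' => ?_⟩
  have h1 := hs (i - σ) (by rw [abs_le]; constructor <;> linarith)
  rw [sub_add_cancel] at h1
  rw [h1]
  exact hc _ (by linarith) (by linarith)

omit [MulAction Γ V'] in
/-- Either the images are constant on one of several intervals, or the window is far. -/
theorem const_or_far (D : SeqQ G X V V' d' π Λ W q) {L k₀ a₀ : ℕ} {g : G} {x : X}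
    (hx : D.Dom g x) (hL : 0 < L) (ha₀ : (Λ * k₀ + 2) * L ≤ a₀) (hW : a₀ ≤ W)
    (hc : ∀ j < Λ * k₀ + 1, ¬ ∀ i i' : ℤ, (j + 1) * L ≤ i → i < (j + 2) * L → (j + 1) * L ≤ i' →
      i' < (j + 2) * L → π (D.P g x i) = π (D.P g x i')) :
    Far d' k₀ (wset (oP D g x) a₀) := by
  -- a chain with many changes
  have key : ∀ n ≤ Λ * k₀ + 1, ∃ c : ℕ → ℤ, (∀ i ≤ n, 0 ≤ c i ∧ c i < (n + 1) * L) ∧
      ∀ i < n, c i ≤ c (i + 1) ∧ π (D.P g x (c i)) ≠ π (D.P g x (c (i + 1))) := by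
    intro n
    induction n with
    | zero =>
      intro _
      refine ⟨fun _ => 0, fun i _ => ⟨le_rfl, ?_⟩, fun i hi => absurd hi (Nat.not_lt_zero i)⟩
      push_cast
      have : (0 : ℤ) < L := by exact_mod_cast hL
      linarith
    | succ n ih =>
      intro hn
      obtain ⟨c, hc1, hc2⟩ := ih (by omega)
      have h1 := hc n (by omega)
      push Not at h1
      obtain ⟨i, i', hi, hi2, hi', hi2', hne⟩ := h1
      -- one of them is different from the last one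
      obtain ⟨m, hm, hm2, hmne⟩ : ∃ m : ℤ, ((n : ℤ) + 1) * L ≤ m ∧ m < ((n : ℤ) + 2) * L ∧
          π (D.P g x (c n)) ≠ π (D.P g x m) := by
        by_cases h : π (D.P g x (c n)) = π (D.P g x i)
        · exact ⟨i', hi', hi2', by rw [h]; exact hne⟩
        · exact ⟨i, hi, hi2, h⟩
      have hL0 : (0 : ℤ) < L := by exact_mod_cast hL
      refine ⟨fun k => if k ≤ n then c k else m, fun k hk => ?_, fun k hk => ?_⟩
      · by_cases hkn : k ≤ n
        · simp only [hkn, if_true]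
          have := hc1 k hkn
          push_cast
          constructor
          · linarith
          · nlinarith
        · simp only [hkn, if_false]
          push_cast
          constructor
          · have : (0 : ℤ) ≤ ((n : ℤ) + 1) * L := by positivity
            linarith
          · linarith
      · rcases Nat.lt_or_ge k n with hkn | hkn
        · have e1 : k ≤ n := hkn.le
          have e2 : k + 1 ≤ n := hkn
          simp only [e1, e2, if_true]
          exact hc2 k hkn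
        · have e0 : k = n := by omega
          subst e0
          have e2 : ¬ k + 1 ≤ k := by omega
          simp only [le_rfl, e2, if_true, if_false]
          refine ⟨?_, hmne⟩
          have := (hc1 k le_rfl).2
          linarith
  obtain ⟨c, hc1, hc2⟩ := key _ le_rfl
  have hWz : ((Λ : ℤ) * k₀ + 2) * L ≤ a₀ := by exact_mod_cast ha₀
  have hcW : ∀ i ≤ Λ * k₀ + 1, |c i| ≤ a₀ := by
    intro i hi
    have := hc1 i hi
    push_cast at this
    rw [abs_le]
    constructor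
    · have : (0 : ℤ) ≤ a₀ := Int.natCast_nonneg a₀
      linarith
    · have h1 : ((Λ : ℤ) * k₀ + 1 + 1) * L = ((Λ : ℤ) * k₀ + 2) * L := by ring
      linarith
  have h1 := D.chg g x hx _ c (fun i hi => (hcW i hi).trans (by exact_mod_cast hW)) hc2
  refine ⟨_, ⟨c 0, hcW 0 (Nat.zero_le _), rfl⟩, _, ⟨c (Λ * k₀ + 1), hcW _ le_rfl, rfl⟩, ?_⟩
  by_contra h2
  push Not at h2
  have h3 : Λ * (d' (D.P g x (c 0)) (D.P g x (c (Λ * k₀ + 1))) + 1) ≤ Λ * k₀ :=
    Nat.mul_le_mul_left _ h2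
  omega

omit [MulAction Γ V'] in
theorem isCol_colP (hsm : ∀ (g : Γ) u v, d' (g • u) (g • v) = d' u v)
    (D : SeqQ G X V V' d' π Λ W q) {R a b ρ : ℤ} {k₀ : ℕ}
    (ha : R ≤ a) (hb : a + R ≤ b) (hρ : a + 2 * R ≤ ρ) :
    IsCol (goodL G d' k₀) (colP D k₀ R a b ρ) := by
  refine ⟨?_, ?_, ?_⟩
  · rintro g x l l' ⟨-, -, hJ, k, γ, Q, hk, hkR, hQ, hQP, rfl⟩
      ⟨-, -, -, k', γ', Q', hk', hkR', hQ', hQP', rfl⟩
    rw [ext_eq (γ := (γ : Γ)) (γ' := (γ' : Γ)) hk hkR hk' hkR' ha hb hρ hJ hQ hQP hQ' hQP']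
  · rintro h g x l ⟨hx, hf, hJ, k, γ, Q, hk, hkR, hQ, hQP, rfl⟩
    have hP : ∀ c, oP D (h * g) x c = (h : Γ) • oP D g x c := oP_smul D h g x
    refine ⟨D.dom_smul h g x hx, far_smul' hsm (h : Γ) hP hf, ?_, k, h * γ * h⁻¹,
      fun j => h • Q j, hk, hkR, fun j => ?_, fun j hj => ?_, smul_cls h Q⟩
    · ext c
      rw [mem_fix_smul hP, mem_fix_smul hP, hJ]
    · show (h * γ * h⁻¹) • h • Q j = h • Q (j + k)
      rw [← hQ, ← mul_smul, ← mul_smul, inv_mul_cancel_right]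
    · show h • Q j = oP D (h * g) x j
      rw [hQP j hj]
      exact (hP j).symm
  · rintro g x l ⟨hx, hf, hJ, k, γ, Q, hk, hkR, hQ, hQP, rfl⟩
    obtain ⟨t, ht, hn⟩ := stab_ext (γ := (γ : Γ)) hk hkR ha hb hρ hJ hQ hQP
    refine ⟨wset (oP D g x) a, wset_finite _ _, hf, t, ht, fun n hnl => ?_⟩
    refine hn n ?_
    have h1 : (fun j => n • Q j) ∈ n • cls Q := ⟨Q, mem_cls Q, rfl⟩
    rw [hnl] at h1
    obtain ⟨s, hs⟩ := h1
    exact ⟨s, fun j => congrFun hs j⟩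

omit [MulAction Γ V'] in
theorem common_colP (D : SeqQ G X V V' d' π Λ W q) {k₀ l₀ : ℕ} (hch : ChainCond' Γ d' k₀ l₀)
    {η : ℕ} {R a₀ ρ : ℤ} (hR : 0 ≤ R) (ha₀ : 0 ≤ a₀)
    (hρ : a₀ + (l₀ + 1) * (R + 2 * η) ≤ ρ) (hW : ρ + 2 * η + R ≤ W)
    {g : G} {x : X} (hfar : Far d' k₀ (wset (oP D g x) a₀))
    (hP : Per G (oP D g x) R (ρ + η)) :
    ∃ (i : Fin l₀) (l : Set (ℤ → Option V)), ∀ h y, D.Sees η g x h y →
      colP D k₀ R (a₀ + (i : ℕ) * (R + 2 * η) + η) (a₀ + (i : ℕ) * (R + 2 * η) + η + R) ρ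
        h y l := by
  have hη : (0 : ℤ) ≤ η := Int.natCast_nonneg η
  have hl₀ : (0 : ℤ) ≤ l₀ := Int.natCast_nonneg l₀
  have haρ : a₀ + (R + 2 * η) ≤ ρ := by nlinarith
  obtain ⟨k, hk, hkR, γ, hγ⟩ := hP
  obtain ⟨Q, hQ, hQP⟩ := exists_ext hk (by linarith) hγ
  -- the levels
  obtain ⟨T, hT⟩ : ∃ T : ℕ → Set V, ∀ i, T i = wset (oP D g x) (a₀ + (i : ℕ) * (R + 2 * η)) :=
    ⟨_, fun _ => rfl⟩
  have hmono : Monotone T := by
    refine monotone_nat_of_le_succ fun i => ?_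
    rw [hT, hT]
    refine wset_mono _ ?_
    push_cast
    nlinarith
  obtain ⟨i, hi, hJ⟩ := hch T hmono (fun i => by rw [hT]; exact wset_finite _ _) (by
    rw [hT]
    simpa using hfar)
  have hil : ((i : ℕ) : ℤ) + 1 ≤ l₀ := by exact_mod_cast hi
  have hlev : a₀ + ((i : ℕ) + 1) * (R + 2 * η) ≤ ρ := by
    have : ((i : ℕ) + 1) * (R + 2 * η) ≤ (l₀ + 1) * (R + 2 * (η : ℤ)) :=
      mul_le_mul_of_nonneg_right (by linarith) (by linarith)
    linarith
  have hi0 : (0 : ℤ) ≤ (i : ℕ) * (R + 2 * η) := by positivity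
  refine ⟨⟨i, hi⟩, cls Q, fun h y hs => ?_⟩
  obtain ⟨hy, σ, hσ, hs⟩ := hs
  have hs' : ∀ c : ℤ, |c| ≤ W → oP D h y (c + σ) = oP D g x c := fun c hc => by
    show some _ = some _
    rw [hs c hc]
  obtain ⟨α, hα⟩ : ∃ α : ℤ, α = a₀ + (i : ℕ) * (R + 2 * η) := ⟨_, rfl⟩
  have hα1 : T i = wset (oP D g x) α := by rw [hT, hα]
  have hα2 : T (i + 1) = wset (oP D g x) (α + R + 2 * η) := by
    rw [hT, hα]
    congr 1
    push_cast
    ring
  have hαρ : α + R + 2 * η ≤ ρ := by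
    rw [hα]
    linarith [hlev]
  have hα0 : 0 ≤ α := by
    rw [hα]
    positivity
  have h1 : T i ⊆ wset (oP D h y) (α + η) := by
    rw [hα1]
    rintro v ⟨j, hj, hv⟩
    refine ⟨j + σ, (abs_add_le _ _).trans (by linarith), ?_⟩
    rw [hs' j (hj.trans (by linarith))]
    exact hv
  refine ⟨hy, ?_, ?_, k, γ, fun j => Q (j - σ), hk, hkR, fun j => ?_, fun j hj => ?_, ?_⟩
  · show Far d' k₀ (wset (oP D h y) (a₀ + (i : ℕ) * (R + 2 * η) + η))
    rw [← hα]
    refine Far.mono ?_ h1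
    rw [hα1, hα]
    exact hfar.mono (wset_mono _ (by linarith))
  · -- the pointwise stabilizers
    show fixingSubgroup Γ (wset (oP D h y) (a₀ + (i : ℕ) * (R + 2 * η) + η)) =
      fixingSubgroup Γ (wset (oP D h y) (a₀ + (i : ℕ) * (R + 2 * η) + η + R))
    rw [← hα]
    have h2 : wset (oP D h y) (α + η + R) ⊆ T (i + 1) := by
      rw [hα2]
      rintro v ⟨j, hj, hv⟩
      have h3 : |j - σ| ≤ α + R + 2 * η := (abs_sub _ _).trans (by linarith)
      refine ⟨j - σ, h3, ?_⟩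
      rw [← hs' _ (h3.trans (by linarith)), sub_add_cancel]
      exact hv
    have h3 : wset (oP D h y) (α + η) ⊆ wset (oP D h y) (α + η + R) := wset_mono _ (by linarith)
    refine le_antisymm ?_ (fixingSubgroup_antitone Γ V h3)
    calc fixingSubgroup Γ (wset (oP D h y) (α + η)) ≤ fixingSubgroup Γ (T i) :=
          fixingSubgroup_antitone Γ V h1
      _ = fixingSubgroup Γ (T (i + 1)) := hJ
      _ ≤ fixingSubgroup Γ (wset (oP D h y) (α + η + R)) := fixingSubgroup_antitone Γ V h2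
  · show γ • Q (j - σ) = Q (j + k - σ)
    rw [hQ]
    congr 1
    ring
  · show Q (j - σ) = oP D h y j
    have h3 : |j - σ| ≤ ρ + η := (abs_sub _ _).trans (by linarith)
    rw [hQP _ h3, ← hs' _ (h3.trans (by linarith)), sub_add_cancel]
  · have := cls_shift Q (-σ)
    rw [← this]
    rfl

omit [MulAction Γ V'] in
theorem isCol_colK (D : SeqQ G X V V' d' π Λ W q)
    {R ρ : ℤ} {R' Q Z r : ℕ} {e : (Fin (2 * r + 1) → Option V) → ℕ} {F : (ℤ → ℕ) → ℤ → Prop}
    {C' : ℤ} {A : Set (Option V)} (he : ∀ w, e w ≤ Q) (he1 : ∀ w, (∀ t, w t ∈ A) → e w < Q)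
    (he2 : ∀ w w', e w < Q → e w = e w' → w = w')
    (hA : ∀ g x, D.Dom g x → ∀ c : ℤ, |c| ≤ W → g⁻¹ • oP D g x c ∈ A)
    (_hrule : IsRule F Z)
    (hF : ∀ c, (∀ n, c n ≤ Q) → ∀ n n' : ℤ, |n' - n| < R' → F c n → F c n' → c n = c n')
    (hR : R' ≤ R) (hC' : 0 ≤ C') (hr : C' + R' + ρ ≤ r) (hW : r + Z + C' + R' ≤ W) :
    IsCol (fun _ => True) (colK D R ρ e F C' R') := by
  refine ⟨?_, ?_, fun _ _ _ _ => trivial⟩
  · rintro g x l l' ⟨hx, hnt, n, hn, hFn, hl⟩ ⟨-, -, n', hn', hFn', hl'⟩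
    by_cases hnn : n = n'
    · subst hnn
      rw [← hl, ← hl']
    · exfalso
      refine hnt ?_
      have hcode := hF (code G e (oP D g x)) (code_le he _) n n' (by
        rw [abs_lt]
        constructor <;> omega) hFn hFn'
      have hclose : ∀ j : ℤ, |j| ≤ (r : ℤ) → g⁻¹ • oP D g x (n + j) ∈ A := by
        intro j hj
        have h4 := abs_le.1 hj
        exact hA g x hx _ (by rw [abs_le]; constructor <;> omega)
      obtain ⟨γ, hγ⟩ := exists_of_code_eq he1 he2 hclose hcode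
      refine ⟨n' - n, ?_, ?_, γ, fun j hj => ?_⟩
      · rw [abs_pos]
        omega
      · refine le_trans ?_ hR
        rw [abs_le]
        constructor <;> omega
      · have h4 := abs_le.1 hj
        have h5 := hγ (j - n) (by rw [abs_le]; constructor <;> omega)
        rw [show n + (j - n) = j by ring, show n' + (j - n) = j + (n' - n) by ring] at h5
        exact h5
  · rintro h g x l ⟨hx, hnt, n, hn, hFn, hl⟩
    have hP : ∀ c, oP D (h * g) x c = h • oP D g x c := oP_smul D h g x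
    refine ⟨D.dom_smul h g x hx, fun hPer => hnt ?_, n, hn, ?_, ?_⟩
    · refine hPer.smul h⁻¹ fun c => ?_
      rw [hP, inv_smul_smul]
    · rw [code_smul e h hP]
      exact hFn
    · rw [D.smul, hl]

omit [MulAction Γ V'] in
theorem common_colK (D : SeqQ G X V V' d' π Λ W q)
    {η R' Q Z r : ℕ} {R ρ : ℤ} {e : (Fin (2 * r + 1) → Option V) → ℕ} {F : (ℤ → ℕ) → ℤ → Prop}
    (he : ∀ w, e w ≤ Q) (hrule : IsRule F Z)
    (hF : ∀ c, (∀ n, c n ≤ Q) → ∀ n : ℤ, ∃ n', |n' - n| < ((4 * η + 4 : ℕ) : ℤ) ∧ F c n')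
    (hR' : R' = 4 * η + 4)
    (hW : ρ + 2 * η + R ≤ W) (hW' : r + Z + 10 * η + 10 ≤ W) {g : G} {x : X}
    (hN : ¬ Per G (oP D g x) R (ρ + η)) :
    ∃ (κ : Fin 4) (l : V), ∀ h y, D.Sees η g x h y →
      colK D R (ρ + 2 * η) e F (((κ : ℕ) : ℤ) * (2 * η + 2)) R' h y l := by
  obtain ⟨n', hn', hFn'⟩ := hF (code G e (oP D g x)) (code_le he _) (5 * η + 4 : ℤ)
  rw [abs_lt] at hn'
  push_cast at hn'
  have hκ : ∃ κ : Fin 4, ((κ : ℕ) : ℤ) * (2 * η + 2) ≤ n' - η ∧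
      n' - η < ((κ : ℕ) : ℤ) * (2 * η + 2) + (2 * η + 2) := by
    by_cases h1 : n' - η < 2 * η + 2
    · exact ⟨0, by simp; omega, by simp; omega⟩
    by_cases h2 : n' - η < 2 * (2 * η + 2)
    · exact ⟨1, by simp; omega, by simp; omega⟩
    by_cases h3 : n' - η < 3 * (2 * η + 2)
    · exact ⟨2, by simp; omega, by simp; omega⟩
    · exact ⟨3, by simp; omega, by simp; omega⟩
  obtain ⟨κ, hκ1, hκ2⟩ := hκ
  refine ⟨κ, D.P g x n', fun h y hs => ?_⟩
  obtain ⟨hy, σ, hσ, hs⟩ := hs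
  have hσ' := abs_le.1 hσ
  have hs' : ∀ c : ℤ, |c| ≤ W → oP D h y (c + σ) = oP D g x c := fun c hc => by
    show some _ = some _
    rw [hs c hc]
  refine ⟨hy, fun hper => hN (per_of_sees' hσ hs' hper (by linarith) (by linarith)), n' + σ,
    ⟨by omega, by subst hR'; push_cast; omega⟩, ?_, ?_⟩
  · have h5 : F (code G e (oP D h y)) (n' + σ) = F (code G e (oP D g x)) n' := by
      refine hrule _ _ _ _ fun δ hδ => ?_
      refine code_congr e fun j hj => ?_
      have h6 := abs_le.1 hj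
      have h7 := abs_le.1 hδ
      have h8 := hs' (n' + δ + j) (by rw [abs_le]; constructor <;> omega)
      rw [← h8]
      congr 1
      ring
    rw [h5]
    exact hFn'
  · exact hs n' (by rw [abs_le]; constructor <;> omega)

end Pool.Agent.TD
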