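import Pool.Agent.Lib.MP_98022b_td.EucConst
import Pool.Agent.Lib.MP_98022b_b4.Bridge
import Pool.Agent.Lib.MP_98022b_b4.Main

/-!
# Row E4: the coordinates are Lipschitz functions

In a closed simplex: `exists_isShapes` and `euclid`. In general: `BP.Broken.lipschitz` for the geodesic
`endPt geo x y` (`BP.broken_of_geod`).
-/

set_option autoImplicit false

open Set Filter Topology

namespace Pool.Agent.TD.EComplex

variable {X V : Type} [MetricSpace X] [CompleteSpace X] {K : EComplex X V}

theorem exists_lip (hX : IsCAT0 X) (hfin : K.lens.Finite) {d : ℕ}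
    (hd : ∀ s ∈ K.faces, s.card ≤ d + 1) : ∃ L : ℝ, 1 ≤ L ∧
      (∀ x y v, |K.co x v - K.co y v| ≤ L * dist x y) ∧
      (∀ x y s, K.In x s → K.In y s → dist x y ≤ L) ∧
      ∀ x y s (e : ℝ), K.In x s → K.In y s → (∀ v, |K.co x v - K.co y v| ≤ e) →
        dist x y ≤ L * e := by
  obtain ⟨c1, C1, hS⟩ := exists_isShapes hfin hd
  have hc1 : 0 < √c1 := Real.sqrt_pos.2 hS.c1_pos
  obtain ⟨L, hLdef⟩ : ∃ L : ℝ, L = max 1 (max (1 / √c1) (√(C1 * (d + 1)))) := ⟨_, rfl⟩
  have hL1 : 1 ≤ L := by rw [hLdef]; exact le_max_left _ _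
  have hL2 : 1 / √c1 ≤ L := by
    rw [hLdef]; exact (le_max_left _ _).trans (le_max_right _ _)
  have hL3 : √(C1 * (d + 1)) ≤ L := by
    rw [hLdef]; exact (le_max_right _ _).trans (le_max_right _ _)
  have hsum : ∀ x s, K.In x s → ∑ v ∈ s, K.co x v = 1 := fun x s hx => BP.sum_co K hx.2
  have hup : ∀ x y s (e : ℝ), K.In x s → K.In y s → (∀ v, |K.co x v - K.co y v| ≤ e) →
      dist x y ≤ L * e := by
    intro x y s e hx hy he
    have hne : s.Nonempty := by
      by_contra h
      rw [Finset.not_nonempty_iff_eq_empty] at h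
      have h1 := hsum x s hx
      rw [h, Finset.sum_empty] at h1
      exact zero_ne_one h1
    obtain ⟨v0, _⟩ := hne
    have he0 : 0 ≤ e := (abs_nonneg _).trans (he v0)
    have h1 := BP.dist_sq K hx.1 hx.2 hy.2
    have hsup : BP.SuppIn (K.co y - K.co x) s := by
      intro v hv
      rw [Pi.sub_apply, hx.2 v hv, hy.2 v hv, sub_self]
    have hs0 : ∑ v ∈ s, (K.co y - K.co x) v = 0 := by
      simp only [Pi.sub_apply, Finset.sum_sub_distrib]
      rw [hsum y s hy, hsum x s hx, sub_self]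
    have h2 := hS.upper s hx.1 _ hsup hs0
    have h3 : ∑ v ∈ s, (K.co y - K.co x) v ^ 2 ≤ (d + 1) * e ^ 2 := by
      calc ∑ v ∈ s, (K.co y - K.co x) v ^ 2 ≤ ∑ _v ∈ s, e ^ 2 := by
            refine Finset.sum_le_sum fun v _ => ?_
            rw [Pi.sub_apply, ← sq_abs, abs_sub_comm]
            exact pow_le_pow_left₀ (abs_nonneg _) (he v) 2
        _ = s.card * e ^ 2 := by rw [Finset.sum_const, nsmul_eq_mul]
        _ ≤ (d + 1) * e ^ 2 := by
            have h4 : (s.card : ℝ) ≤ d + 1 := by exact_mod_cast hd s hx.1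
            exact mul_le_mul_of_nonneg_right h4 (sq_nonneg e)
    have h4 : dist x y ^ 2 ≤ (C1 * (d + 1)) * e ^ 2 := by
      rw [h1]
      calc _ ≤ C1 * ∑ v ∈ s, (K.co y - K.co x) v ^ 2 := h2
        _ ≤ C1 * ((d + 1) * e ^ 2) := mul_le_mul_of_nonneg_left h3 hS.C1_pos.le
        _ = (C1 * (d + 1)) * e ^ 2 := by ring
    have h5 : dist x y ≤ √(C1 * (d + 1)) * e := by
      have h6 : 0 ≤ C1 * ((d : ℝ) + 1) := mul_nonneg hS.C1_pos.le (by positivity)
      apply le_of_sq_le_sq _ (mul_nonneg (Real.sqrt_nonneg _) he0)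
      rw [mul_pow, Real.sq_sqrt h6]
      exact h4
    exact h5.trans (mul_le_mul_of_nonneg_right hL3 he0)
  refine ⟨L, hL1, ?_, ?_, hup⟩
  · intro x y v
    by_cases hxy : x = y
    · rw [hxy, dist_self, sub_self, abs_zero, mul_zero]
    have hT : 0 < dist x y := dist_pos.2 hxy
    have h := (BP.broken_of_geod hX K (isGeod_endPt hX x y)).lipschitz hS v
      (x := dist x y) (y := 0) ⟨hT.le, le_rfl⟩ ⟨le_rfl, hT.le⟩
    have e0 : Pool.Agent.GLN.endPt geo x y 0 = y := by
      unfold Pool.Agent.GLN.endPt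
      rw [zero_div, sub_zero]
      exact (bicomb_geo hX).one x y
    have e1 : Pool.Agent.GLN.endPt geo x y (dist x y) = x := by
      unfold Pool.Agent.GLN.endPt
      rw [div_self hT.ne', sub_self]
      exact (bicomb_geo hX).zero x y
    simp only [e0, e1, sub_zero, abs_of_pos hT] at h
    calc |K.co x v - K.co y v| ≤ dist x y / √c1 := h
      _ = 1 / √c1 * dist x y := by ring
      _ ≤ L * dist x y := mul_le_mul_of_nonneg_right hL2 hT.le
  · intro x y s hx hy
    have h := hup x y s 1 hx hy (by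
      intro v
      have hle : ∀ z, K.In z s → K.co z v ≤ 1 := by
        intro z hz
        by_cases hv : v ∈ s
        · rw [← hsum z s hz]
          exact Finset.single_le_sum (fun w _ => K.co_nonneg z w) hv
        · rw [hz.2 v hv]
          exact zero_le_one
      have h1 := K.co_nonneg x v
      have h2 := K.co_nonneg y v
      have h3 := hle x hx
      have h4 := hle y hy
      rw [abs_le]
      constructor <;> linarith)
    rwa [mul_one] at h

end Pool.Agent.TD.EComplex
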