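import Pool.Agent.Lib.MP_98022b_td.EucLip
import Pool.Agent.Lib.MP_98022b_gln.ConeDefs

/-!
# Row E6: small covers

Let `N` be large, `h j = (j + 1) / (d + 3)` for `j : Fin (d + 2)`. For `j` and `a : V → ℤ` let `U j a` be the
set of the `x` with `a v < N * co x v + h j < a v + 1` for all `v`. It is open: for the finitely many `v` with
`co x v ≠ 0` by continuity, for the other ones `0 < h j < 1` gives a uniform margin and `co` is Lipschitz
with a constant which does not depend on `v`. Each `x` is in some `U j a`: a nonzero coordinate excludes at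
most one `j` (`N * co x v + h j` an integer), there are at most `d + 1` of them; for fixed `j` at most one
`a`: so the multiplicity is at most `d + 2`. Small: for `x, y` in `U j a` all `|co x v - co y v| ≤ 1 / N`; let
`s` be the set of the `v` with both coordinates positive (a face, as the sum of the coordinates of `x` over
`s` is at least `1 - (d + 1) / N > 0`); the points `x'`, `y'` of `s` with the coordinates `co x v / sum` are near
`x`, `y` and near each other (`exists_lip`).
-/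

set_option autoImplicit false

open Set Filter Topology

namespace Pool.Agent.TD.EComplex

variable {X V : Type} [MetricSpace X]

/-- restriction of a point to a face of its carrier -/
private theorem shrink {K : EComplex X V} {x : X} {sx s : Finset V} (hsx : sx ∈ K.faces)
    (hpos : ∀ v, 0 < K.co x v ↔ v ∈ sx) (hsum : ∑ v ∈ sx, K.co x v = 1) (hs : s ⊆ sx)
    (hne : s.Nonempty) : K.In x sx ∧ ∃ x', K.In x' s ∧ K.In x' sx ∧
      ∀ v, |K.co x v - K.co x' v| ≤ 1 - ∑ v ∈ s, K.co x v := by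
  classical
  have hxin : K.In x sx := ⟨hsx, fun v hv => le_antisymm (not_lt.1 fun h => hv ((hpos v).1 h)) (K.co_nonneg x v)⟩
  obtain ⟨σ, hσ⟩ : ∃ σ : ℝ, σ = ∑ v ∈ s, K.co x v := ⟨_, rfl⟩
  have hσ0 : 0 < σ := by
    rw [hσ]
    exact Finset.sum_pos (fun v hv => (hpos v).2 (hs hv)) hne
  have hσ1 : σ ≤ 1 := by
    rw [hσ, ← hsum]
    exact Finset.sum_le_sum_of_subset_of_nonneg hs fun v _ _ => K.co_nonneg x v
  have hsf : s ∈ K.faces := K.down sx hsx s hs hne
  obtain ⟨x', hx'⟩ := K.exists_pt s hsf (fun v => if v ∈ s then K.co x v / σ else 0)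
    (fun v => by
      split_ifs
      · exact div_nonneg (K.co_nonneg x v) hσ0.le
      · exact le_rfl)
    (fun v hv => if_neg hv)
    (by
      rw [Finset.sum_congr rfl (fun v hv => if_pos hv), ← Finset.sum_div, ← hσ, div_self hσ0.ne'])
  have hin' : K.In x' s := ⟨hsf, fun v hv => by rw [hx']; dsimp only; rw [if_neg hv]⟩
  refine ⟨hxin, x', hin', ⟨hsx, fun v hv => hin'.2 v fun h => hv (hs h)⟩, fun v => ?_⟩
  rw [← hσ, hx']
  dsimp only
  split_ifs with hv
  · have h1 : K.co x v ≤ σ := by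
      rw [hσ]
      exact Finset.single_le_sum (f := fun v => K.co x v) (fun w _ => K.co_nonneg x w) hv
    have h2 : K.co x v - K.co x v / σ = -(K.co x v / σ * (1 - σ)) := by
      field_simp
      ring
    rw [h2, abs_neg, abs_of_nonneg (mul_nonneg (div_nonneg (K.co_nonneg x v) hσ0.le) (by linarith))]
    have h3 : K.co x v / σ ≤ 1 := by rw [div_le_one hσ0]; exact h1
    nlinarith
  · rw [sub_zero, abs_of_nonneg (K.co_nonneg x v)]
    by_cases hvx : v ∈ sx
    · have h1 : σ + K.co x v ≤ 1 := by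
        rw [hσ, ← hsum, add_comm, ← Finset.sum_insert hv]
        apply Finset.sum_le_sum_of_subset_of_nonneg
        · intro w hw
          rcases Finset.mem_insert.1 hw with rfl | h
          · exact hvx
          · exact hs h
        · intro w _ _; exact K.co_nonneg x w
      linarith
    · rw [hxin.2 v hvx]; linarith

/-- the part of the carrier of `x` on which `y` is zero is light -/
private theorem light {K : EComplex X V} {x y : X} {sx s : Finset V} {d : ℕ} {N : ℝ} (hN : 0 < N)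
    (hcard : sx.card ≤ d + 1) (hsum : ∑ v ∈ sx, K.co x v = 1) (hs : s ⊆ sx)
    (hy : ∀ v ∈ sx, v ∉ s → K.co y v = 0) (hxy : ∀ v, |K.co x v - K.co y v| ≤ 1 / N) :
    1 - ∑ v ∈ s, K.co x v ≤ (d + 1) / N := by
  classical
  have h1 : 1 - ∑ v ∈ s, K.co x v = ∑ v ∈ sx \ s, K.co x v := by
    rw [← hsum, ← Finset.sum_sdiff hs]; ring
  rw [h1]
  have h2 : ∀ v ∈ sx \ s, K.co x v ≤ 1 / N := by
    intro v hv
    rw [Finset.mem_sdiff] at hv
    have := hxy v
    rw [hy v hv.1 hv.2, sub_zero] at this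
    exact (le_abs_self _).trans this
  refine (Finset.sum_le_sum h2).trans ?_
  rw [Finset.sum_const, nsmul_eq_mul]
  have h3 : (((sx \ s).card : ℕ) : ℝ) ≤ d + 1 := by
    exact_mod_cast (Finset.card_le_card Finset.sdiff_subset).trans hcard
  rw [mul_one_div]
  exact div_le_div_of_nonneg_right h3 hN.le

/-- points with close coordinates are close -/
private theorem close {K : EComplex X V} {L : ℝ} (hL : 1 ≤ L) {d : ℕ} (hd : ∀ s ∈ K.faces, s.card ≤ d + 1)
    (hnear : ∀ x y s (e : ℝ), K.In x s → K.In y s → (∀ v, |K.co x v - K.co y v| ≤ e) →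
        dist x y ≤ L * e) {N : ℝ} (hN : (d : ℝ) + 1 < N) {x y : X}
    (hxy : ∀ v, |K.co x v - K.co y v| ≤ 1 / N) : dist x y ≤ 5 * L * (d + 1) / N := by
  classical
  have hd0 : (0:ℝ) ≤ d := Nat.cast_nonneg d
  have hN0 : 0 < N := by linarith
  obtain ⟨sx, hsx, hpx, hsumx⟩ := K.carrier x
  obtain ⟨sy, hsy, hpy, hsumy⟩ := K.carrier y
  obtain ⟨s, hs⟩ : ∃ s : Finset V, s = sx ∩ sy := ⟨_, rfl⟩
  have hssx : s ⊆ sx := by rw [hs]; exact Finset.inter_subset_left
  have hssy : s ⊆ sy := by rw [hs]; exact Finset.inter_subset_right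
  have hxy' : ∀ v, |K.co y v - K.co x v| ≤ 1 / N := fun v => by rw [abs_sub_comm]; exact hxy v
  have z0 : ∀ (w : X) (t : Finset V), (∀ v, 0 < K.co w v ↔ v ∈ t) → ∀ v, v ∉ t → K.co w v = 0 :=
    fun w t h v hv => le_antisymm (not_lt.1 fun h' => hv ((h v).1 h')) (K.co_nonneg w v)
  have l1 := light (K := K) (x := x) (y := y) hN0 (hd sx hsx) hsumx hssx
    (fun v hv hvs => z0 y sy hpy v fun h => hvs (by rw [hs]; exact Finset.mem_inter.2 ⟨hv, h⟩)) hxy
  have l2 := light (K := K) (x := y) (y := x) hN0 (hd sy hsy) hsumy hssy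
    (fun v hv hvs => z0 x sx hpx v fun h => hvs (by rw [hs]; exact Finset.mem_inter.2 ⟨h, hv⟩)) hxy'
  have hne : s.Nonempty := by
    rw [Finset.nonempty_iff_ne_empty]
    intro h
    rw [h, Finset.sum_empty, sub_zero, le_div_iff₀ hN0] at l1
    linarith
  obtain ⟨hxin, x', hx's, hx'x, hx'⟩ := shrink hsx hpx hsumx hssx hne
  obtain ⟨hyin, y', hy's, hy'y, hy'⟩ := shrink hsy hpy hsumy hssy hne
  have d1 := hnear x x' sx _ hxin hx'x hx'
  have d2 := hnear y y' sy _ hyin hy'y hy'
  have d3 := hnear x' y' s ((1 - ∑ v ∈ s, K.co x v) + 1 / N + (1 - ∑ v ∈ s, K.co y v)) hx's hy's (by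
    intro v
    have e : K.co x' v - K.co y' v = -(K.co x v - K.co x' v) + (K.co x v - K.co y v) + (K.co y v - K.co y' v) := by ring
    rw [e]
    have t1 := abs_add_three (-(K.co x v - K.co x' v)) (K.co x v - K.co y v) (K.co y v - K.co y' v)
    rw [abs_neg] at t1
    linarith [hx' v, hy' v, hxy v])
  have d4 := dist_triangle4 x x' y' y
  rw [dist_comm y' y] at d4
  have e1 : 5 * L * (d + 1) / N = 5 * L * ((d + 1) / N) := by ring
  have e2 : 1 / N ≤ (d + 1) / N := div_le_div_of_nonneg_right (by linarith) hN0.le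
  have hL0 : 0 < L := by linarith
  have m1 := mul_le_mul_of_nonneg_left l1 hL0.le
  have m2 := mul_le_mul_of_nonneg_left l2 hL0.le
  have m3 := mul_le_mul_of_nonneg_left e2 hL0.le
  rw [e1]
  nlinarith

private noncomputable def hh (d : ℕ) (j : Fin (d + 2)) : ℝ := ((j : ℕ) + 1) / (d + 3)

private theorem hh_pos (d : ℕ) (j : Fin (d + 2)) : 0 < hh d j := by
  unfold hh; positivity

private theorem hh_lt (d : ℕ) (j : Fin (d + 2)) : hh d j < 1 := by
  unfold hh
  rw [div_lt_one (by positivity)]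
  have : ((j : ℕ) : ℝ) + 1 ≤ d + 2 := by exact_mod_cast j.2
  linarith

private theorem hh_inj (d : ℕ) {j j' : Fin (d + 2)} (h : hh d j = hh d j') : j = j' := by
  unfold hh at h
  rw [div_left_inj' (by positivity)] at h
  have h1 : ((j : ℕ) : ℝ) = (j' : ℕ) := by linarith
  exact Fin.ext (by exact_mod_cast h1)

private def UU (K : EComplex X V) (N : ℝ) (d : ℕ) (p : Fin (d + 2) × (V → ℤ)) : Set X :=
  {x | ∀ v, (p.2 v : ℝ) < N * K.co x v + hh d p.1 ∧ N * K.co x v + hh d p.1 < p.2 v + 1}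

private theorem isOpen_UU {K : EComplex X V} {L : ℝ} (hL : 1 ≤ L)
    (hlip : ∀ x y v, |K.co x v - K.co y v| ≤ L * dist x y) {N : ℝ} (hN : 0 < N) (d : ℕ)
    (p : Fin (d + 2) × (V → ℤ)) : IsOpen (UU K N d p) := by
  classical
  rw [Metric.isOpen_iff]
  intro x hx
  obtain ⟨sx, -, hpx, -⟩ := K.carrier x
  obtain ⟨μ, hμ⟩ : ∃ μ : V → ℝ, μ = fun v => min (N * K.co x v + hh d p.1 - p.2 v) (p.2 v + 1 - (N * K.co x v + hh d p.1)) :=
    ⟨_, rfl⟩
  have hμpos : ∀ v, 0 < μ v := by
    intro v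
    rw [hμ]
    exact lt_min (by linarith [(hx v).1]) (by linarith [(hx v).2])
  have h0 : 0 < min (hh d p.1) (1 - hh d p.1) := lt_min (hh_pos d p.1) (by linarith [hh_lt d p.1])
  -- uniform margin
  obtain ⟨m, hm0, hm⟩ : ∃ m : ℝ, 0 < m ∧ ∀ v, m ≤ μ v := by
    obtain ⟨m1, hm1, hm1'⟩ : ∃ m1 : ℝ, 0 < m1 ∧ ∀ v ∈ sx, m1 ≤ μ v := by
      rcases sx.eq_empty_or_nonempty with h | h
      · exact ⟨1, one_pos, fun v hv => by rw [h] at hv; exact absurd hv (Finset.notMem_empty v)⟩
      · obtain ⟨v0, hv0, hmin⟩ := sx.exists_min_image μ h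
        exact ⟨μ v0, hμpos v0, hmin⟩
    refine ⟨min m1 (min (hh d p.1) (1 - hh d p.1)), lt_min hm1 h0, fun v => ?_⟩
    by_cases hv : v ∈ sx
    · exact (min_le_left _ _).trans (hm1' v hv)
    · refine (min_le_right _ _).trans ?_
      have hv0 : K.co x v = 0 := le_antisymm (not_lt.1 fun h => hv ((hpx v).1 h)) (K.co_nonneg x v)
      have h1 := hx v
      rw [hv0, mul_zero, zero_add] at h1
      have h2 : p.2 v = 0 := by
        have h3 : (p.2 v : ℝ) < 1 := h1.1.trans (hh_lt d p.1)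
        have h4 : (0:ℝ) < p.2 v + 1 := (hh_pos d p.1).trans h1.2
        have h3' : p.2 v < 1 := by exact_mod_cast h3
        have h4' : 0 < p.2 v + 1 := by exact_mod_cast h4
        omega
      rw [hμ]
      simp only [hv0, h2, mul_zero, zero_add, Int.cast_zero, sub_zero]
      exact le_rfl
  refine ⟨m / (N * L), by positivity, fun y hy v => ?_⟩
  rw [Metric.mem_ball] at hy
  have hNL : 0 < N * L := by positivity
  rw [lt_div_iff₀ hNL] at hy
  have h1 := hlip y x v
  have h2 : N * |K.co y v - K.co x v| < m := by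
    have := mul_le_mul_of_nonneg_left h1 hN.le
    nlinarith
  have h3 := neg_abs_le (K.co y v - K.co x v)
  have h4 := le_abs_self (K.co y v - K.co x v)
  have h5 := hm v
  rw [hμ] at h5
  have h6 := h5.trans (min_le_left _ _)
  have h7 := h5.trans (min_le_right _ _)
  constructor <;> nlinarith

private theorem cover_UU {K : EComplex X V} {d : ℕ} (hd : ∀ s ∈ K.faces, s.card ≤ d + 1) (N : ℝ) (x : X) :
    ∃ p, x ∈ UU K N d p := by
  classical
  obtain ⟨sx, hsx, hpx, -⟩ := K.carrier x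
  have hz : ∀ v, v ∉ sx → K.co x v = 0 :=
    fun v hv => le_antisymm (not_lt.1 fun h => hv ((hpx v).1 h)) (K.co_nonneg x v)
  obtain ⟨j, hj⟩ : ∃ j : Fin (d + 2), ∀ v ∈ sx, ∀ n : ℤ, N * K.co x v + hh d j ≠ n := by
    by_contra hcon
    push Not at hcon
    choose v hv n hn using hcon
    obtain ⟨j, j', hjj, hvv⟩ := Fintype.exists_ne_map_eq_of_card_lt (fun j : Fin (d + 2) => (⟨v j, hv j⟩ : sx))
      (by
        rw [Fintype.card_coe, Fintype.card_fin]
        have := hd sx hsx
        omega)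
    have hvv' : v j = v j' := congrArg Subtype.val hvv
    have h1 := hn j
    have h2 := hn j'
    rw [hvv'] at h1
    have h3 : hh d j - hh d j' = ((n j - n j' : ℤ) : ℝ) := by push_cast; linarith
    have h4 := hh_pos d j
    have h5 := hh_pos d j'
    have h6 := hh_lt d j
    have h7 := hh_lt d j'
    have h8 : ((n j - n j' : ℤ) : ℝ) < 1 := by linarith
    have h9 : (-1 : ℝ) < ((n j - n j' : ℤ) : ℝ) := by linarith
    have h8' : n j - n j' < 1 := by exact_mod_cast h8
    have h9' : -1 < n j - n j' := by exact_mod_cast h9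
    have h10 : n j - n j' = 0 := by omega
    rw [h10, Int.cast_zero] at h3
    exact hjj (hh_inj d (by linarith))
  refine ⟨(j, fun v => ⌊N * K.co x v + hh d j⌋), fun v => ?_⟩
  have hne : (⌊N * K.co x v + hh d j⌋ : ℝ) ≠ N * K.co x v + hh d j := by
    by_cases hv : v ∈ sx
    · exact fun h => hj v hv _ h.symm
    · rw [hz v hv, mul_zero, zero_add]
      have h1 : ⌊hh d j⌋ = 0 := Int.floor_eq_zero_iff.2 ⟨(hh_pos d j).le, hh_lt d j⟩
      rw [h1, Int.cast_zero]
      exact (hh_pos d j).ne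
  exact ⟨lt_of_le_of_ne (Int.floor_le _) hne, Int.lt_floor_add_one _⟩

private theorem mult_UU {K : EComplex X V} {d : ℕ} (N : ℝ) (x : X) :
    {p | x ∈ UU K N d p}.encard ≤ (d + 1 : ℕ) + 1 := by
  have hinj : Set.InjOn Prod.fst {p | x ∈ UU K N d p} := by
    rintro ⟨j, a⟩ h ⟨j', a'⟩ h' hjj
    simp only at hjj
    subst hjj
    congr 1
    funext v
    have h1 := h v
    have h2 := h' v
    simp only at h1 h2
    have h3 : (a v : ℝ) < a' v + 1 := h1.1.trans h2.2
    have h4 : (a' v : ℝ) < a v + 1 := h2.1.trans h1.2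
    have h3' : a v < a' v + 1 := by exact_mod_cast h3
    have h4' : a' v < a v + 1 := by exact_mod_cast h4
    omega
  rw [← hinj.encard_image]
  refine (Set.encard_le_encard (Set.subset_univ _)).trans ?_
  rw [Set.encard_univ]
  simp
  norm_cast

theorem smallCovers_of_lip {K : EComplex X V} {L : ℝ} (hL : 1 ≤ L) {d : ℕ} (hd : ∀ s ∈ K.faces, s.card ≤ d + 1)
    (hlip : ∀ x y v, |K.co x v - K.co y v| ≤ L * dist x y)
    (hnear : ∀ x y s (e : ℝ), K.In x s → K.In y s → (∀ v, |K.co x v - K.co y v| ≤ e) →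
        dist x y ≤ L * e) : GLN.SmallCovers X (d + 1) := by
  intro ε hε
  obtain ⟨N, hN1, hN2⟩ : ∃ N : ℝ, (d : ℝ) + 1 < N ∧ 5 * L * (d + 1) / ε < N :=
    ⟨max ((d : ℝ) + 1) (5 * L * (d + 1) / ε) + 1, by linarith [le_max_left ((d : ℝ) + 1) (5 * L * (d + 1) / ε)],
      by linarith [le_max_right ((d : ℝ) + 1) (5 * L * (d + 1) / ε)]⟩
  have hN0 : 0 < N := by
    have : (0:ℝ) ≤ d := Nat.cast_nonneg d
    linarith
  refine ⟨Fin (d + 2) × (V → ℤ), UU K N d, isOpen_UU hL hlip hN0 d, ?_, ?_, fun x => mult_UU N x⟩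
  · rw [Set.eq_univ_iff_forall]
    intro x
    obtain ⟨p, hp⟩ := cover_UU hd N x
    exact Set.mem_iUnion.2 ⟨p, hp⟩
  · intro p x hx y hy
    have h1 := close hL hd hnear hN1 (x := x) (y := y) (by
      intro v
      have h2 := hx v
      have h3 := hy v
      rw [le_div_iff₀ hN0]
      have h4 : |K.co x v - K.co y v| * N = |(K.co x v - K.co y v) * N| := by
        rw [abs_mul, abs_of_pos hN0]
      rw [h4, abs_le]
      constructor <;> nlinarith)
    refine lt_of_le_of_lt h1 ?_
    rw [div_lt_iff₀ hε] at hN2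
    rw [div_lt_iff₀ hN0]
    linarith

theorem smallCovers [CompleteSpace X] {K : EComplex X V} (hX : IsCAT0 X) (hfin : K.lens.Finite) {d : ℕ}
    (hd : ∀ s ∈ K.faces, s.card ≤ d + 1) : GLN.SmallCovers X (d + 1) := by
  obtain ⟨L, hL, hlip, -, hnear⟩ := exists_lip hX hfin hd
  exact smallCovers_of_lip hL hd hlip hnear

end Pool.Agent.TD.EComplex
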