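import Pool.Agent.Lib.MP_98022b_td.FinalFace
import Pool.Agent.Lib.MP_98022b_td.EucCover
import Pool.Agent.Lib.MP_98022b_td.ConeMain1
import Pool.Agent.Lib.MP_98022b_td.Gauge1
import Pool.Agent.Lib.MP_98022b_gln.HullT
import Pool.Agent.Lib.MP_98022b_cc.MedMain
import Pool.Agent.Lib.MP_98022b_td.AsmQ
import Pool.Agent.Lib.MP_98022b_nd.Out

/-!
# Groups acting on finite dimensional CAT(0) complexes
-/

set_option autoImplicit false

open Set Filter Topology

open scoped Pointwise

namespace Pool.Agent.TD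

open Pool.Agent.GLN Pool.Agent.FJ Pool.Agent.FA

variable {Γ X V : Type} [Group Γ] [MetricSpace X] [MulAction Γ X] [MulAction Γ V]
  {K : EComplex X V}

/-- The distance of two faces. -/
noncomputable def dFace (h : IsSimplicial Γ K) (C C' : faceAct h) : ℕ := K.dF C.1 C'.1

/-- The discretization with the faces as states. -/
noncomputable def toFace (h : IsSimplicial Γ K) (G : Subgroup Γ) {L : ℝ}
    (hL : ∀ x y s, K.In x s → K.In y s → dist x y ≤ L) {P : Type}
    (Δ : DiscQ P G X X (fun x y => ⌊dist x y⌋₊) geo) :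
    DiscQ P G X (faceAct h) (dFace h) geo where
  st r w := ⟨K.vs (Δ.st r w), _, rfl⟩
  far := Δ.far
  st_smul g r w := by
    refine Subtype.ext ?_
    change K.vs (Δ.st r (g • w)) = (g : Γ) • K.vs (Δ.st r w)
    rw [Δ.st_smul]
    exact h.vs_smul (g : Γ) _
  far_smul := Δ.far_smul
  far_mono := Δ.far_mono
  far_dist := Δ.far_dist
  st_eq r e w w' hf hd := by
    refine Subtype.ext ?_
    change K.vs (Δ.st r w') = K.vs (Δ.st r w)
    rw [Δ.st_eq r e w w' hf hd]
  short := Δ.short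
  near := by
    obtain ⟨C, hC⟩ := Δ.near
    obtain ⟨N, hN⟩ := exists_nat_ge (2 * L + 1)
    refine ⟨C + N + 1, fun r r' w w' => ?_⟩
    obtain ⟨h1, h2⟩ := hC r r' w w'
    obtain ⟨h3, h4⟩ := EComplex.dF_vs_near hL (Δ.st r w) (Δ.st r' w')
    have h5 : (⌊dist (Δ.st r w) (Δ.st r' w')⌋₊ : ℝ) ≤ dist (Δ.st r w) (Δ.st r' w') :=
      Nat.floor_le dist_nonneg
    have h6 : dist (Δ.st r w) (Δ.st r' w') < ⌊dist (Δ.st r w) (Δ.st r' w')⌋₊ + 1 :=
      Nat.lt_floor_add_one _
    simp only [dFace]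
    push_cast
    constructor <;> linarith
  few := by
    obtain ⟨M, hM⟩ := Δ.few
    refine ⟨M, fun r x y n s h1 h2 h3 h4 h5 => hM r x y n s h1 h2 h3 h4 fun i hi heq => ?_⟩
    exact h5 i hi (Subtype.ext (congrArg K.vs heq))
  pairs := by
    obtain ⟨N, A, hp⟩ := Δ.pairs
    refine ⟨N, A, fun n hn => ?_⟩
    obtain ⟨r, δ, ε, h1, h2, h3, h4⟩ := hp n hn
    refine ⟨r, δ, ε, h1, h2, h3, fun x y hxy => ?_⟩
    obtain ⟨k, hk⟩ := h4 x y hxy
    refine ⟨k, ⟨fun s hs t ht hst he => Subtype.ext (congrArg K.vs (hk.const s hs t ht hst he)),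
      hk.gap⟩⟩

theorem stab_face {P : ∀ (G : Type) [Group G], Prop} (hP : IsFJClass P)
    (hv : ∀ v : V, P (MulAction.stabilizer Γ v)) {C : Set V} (hC : K.IsFace C) :
    P (MulAction.stabilizer Γ C) := by
  obtain ⟨⟨x, hx⟩, s, -, hs⟩ := hC
  have hfin : C.Finite := by
    rw [← hs]
    exact s.finite_toSet
  obtain ⟨h1, -⟩ := CCC.finiteIndex_of_orbit (F := MulAction.stabilizer Γ C) x hfin
    fun g => CCC.smul_mem_of_stab g.2 hx
  refine hP.of_finiteIndex _ h1 ?_
  refine hP.of_injective (((MulAction.stabilizer Γ C).subtype.comp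
    (MulAction.stabilizer (MulAction.stabilizer Γ C) x).subtype).codRestrict
      (MulAction.stabilizer Γ x) fun g => ?_) ?_ (hv x)
  · exact g.2
  · intro a b hab
    have h2 := congrArg (fun y : MulAction.stabilizer Γ x => (y : Γ)) hab
    exact Subtype.ext (Subtype.ext h2)

/-- A group acting by simplicial isometries on a complete CAT(0) Euclidean complex of finite
dimension with finitely many shapes is in a class of groups with the inheritance properties if the
stabilizers of the vertices are in the class, the chains of stabilizers of far finite sets of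
simplices have bounded length, and for such a stabilizer `J` and an element `t` which normalizes `J`
the group generated by `J` and `t` is in the class. -/
theorem mem_of_complex {P : ∀ (G : Type) [Group G], Prop} (hP : IsFJClassT P) [CompleteSpace X]
    [Nonempty X] (hX : IsCAT0 X) (hfin : K.lens.Finite) {d : ℕ}
    (hd : ∀ s ∈ K.faces, s.card ≤ d + 1) (hact : IsSimplicial Γ K) (k l : ℕ)
    (hv : ∀ v : V, P (MulAction.stabilizer Γ v))
    (hchain : ∀ T : ℕ → Set (Set V), (∀ i, (T i).Finite) → (∀ i, ∀ C ∈ T i, K.IsFace C) →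
      (∀ i, T i ⊆ T (i + 1)) →
      (∃ C ∈ T 0, ∃ C' ∈ T 0, ∀ u ∈ C, ∀ v ∈ C', (k : ℝ) ≤ dist (K.pos u) (K.pos v)) →
      ∃ i < l, fixingSubgroup Γ (T i) = fixingSubgroup Γ (T (i + 1)))
    (hnorm : ∀ T : Set (Set V), T.Finite → (∀ C ∈ T, K.IsFace C) →
      (∃ C ∈ T, ∃ C' ∈ T, ∀ u ∈ C, ∀ v ∈ C', (k : ℝ) ≤ dist (K.pos u) (K.pos v)) → ∀ t : Γ,
      (∀ j, j ∈ fixingSubgroup Γ T ↔ t * j * t⁻¹ ∈ fixingSubgroup Γ T) →
      P (fixingSubgroup Γ T ⊔ Subgroup.zpowers t : Subgroup Γ)) : P Γ := by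
  classical
  obtain ⟨L, -, -, hL, -⟩ := EComplex.exists_lip hX hfin hd
  obtain ⟨o⟩ := ‹Nonempty X›
  refine hP.toIsFJClass.locally fun S₀ => ?_
  obtain ⟨G, hG⟩ : ∃ G : Subgroup Γ, G = Subgroup.closure (S₀ : Set Γ) := ⟨_, rfl⟩
  refine ⟨G, fun x hx => hG ▸ Subgroup.subset_closure hx, ?_⟩
  have hfg : Group.FG G := by
    rw [hG]
    infer_instance
  have hactG : IsSimplicial G K :=
    ⟨fun g x y => hact.isom (g : Γ) x y, fun g x v => hact.co_smul (g : Γ) x v⟩
  have hfix : ∀ T : Set (faceAct hact),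
      fixingSubgroup Γ T = fixingSubgroup Γ (Subtype.val '' T : Set (Set V)) := by
    intro T
    ext g
    simp only [mem_fixingSubgroup_iff, Set.forall_mem_image]
    exact ⟨fun h C hC => congrArg Subtype.val (h C hC), fun h C hC => Subtype.ext (h hC)⟩
  have hface : ∀ C : faceAct hact, K.IsFace C.1 := by
    rintro ⟨_, x, rfl⟩
    exact K.isFace_vs x
  have hfar : ∀ C C' : faceAct hact, k ≤ dFace hact C C' →
      ∀ u ∈ C.1, ∀ v ∈ C'.1, (k : ℝ) ≤ dist (K.pos u) (K.pos v) := by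
    intro C C' hk u hu v hv'
    have h0 : (0 : ℝ) ≤ sInf {r | ∃ u ∈ C.1, ∃ v ∈ C'.1, r = dist (K.pos u) (K.pos v)} := by
      refine le_csInf ⟨_, u, hu, v, hv', rfl⟩ ?_
      rintro _ ⟨u, -, v, -, rfl⟩
      exact dist_nonneg
    have h1 : (k : ℝ) ≤ sInf {r | ∃ u ∈ C.1, ∃ v ∈ C'.1, r = dist (K.pos u) (K.pos v)} :=
      (Nat.cast_le.2 hk).trans (Nat.floor_le h0)
    refine h1.trans (csInf_le ⟨0, ?_⟩ ⟨u, hu, v, hv', rfl⟩)
    rintro _ ⟨u, -, v, -, rfl⟩
    exact dist_nonneg
  have hst : CCC.StabCond Γ (faceAct hact) (dFace hact) G (fun K => P K) k l := by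
    refine ⟨fun C K' hK => ?_, fun T hTf hTm hTk => ?_, fun T hT hfar' t ht K' hK => ?_⟩
    · refine hP.of_injective
        ((G.subtype.comp K'.subtype).codRestrict (MulAction.stabilizer Γ C.1)
          fun k => congrArg Subtype.val (hK k.1 k.2))
        (fun a b hab => by
          have h1 := congrArg (fun x : MulAction.stabilizer Γ C.1 => (x : Γ)) hab
          exact Subtype.ext (Subtype.ext h1)) (stab_face hP.toIsFJClass hv (hface C))
    · obtain ⟨C, hC, C', hC', hk⟩ := hTk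
      obtain ⟨i, hi, h⟩ := hchain (fun i => Subtype.val '' T i) (fun i => (hTf i).image _)
        (fun i D hD => by
          obtain ⟨D, -, rfl⟩ := hD
          exact hface D) (fun i => Set.image_mono (hTm i))
        ⟨C.1, ⟨C, hC, rfl⟩, C'.1, ⟨C', hC', rfl⟩, hfar C C' hk⟩
      exact ⟨i, hi, by rw [hfix, hfix]; exact h⟩
    · obtain ⟨C, hC, C', hC', hk⟩ := hfar'
      refine hP.of_injective
        ((G.subtype.comp K'.subtype).codRestrict (fixingSubgroup Γ T ⊔ Subgroup.zpowers t)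
          fun k => hK k.1 k.2)
        (fun a b hab => by
          have h1 := congrArg
            (fun x : (fixingSubgroup Γ T ⊔ Subgroup.zpowers t : Subgroup Γ) => (x : Γ)) hab
          exact Subtype.ext (Subtype.ext h1)) ?_
      rw [hfix T]
      refine hnorm (Subtype.val '' T) (hT.image _) ?_
        ⟨C.1, ⟨C, hC, rfl⟩, C'.1, ⟨C', hC', rfl⟩, hfar C C' hk⟩ t ?_
      · rintro _ ⟨D, -, rfl⟩
        exact hface D
      · rw [← hfix T]
        exact ht
  obtain ⟨Δ⟩ := ND.exists_discQ (Γ := G) hX K hfin hd hactG.co_smul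
  have hTR := transferReducible_of_discQ G hfg (fun g u v => hact.dF_smul g u.1 v.1)
    (fun K => P K) k l hst (toFace hact G hL Δ) o (2 * (d + 1) + 2) fun S hS => by
      have hb := bicomb_geo hX
      have hgs : ∀ (g : G) (x y : X) t, 0 ≤ t → t ≤ 1 → g • geo x y t = geo (g • x) (g • y) t :=
        fun g x y t h0 h1 => geo_map hX (hactG.isom g) x y h0 h1
      obtain ⟨η, -, h1, h2⟩ := coneData1 (o := o) hb hS hactG.isom hgs
      exact ⟨_, _, _, _, h2, gaugeNet hb hactG.isom hS h1,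
        coneOut1 h2 hS (EComplex.smallCovers hX hfin hd)⟩
  exact hP.transfer _ hTR fun _ h => h

end Pool.Agent.TD
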