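import Pool.Agent.Lib.MP_98022b_gln.ConeDefs

/-!
# CAT(0) spaces: definitions
-/

set_option autoImplicit false

open Set Filter Topology

namespace Pool.Agent.TD

/-- The inequality of Bruhat and Tits. A complete metric space has this property if and only if it
is a CAT(0) space. -/
def IsCAT0 (X : Type) [MetricSpace X] : Prop :=
  ∀ x y : X, ∃ m : X, ∀ z : X,
    dist z m ^ 2 ≤ dist z x ^ 2 / 2 + dist z y ^ 2 / 2 - dist x y ^ 2 / 4

open Classical in
/-- The point at distance `t * dist x y` from `x` on the geodesic from `x` to `y`. -/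
noncomputable def geo {X : Type} [MetricSpace X] (x y : X) (t : ℝ) : X :=
  if h : ∃ z, dist x z = t * dist x y ∧ dist z y = (1 - t) * dist x y then h.choose else x

/-- `γ` is a geodesic with unit speed on `[0, T]`. -/
def IsGeod {X : Type} [MetricSpace X] (γ : ℝ → X) (T : ℝ) : Prop :=
  ∀ s ∈ Icc 0 T, ∀ t ∈ Icc 0 T, dist (γ s) (γ t) = |s - t|

end Pool.Agent.TD
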