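import Pool.Agent.Lib.MP_98022b_td.CatDefs

/-!
# Geodesics of a complete CAT(0) space: existence (bisection) and uniqueness
-/

set_option autoImplicit false

open Set Filter Topology

namespace Pool.Agent.TD

variable {X : Type} [MetricSpace X]

theorem eq_of_dist_le (hX : IsCAT0 X) {x y z z' : X} {t : ℝ} (h0 : 0 ≤ t) (h1 : t ≤ 1)
    (hz : dist x z ≤ t * dist x y) (hz' : dist z y ≤ (1 - t) * dist x y)
    (hw : dist x z' ≤ t * dist x y) (hw' : dist z' y ≤ (1 - t) * dist x y) : z = z' := by
  by_contra hne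
  have hpos : 0 < dist z z' := dist_pos.2 hne
  obtain ⟨m, hm⟩ := hX z z'
  have hD : 0 ≤ dist x y := dist_nonneg
  have e1 := hm x
  have e2 := hm y
  have a1 : dist x z ^ 2 ≤ (t * dist x y) ^ 2 := pow_le_pow_left₀ dist_nonneg hz 2
  have a2 : dist x z' ^ 2 ≤ (t * dist x y) ^ 2 := pow_le_pow_left₀ dist_nonneg hw 2
  have a3 : dist y z ^ 2 ≤ ((1 - t) * dist x y) ^ 2 := by
    rw [dist_comm y z]
    exact pow_le_pow_left₀ dist_nonneg hz' 2
  have a4 : dist y z' ^ 2 ≤ ((1 - t) * dist x y) ^ 2 := by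
    rw [dist_comm y z']
    exact pow_le_pow_left₀ dist_nonneg hw' 2
  have b1 : dist x m < t * dist x y ∨ t * dist x y ≤ dist x m := lt_or_ge _ _
  have htD : 0 ≤ t * dist x y := mul_nonneg h0 hD
  have htD' : 0 ≤ (1 - t) * dist x y := mul_nonneg (by linarith) hD
  have c1 : dist x m < t * dist x y := by
    by_contra h
    push Not at h
    have := pow_le_pow_left₀ htD h 2
    nlinarith
  have c2 : dist y m < (1 - t) * dist x y := by
    by_contra h
    push Not at h
    have := pow_le_pow_left₀ htD' h 2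
    nlinarith
  have c3 := dist_triangle x m y
  rw [dist_comm m y] at c3
  linarith

theorem exists_geo_CE [CompleteSpace X] (hX : IsCAT0 X) (x y : X) {t : ℝ} (h0 : 0 ≤ t)
    (h1 : t ≤ 1) : ∃ z, dist x z = t * dist x y ∧ dist z y = (1 - t) * dist x y := by
  classical
  choose mid hmid using hX
  have hml : ∀ u v, dist u (mid u v) ≤ dist u v / 2 := by
    intro u v
    have h := hmid u v u
    rw [dist_self] at h
    have : dist u (mid u v) ^ 2 ≤ (dist u v / 2) ^ 2 := by nlinarith
    exact (pow_le_pow_iff_left₀ dist_nonneg (by positivity) two_ne_zero).1 this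
  have hmr : ∀ u v, dist (mid u v) v ≤ dist u v / 2 := by
    intro u v
    have h := hmid u v v
    rw [dist_self, dist_comm v u] at h
    have : dist (mid u v) v ^ 2 ≤ (dist u v / 2) ^ 2 := by
      rw [dist_comm]
      nlinarith
    exact (pow_le_pow_iff_left₀ dist_nonneg (by positivity) two_ne_zero).1 this
  set D := dist x y with hD
  have hD0 : 0 ≤ D := dist_nonneg
  -- the bisection
  let step : (X × X) × (ℝ × ℝ) → (X × X) × (ℝ × ℝ) := fun q =>
    if t ≤ (q.2.1 + q.2.2) / 2 then ((q.1.1, mid q.1.1 q.1.2), (q.2.1, (q.2.1 + q.2.2) / 2))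
    else ((mid q.1.1 q.1.2, q.1.2), ((q.2.1 + q.2.2) / 2, q.2.2))
  let q : ℕ → (X × X) × (ℝ × ℝ) := fun n => step^[n] ((x, y), (0, 1))
  have hq : ∀ n, q (n + 1) = step (q n) := fun n => Function.iterate_succ_apply' step n _
  have hinv : ∀ n, (q n).2.1 ≤ t ∧ t ≤ (q n).2.2 ∧ (q n).2.2 - (q n).2.1 = (1 / 2) ^ n ∧
      dist x (q n).1.1 ≤ (q n).2.1 * D ∧ dist (q n).1.1 (q n).1.2 ≤ (1 / 2) ^ n * D ∧
      dist (q n).1.2 y ≤ (1 - (q n).2.2) * D := by
    intro n
    induction n with
    | zero =>
      refine ⟨h0, h1, ?_, ?_, ?_, ?_⟩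
      · simp [q]
      · simp [q]
      · simp [q, hD]
      · simp [q]
    | succ n ih =>
      obtain ⟨i1, i2, i3, i4, i5, i6⟩ := ih
      have hl := hml (q n).1.1 (q n).1.2
      have hr := hmr (q n).1.1 (q n).1.2
      have hp : ((1 : ℝ) / 2) ^ (n + 1) = (1 / 2) ^ n / 2 := by ring
      rw [hq n]
      by_cases hc : t ≤ ((q n).2.1 + (q n).2.2) / 2
      · have he : step (q n) = (((q n).1.1, mid (q n).1.1 (q n).1.2),
            ((q n).2.1, ((q n).2.1 + (q n).2.2) / 2)) := if_pos hc
        rw [he]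
        refine ⟨i1, hc, ?_, i4, ?_, ?_⟩
        · simp only
          rw [hp, ← i3]
          ring
        · simp only
          rw [hp]
          linarith
        · simp only
          have := dist_triangle (mid (q n).1.1 (q n).1.2) (q n).1.2 y
          nlinarith
      · have he : step (q n) = ((mid (q n).1.1 (q n).1.2, (q n).1.2),
            (((q n).2.1 + (q n).2.2) / 2, (q n).2.2)) := if_neg hc
        push Not at hc
        rw [he]
        refine ⟨hc.le, i2, ?_, ?_, ?_, i6⟩
        · simp only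
          rw [hp, ← i3]
          ring
        · simp only
          have := dist_triangle x (q n).1.1 (mid (q n).1.1 (q n).1.2)
          nlinarith
        · simp only
          rw [hp]
          linarith
  have hcs : CauchySeq fun n => (q n).1.1 := by
    refine cauchySeq_of_le_geometric_two (C := 2 * D) fun n => ?_
    obtain ⟨i1, i2, i3, i4, i5, i6⟩ := hinv n
    have hl := hml (q n).1.1 (q n).1.2
    have h5 : dist (q n).1.1 (q (n + 1)).1.1 ≤ dist (q n).1.1 (q n).1.2 := by
      rw [hq n]
      by_cases hc : t ≤ ((q n).2.1 + (q n).2.2) / 2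
      · have he : step (q n) = (((q n).1.1, mid (q n).1.1 (q n).1.2),
            ((q n).2.1, ((q n).2.1 + (q n).2.2) / 2)) := if_pos hc
        rw [he]
        simp only [dist_self]
        exact dist_nonneg
      · have he : step (q n) = ((mid (q n).1.1 (q n).1.2, (q n).1.2),
            (((q n).2.1 + (q n).2.2) / 2, (q n).2.2)) := if_neg hc
        rw [he]
        simp only
        have : 0 ≤ dist (q n).1.1 (q n).1.2 := dist_nonneg
        linarith
    refine h5.trans (i5.trans (le_of_eq ?_))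
    rw [one_div, inv_pow]
    ring
  obtain ⟨z, hz⟩ := cauchySeq_tendsto_of_complete hcs
  have hpow : Tendsto (fun n : ℕ => ((1 : ℝ) / 2) ^ n) atTop (𝓝 0) :=
    tendsto_pow_atTop_nhds_zero_of_lt_one (by norm_num) (by norm_num)
  have hza : dist x z ≤ t * D := by
    refine le_of_tendsto (tendsto_const_nhds.dist hz) (Eventually.of_forall fun n => ?_)
    obtain ⟨i1, i2, i3, i4, i5, i6⟩ := hinv n
    exact i4.trans (mul_le_mul_of_nonneg_right i1 hD0)
  have hzb : dist z y ≤ (1 - t) * D := by
    have h2 : Tendsto (fun n : ℕ => (1 - t) * D + (1 / 2) ^ n * D) atTop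
        (𝓝 ((1 - t) * D + 0 * D)) := tendsto_const_nhds.add (hpow.mul_const D)
    rw [zero_mul, add_zero] at h2
    refine le_of_tendsto_of_tendsto (hz.dist tendsto_const_nhds) h2 (Eventually.of_forall fun n => ?_)
    obtain ⟨i1, i2, i3, i4, i5, i6⟩ := hinv n
    have := dist_triangle (q n).1.1 (q n).1.2 y
    simp only
    nlinarith
  have htri := dist_triangle x z y
  refine ⟨z, le_antisymm hza ?_, le_antisymm hzb ?_⟩
  · rw [← hD] at htri
    linarith
  · rw [← hD] at htri
    linarith

theorem geo_spec [CompleteSpace X] (hX : IsCAT0 X) (x y : X) {t : ℝ} (h0 : 0 ≤ t) (h1 : t ≤ 1) :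
    dist x (geo x y t) = t * dist x y ∧ dist (geo x y t) y = (1 - t) * dist x y := by
  have h := exists_geo_CE hX x y h0 h1
  rw [geo, dif_pos h]
  exact h.choose_spec

theorem geo_unique [CompleteSpace X] (hX : IsCAT0 X) {x y z : X} {t : ℝ} (h0 : 0 ≤ t) (h1 : t ≤ 1)
    (hz : dist x z ≤ t * dist x y) (hz' : dist z y ≤ (1 - t) * dist x y) : z = geo x y t :=
  eq_of_dist_le hX h0 h1 hz hz' (geo_spec hX x y h0 h1).1.le (geo_spec hX x y h0 h1).2.le

end Pool.Agent.TD
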