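import Pool.Agent.Lib.MP_98022b_td.ConeAct1

/-!
# The cone space: the parameters
-/

set_option autoImplicit false
set_option linter.unusedSectionVars false

open Set Filter Topology

namespace Pool.Agent.TD

open Pool.Agent.FA Pool.Agent.GLN Pool.Agent.GLN.Cn

variable {G : Type} [Group G] {S : Finset G} {B : Type} [MetricSpace B] [MulAction G B]
  {geo : B → B → ℝ → B} {o : B} {F : ℕ → B → ℝ} {L R η : ℝ}

namespace ConeData1

variable (hd : ConeData1 G S B geo o F L R η)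

include hd

/-- The weights. -/
theorem mul_sum_le {q : ℝ} (hq : 0 ≤ q) (m : ℕ) (y : B) :
    F m y * ∑ j ∈ Finset.range m, q ^ j ≤ ∑ j ∈ Finset.range m, q ^ j * F j y := by
  rw [Finset.mul_sum]
  refine Finset.sum_le_sum fun j hj => ?_
  rw [mul_comm]
  exact mul_le_mul_of_nonneg_left (hd.anti' (Finset.mem_range.1 hj).le y) (pow_nonneg hq j)

theorem mul_sum_le' {q : ℝ} (hq : 0 ≤ q) (m : ℕ) (y : B) :
    F m y * ∑ j ∈ Finset.range (m + 1), q ^ j ≤ ∑ j ∈ Finset.range (m + 1), q ^ j * F j y := by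
  rw [Finset.mul_sum]
  refine Finset.sum_le_sum fun j hj => ?_
  rw [mul_comm]
  exact mul_le_mul_of_nonneg_left (hd.anti' (Finset.mem_range_succ_iff.1 hj) y) (pow_nonneg hq j)

theorem mul_succ_le {q : ℝ} (hq : 1 ≤ q) (m : ℕ) (y : B) :
    F m y * (m + 1) ≤ ∑ j ∈ Finset.range (m + 1), q ^ j * F j y := by
  refine le_trans (mul_le_mul_of_nonneg_left ?_ (hd.nonneg m y))
    (hd.mul_sum_le' (zero_le_one.trans hq) m y)
  calc (m : ℝ) + 1 = ∑ _j ∈ Finset.range (m + 1), (1 : ℝ) := by simp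
    _ ≤ ∑ j ∈ Finset.range (m + 1), q ^ j :=
      Finset.sum_le_sum fun j _ => one_le_pow₀ hq

theorem continuous_F (hL : 0 ≤ L) (m : ℕ) : Continuous (F m) := by
  have h : LipschitzWith (Real.toNNReal L) (F m) := by
    refine LipschitzWith.of_dist_le_mul fun x y => ?_
    rw [Real.coe_toNNReal _ hL, Real.dist_eq]
    exact hd.lip m x y
  exact h.continuous

theorem small {q Θ : ℝ} (hq : 1 ≤ q) (hΘ : 0 ≤ Θ) : Small o F q Θ := by
  intro ε hε
  obtain ⟨m, hm⟩ := exists_nat_gt (4 * Θ / ε)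
  have hm' : 4 * Θ < ε * (m + 1) := by
    rw [div_lt_iff₀ hε] at hm
    nlinarith
  have hm1 : (0 : ℝ) < m + 1 := by positivity
  have hR : 0 < 2 * (|R| * (m + 1) + 1) := by positivity
  refine ⟨ε / (2 * (|R| * (m + 1) + 1)), div_pos hε hR, fun z hz => ?_⟩
  have h1 := hd.radius m z.x
  have h2 : R * (m + 1) ≤ |R| * (m + 1) + 1 :=
    (mul_le_mul_of_nonneg_right (le_abs_self R) hm1.le).trans (le_add_of_nonneg_right zero_le_one)
  have h3 : z.c * (|R| * (m + 1) + 1) < ε / 2 := by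
    rw [lt_div_iff₀ hR] at hz
    linarith
  have h4 : z.c * F m z.x * (m + 1) ≤ Θ := by
    rcases z.c_nonneg.eq_or_lt with h | h
    · rw [← h, zero_mul, zero_mul]
      exact hΘ
    · refine le_trans ?_ (z.sum_le h (m + 1))
      rw [mul_assoc]
      exact mul_le_mul_of_nonneg_left (hd.mul_succ_le hq m z.x) h.le
  have h5 : z.c * F m z.x < ε / 4 := by
    by_contra hcon
    push Not at hcon
    have := mul_le_mul_of_nonneg_right hcon hm1.le
    linarith
  have h6 := mul_le_mul_of_nonneg_left h1 z.c_nonneg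
  have h7 := mul_le_mul_of_nonneg_left h2 z.c_nonneg
  linarith

theorem exists_compact {q Θ : ℝ} (hq : 1 ≤ q) {ε : ℝ} (hε : 0 < ε) :
    ∃ K : Set B, IsCompact K ∧ ∀ z : Cn o F q Θ, ε ≤ z.c → z.x ∈ K := by
  refine ⟨{x | ∀ m : ℕ, F m x ≤ Θ / ε / (m + 1)}, hd.compact _ ?_, fun z hz m => ?_⟩
  · exact tendsto_const_div_atTop_nhds_zero_nat (Θ / ε) |>.comp (tendsto_add_atTop_nat 1) |>.congr
      fun m => by simp
  · have hm1 : (0 : ℝ) < m + 1 := by positivity
    rw [le_div_iff₀ hm1, le_div_iff₀ hε]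
    have h := z.sum_le (hε.trans_le hz) (m + 1)
    have h2 := hd.mul_succ_le hq m z.x
    have h3 : 0 ≤ F m z.x * (m + 1) := mul_nonneg (hd.nonneg m _) hm1.le
    calc F m z.x * (m + 1) * ε ≤ F m z.x * (m + 1) * z.c := mul_le_mul_of_nonneg_left hz h3
      _ = z.c * (F m z.x * (m + 1)) := mul_comm _ _
      _ ≤ z.c * ∑ j ∈ Finset.range (m + 1), q ^ j * F j z.x :=
        mul_le_mul_of_nonneg_left h2 z.c_nonneg
      _ ≤ Θ := h

end ConeData1

/-! ### The choice of the parameters -/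

/-- The values of the gauges at the points of the cone. -/
theorem c_F_le (hd : ConeData1 G S B geo o F L R η) {q Θ : ℝ} (hq : 1 ≤ q) (hΘ : 0 ≤ Θ) (m : ℕ)
    (z : Cn o F q Θ) : z.c * F m z.x * (m + 1) ≤ Θ := by
  rcases z.c_nonneg.eq_or_lt with h | h
  · rw [← h, zero_mul, zero_mul]
    exact hΘ
  · refine le_trans ?_ (z.sum_le h (m + 1))
    rw [mul_assoc]
    exact mul_le_mul_of_nonneg_left (hd.mul_succ_le hq m z.x) h.le

/-- The radius of the image of the control map. -/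
theorem radius_le1 (hd : ConeData1 G S B geo o F L R η) {D : ℕ} (hD : 0 < D)
    (z : Cn o F 1 ((D : ℝ) ^ 2)) : z.c * dist o z.x ≤ (|R| + 2) * D := by
  have hD' : (0 : ℝ) < D := Nat.cast_pos.2 hD
  obtain ⟨m, rfl⟩ : ∃ m, D = m + 1 := ⟨D - 1, by omega⟩
  have h1 := mul_le_mul_of_nonneg_left (hd.radius m z.x) z.c_nonneg
  have h2 := c_F_le hd le_rfl (by positivity) m z
  have h3 : z.c * F m z.x ≤ ((m + 1 : ℕ) : ℝ) := by
    push_cast at h2 hD' ⊢
    refine le_of_mul_le_mul_right ?_ hD'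
    rw [← sq]
    exact h2
  have h4 : z.c * (R * ((m : ℝ) + 1)) ≤ |R| * ((m + 1 : ℕ) : ℝ) := by
    push_cast
    have h5 : R * ((m : ℝ) + 1) ≤ |R| * ((m : ℝ) + 1) :=
      mul_le_mul_of_nonneg_right (le_abs_self R) (by positivity)
    have h6 : 0 ≤ |R| * ((m : ℝ) + 1) := by positivity
    calc z.c * (R * ((m : ℝ) + 1)) ≤ z.c * (|R| * ((m : ℝ) + 1)) :=
          mul_le_mul_of_nonneg_left h5 z.c_nonneg
      _ ≤ |R| * ((m : ℝ) + 1) := mul_le_of_le_one_left h6 z.c_le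
  linarith

theorem exists_par1 (hd : ConeData1 G S B geo o F L R η) (hL : 0 ≤ L) (hη : 0 ≤ η) :
    ∃ C2 C4 : ℝ, 1 ≤ C2 ∧ 0 ≤ C4 ∧ ∀ D : ℕ, 2 * C2 ≤ D →
      ConePar o F L η 1 ((D : ℝ) ^ 2) (C2 / D) (C4 * D) := by
  have hR := abs_nonneg R
  set C2 : ℝ := 12 * L * (|R| + 2 + 2 * η) + 1 with hC2
  have hC21 : 1 ≤ C2 := by
    have : 0 ≤ 12 * L * (|R| + 2 + 2 * η) := by positivity
    linarith
  refine ⟨C2, |R| + 2, hC21, by positivity, fun D hD => ?_⟩
  have hD1 : (1 : ℝ) ≤ D := by linarith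
  have hD' : (0 : ℝ) < D := by linarith
  have hD0 : 0 < D := by exact_mod_cast hD'
  refine ⟨le_rfl, by positivity, ?_, by positivity, radius_le1 hd hD0, ?_⟩
  · rw [div_le_iff₀ hD']
    linarith
  · have h1 : C2 / D / 2 * (D : ℝ) ^ 2 = C2 / 2 * D := by
      field_simp
    have h2 : L * ((|R| + 2) * D + 2 * η) ≤ L * ((|R| + 2 + 2 * η) * D) := by
      refine mul_le_mul_of_nonneg_left ?_ hL
      have h3 : 2 * η ≤ 2 * η * D := le_mul_of_one_le_right (by positivity) hD1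
      linarith
    have h3 : 12 * (L * ((|R| + 2 + 2 * η) * D)) = (C2 - 1) * D := by
      rw [hC2]
      ring
    have h4 : (1 : ℝ) ^ 6 * ((1 - C2 / D / 2) * (D : ℝ) ^ 2) = (D : ℝ) ^ 2 - C2 / 2 * D := by
      rw [sub_mul, h1]
      ring
    rw [h4, one_pow]
    linarith

end Pool.Agent.TD
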