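import Pool.Agent.Lib.MP_98022b_td.EucDefs
import Pool.Agent.Lib.MP_98022b_td.IfaceQ

/-!
# Simplicial actions on Euclidean complexes: definitions
-/

set_option autoImplicit false

open Set Filter Topology

open scoped Pointwise

namespace Pool.Agent.TD

/-- The group `Γ` acts by simplicial isometries. -/
structure IsSimplicial (Γ : Type) [Group Γ] {X V : Type} [MetricSpace X] [MulAction Γ X]
    [MulAction Γ V] (K : EComplex X V) : Prop where
  isom : ∀ (g : Γ) (x y : X), dist (g • x) (g • y) = dist x y
  co_smul : ∀ (g : Γ) (x : X) (v : V), K.co (g • x) (g • v) = K.co x v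

namespace EComplex

variable {X V : Type} [MetricSpace X] (K : EComplex X V)

/-- `C` is the set of the vertices of a simplex. -/
def IsFace (C : Set V) : Prop := C.Nonempty ∧ ∃ s ∈ K.faces, (s : Set V) = C

/-- The set of the vertices of the open simplex which contains `x`. -/
def vs (x : X) : Set V := {v | 0 < K.co x v}

/-- The distance of two sets of vertices, rounded down. -/
noncomputable def dF (C C' : Set V) : ℕ :=
  ⌊sInf {r | ∃ u ∈ C, ∃ v ∈ C', r = dist (K.pos u) (K.pos v)}⌋₊

end EComplex

end Pool.Agent.TD
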