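import Pool.Agent.Lib.MP_98022b_td.FinalDefs
import Pool.Agent.Lib.MP_98022b_td.EucLip

/-!
# The set of the faces as the space of the states
-/

set_option autoImplicit false

open Set Filter Topology

open scoped Pointwise

namespace Pool.Agent.TD

open Pool.Agent.GLN

variable {Γ X V : Type} [Group Γ] [MetricSpace X] [MulAction Γ X] [MulAction Γ V]
  {K : EComplex X V}

theorem IsSimplicial.co_smul' (h : IsSimplicial Γ K) (g : Γ) (x : X) (v : V) :
    K.co (g • x) v = K.co x (g⁻¹ • v) := by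
  conv_lhs => rw [← smul_inv_smul g v]
  exact h.co_smul g x _

theorem IsSimplicial.vs_smul (h : IsSimplicial Γ K) (g : Γ) (x : X) :
    K.vs (g • x) = g • K.vs x := by
  ext v
  rw [Set.mem_smul_set_iff_inv_smul_mem]
  simp only [EComplex.vs, Set.mem_ofPred_eq, h.co_smul']

theorem EComplex.pos_co_ne (K : EComplex X V) {u v : V} (h : v ≠ u) : K.co (K.pos u) v = 0 := by
  classical
  obtain ⟨s, -, h1, h2⟩ := K.carrier (K.pos u)
  have hu : u ∈ s := (h1 u).1 (by rw [K.pos_co]; exact one_pos)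
  by_contra hne
  have hv : v ∈ s := (h1 v).1 (lt_of_le_of_ne (K.co_nonneg _ _) (Ne.symm hne))
  have h3 : ∑ w ∈ {u, v}, K.co (K.pos u) w ≤ ∑ w ∈ s, K.co (K.pos u) w := by
    refine Finset.sum_le_sum_of_subset_of_nonneg ?_ fun _ _ _ => K.co_nonneg _ _
    intro w hw
    rcases Finset.mem_insert.1 hw with rfl | hw
    · exact hu
    · rw [Finset.mem_singleton.1 hw]
      exact hv
  rw [h2, Finset.sum_pair (Ne.symm h), K.pos_co] at h3
  have h4 : 0 < K.co (K.pos u) v := (h1 v).2 hv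
  linarith

theorem IsSimplicial.pos_smul (h : IsSimplicial Γ K) (g : Γ) (u : V) :
    K.pos (g • u) = g • K.pos u := by
  refine K.inj _ _ (funext fun v => ?_)
  rw [h.co_smul']
  by_cases hv : v = g • u
  · subst hv
    rw [K.pos_co, inv_smul_smul, K.pos_co]
  · rw [K.pos_co_ne hv, K.pos_co_ne]
    rintro rfl
    exact hv (smul_inv_smul g v).symm

theorem EComplex.isFace_vs (K : EComplex X V) (x : X) : K.IsFace (K.vs x) := by
  obtain ⟨s, hs, h1, h2⟩ := K.carrier x
  have h3 : (s : Set V) = K.vs x := by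
    ext v
    exact (h1 v).symm
  refine ⟨?_, s, hs, h3⟩
  rw [← h3]
  by_contra hne
  rw [Set.not_nonempty_iff_eq_empty, Finset.coe_eq_empty] at hne
  rw [hne, Finset.sum_empty] at h2
  exact zero_ne_one h2

theorem IsSimplicial.dF_smul (h : IsSimplicial Γ K) (g : Γ) (C C' : Set V) :
    K.dF (g • C) (g • C') = K.dF C C' := by
  unfold EComplex.dF
  congr 2
  ext r
  constructor
  · rintro ⟨u, ⟨u, hu, rfl⟩, v, ⟨v, hv, rfl⟩, rfl⟩
    refine ⟨u, hu, v, hv, ?_⟩
    simp only [h.pos_smul, h.isom]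
  · rintro ⟨u, hu, v, hv, rfl⟩
    refine ⟨g • u, Set.smul_mem_smul_set hu, g • v, Set.smul_mem_smul_set hv, ?_⟩
    rw [h.pos_smul, h.pos_smul, h.isom]

/-- The `Γ`-set of the faces. -/
def faceAct (h : IsSimplicial Γ K) : SubMulAction Γ (Set V) where
  carrier := Set.range K.vs
  smul_mem' := by
    rintro g _ ⟨x, rfl⟩
    exact ⟨g • x, h.vs_smul g x⟩

/-- The distance of the vertex sets is near the distance of the points. -/
theorem EComplex.dF_vs_near {L : ℝ} (hL : ∀ x y s, K.In x s → K.In y s → dist x y ≤ L) (x y : X) :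
    (K.dF (K.vs x) (K.vs y) : ℝ) ≤ dist x y + (2 * L + 1) ∧
      dist x y ≤ K.dF (K.vs x) (K.vs y) + (2 * L + 1) := by
  have hpos : ∀ x : X, ∀ u ∈ K.vs x, dist x (K.pos u) ≤ L := by
    intro x u hu
    obtain ⟨s, hs, h1, -⟩ := K.carrier x
    refine hL x _ s ⟨hs, fun v hv => ?_⟩ ⟨hs, fun v hv => ?_⟩
    · by_contra hne
      exact hv ((h1 v).1 (lt_of_le_of_ne (K.co_nonneg _ _) (Ne.symm hne)))
    · refine K.pos_co_ne ?_
      rintro rfl
      exact hv ((h1 v).1 hu)
  set R : Set ℝ := {r | ∃ u ∈ K.vs x, ∃ v ∈ K.vs y, r = dist (K.pos u) (K.pos v)} with hR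
  obtain ⟨u, hu⟩ := (K.isFace_vs x).1
  obtain ⟨v, hv⟩ := (K.isFace_vs y).1
  have hne : R.Nonempty := ⟨_, u, hu, v, hv, rfl⟩
  have h0 : 0 ≤ sInf R := by
    refine le_csInf hne ?_
    rintro _ ⟨u, -, v, -, rfl⟩
    exact dist_nonneg
  have hbdd : BddBelow R := ⟨0, by
    rintro _ ⟨u, -, v, -, rfl⟩
    exact dist_nonneg⟩
  have h1 : sInf R ≤ dist x y + 2 * L := by
    refine (csInf_le hbdd ⟨u, hu, v, hv, rfl⟩).trans ?_
    have a1 := hpos x u hu
    have a2 := hpos y v hv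
    have a3 := dist_triangle4 (K.pos u) x y (K.pos v)
    rw [dist_comm (K.pos u) x] at a3
    linarith
  have h2 : dist x y - 2 * L ≤ sInf R := by
    refine le_csInf hne ?_
    rintro _ ⟨u, hu, v, hv, rfl⟩
    have a1 := hpos x u hu
    have a2 := hpos y v hv
    have a3 := dist_triangle4 x (K.pos u) (K.pos v) y
    rw [dist_comm (K.pos v) y] at a3
    linarith
  have h3 : (K.dF (K.vs x) (K.vs y) : ℝ) ≤ sInf R := Nat.floor_le h0
  have h4 : sInf R < K.dF (K.vs x) (K.vs y) + 1 := Nat.lt_floor_add_one _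
  constructor
  · linarith
  · linarith

end Pool.Agent.TD
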