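import Pool.Agent.Lib.MP_98022b_gln.SeqMarks

/-!
# Marks with very small radius: any number of reductions

`kapI j` is the radius of the marks with `j` reductions (`kapI 4 = kap4`), `tow j x` is the tower
of height `j` over `x`.
-/

set_option autoImplicit false

open Set

namespace Pool.Agent.TD

open Pool.Agent.GT (redB exists_red exists_greedy)
open Pool.Agent.GLN (log_redB redB_mono exists_t')

/-- The tower of height `j` over `x`. -/
def tow : ℕ → ℕ → ℕ
  | 0, x => x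
  | j + 1, x => 2 ^ tow j x

/-- `j` reductions of `Q`. -/
def redI (M : ℕ) : ℕ → ℕ → ℕ
  | 0, Q => Q
  | j + 1, Q => redI M j (redB M Q)

/-- The radius of the marks with `j` reductions. -/
def kapI (j R Q : ℕ) : ℕ := j * R + R * redI (2 * R + 1) j Q

theorem redI_mono {M j Q Q' : ℕ} (h : Q ≤ Q') : redI M j Q ≤ redI M j Q' := by
  induction j generalizing Q Q' with
  | zero => exact h
  | succ j ih => exact ih (redB_mono h)

theorem kapI_mono {j R Q Q' : ℕ} (h : Q ≤ Q') : kapI j R Q ≤ kapI j R Q' := by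
  unfold kapI
  have := Nat.mul_le_mul_left R (redI_mono (M := 2 * R + 1) (j := j) h)
  omega

theorem kapI_four (R Q : ℕ) : kapI 4 R Q = 4 * R + R * redB (2 * R + 1) (redB (2 * R + 1)
    (redB (2 * R + 1) (redB (2 * R + 1) Q))) := rfl

private theorem marks_aux (R : ℕ) (hR : 0 < R) (j : ℕ) : ∀ Q : ℕ,
    ∃ F : ((Unit → ℤ) → ℕ) → (Unit → ℤ) → Prop, GT.IsRule F (kapI j R Q) ∧
      ∀ c, (∀ n, c n ≤ Q) →
        (∀ n n' : Unit → ℤ, (∀ i, |n' i - n i| < R) → F c n → F c n' → c n = c n') ∧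
        ∀ n : Unit → ℤ, ∃ n', (∀ i, |n' i - n i| < R) ∧ F c n' := by
  have hcard : ∀ M : ℕ, M ^ Nat.card Unit = M := by simp
  induction j with
  | zero =>
    intro Q
    obtain ⟨F, hF, hF2⟩ := exists_greedy Unit R hR Q
    refine ⟨F, ?_, hF2⟩
    have : kapI 0 R Q = R * Q := by
      unfold kapI redI
      ring
    rw [this]
    exact hF
  | succ j ih =>
    intro Q
    obtain ⟨r, hr, hrb, hrc⟩ := exists_red Unit R Q
    rw [hcard] at hrb
    obtain ⟨F, hF, hF2⟩ := ih (redB (2 * R + 1) Q)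
    refine ⟨fun c => F (r c), ?_, fun c hc => ?_⟩
    · have h1 := GT.IsRule.comp hr hF
      have h2 : R + kapI j R (redB (2 * R + 1) Q) = kapI (j + 1) R Q := by
        unfold kapI
        show _ = (j + 1) * R + R * redI (2 * R + 1) j (redB (2 * R + 1) Q)
        ring
      rw [← h2]
      exact h1
    · have hb := hrb c hc
      obtain ⟨h1, h2⟩ := hF2 (r c) hb
      refine ⟨fun n n' hn hFn hFn' => ?_, h2⟩
      have h3 := h1 n n' hn hFn hFn'
      by_contra hne
      exact hrc c hc n n' (fun i => (hn i).le) hne h3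

/-- Marks with `j` reductions. -/
theorem exists_marksI (j R : ℕ) (hR : 0 < R) (Q : ℕ) :
    ∃ F : (ℤ → ℕ) → ℤ → Prop, GLN.IsRule F (kapI j R Q) ∧
      ∀ c, (∀ n, c n ≤ Q) →
        (∀ n n' : ℤ, |n' - n| < R → F c n → F c n' → c n = c n') ∧
        ∀ n : ℤ, ∃ n', |n' - n| < R ∧ F c n' := by
  obtain ⟨F, hF, hF2⟩ := marks_aux R hR j Q
  refine ⟨fun c n => F (fun m => c (m ())) (fun _ => n), ?_, fun c hc => ?_⟩
  · intro c c' n n' h
    refine hF (fun m => c (m ())) (fun m => c' (m ())) (fun _ => n) (fun _ => n') fun δ hδ => ?_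
    exact h (δ ()) (hδ ())
  · obtain ⟨h1, h2⟩ := hF2 (fun m : Unit → ℤ => c (m ())) (fun n => hc _)
    refine ⟨fun n n' hn hFn hFn' => h1 (fun _ => n) (fun _ => n') (fun _ => hn) hFn hFn',
      fun n => ?_⟩
    obtain ⟨n', hn', hFn'⟩ := h2 (fun _ => n)
    refine ⟨n' (), hn' (), ?_⟩
    have : (fun _ : Unit => n' ()) = n' := funext fun _ => rfl
    show F _ (fun _ => n' ())
    rw [this]
    exact hFn'

/-! ### The parameters -/

theorem tow_pos (j x : ℕ) : 1 ≤ tow (j + 1) x := Nat.one_le_two_pow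

theorem tow_mono {j x y : ℕ} (h : x ≤ y) : tow j x ≤ tow j y := by
  induction j with
  | zero => exact h
  | succ j ih => exact Nat.pow_le_pow_right (by norm_num) ih

theorem tow_add_one (j x : ℕ) : tow j x + 1 ≤ tow j (x + 1) := by
  induction j with
  | zero => exact le_rfl
  | succ j ih =>
    have h1 : 2 ^ (tow j x + 1) ≤ tow (j + 1) (x + 1) := Nat.pow_le_pow_right (by norm_num) ih
    have h2 : tow (j + 1) x = 2 ^ tow j x := rfl
    have h3 : 1 ≤ 2 ^ tow j x := Nat.one_le_two_pow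
    rw [pow_succ] at h1
    omega

theorem mul_tow_le (j x c : ℕ) : 2 ^ c * tow (j + 1) x ≤ tow (j + 1) (x + c) := by
  induction c with
  | zero => simp
  | succ c ih =>
    have h1 : 2 * tow (j + 1) (x + c) ≤ tow (j + 1) (x + (c + 1)) := by
      have h2 := tow_add_one j (x + c)
      have h3 : 2 ^ (tow j (x + c) + 1) ≤ 2 ^ tow j (x + c + 1) :=
        Nat.pow_le_pow_right (by norm_num) h2
      have h4 : tow (j + 1) (x + (c + 1)) = 2 ^ tow j (x + c + 1) := rfl
      have h5 : tow (j + 1) (x + c) = 2 ^ tow j (x + c) := rfl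
      rw [h4, h5]
      rw [pow_succ] at h3
      omega
    calc 2 ^ (c + 1) * tow (j + 1) x = 2 * (2 ^ c * tow (j + 1) x) := by ring
      _ ≤ 2 * tow (j + 1) (x + c) := Nat.mul_le_mul_left _ ih
      _ ≤ _ := h1

/-- The reduction of a number with a large tower. -/
private theorem step_tow {M j x Q : ℕ} (h : Nat.log 2 Q ≤ tow (j + 2) x) :
    Nat.log 2 (redB M Q) ≤ tow (j + 1) (x + (M + 2)) := by
  obtain ⟨T, hT⟩ : ∃ T, T = tow (j + 1) x := ⟨_, rfl⟩
  have hT1 : 1 ≤ T := hT ▸ tow_pos j x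
  have h1 : Nat.log 2 Q + 1 ≤ 2 ^ (T + 1) := by
    have h2 : tow (j + 2) x = 2 ^ T := by rw [hT]; rfl
    have h3 : 1 ≤ 2 ^ T := Nat.one_le_two_pow
    rw [h2] at h
    rw [pow_succ]
    omega
  have h2 : Nat.log 2 (redB M Q) ≤ M * (T + 3) := by
    refine (log_redB _ _).trans (Nat.mul_le_mul_left _ ?_)
    have := Nat.log_mono_right (b := 2) h1
    rw [Nat.log_pow (by norm_num)] at this
    omega
  have h3 : M * (T + 3) ≤ 2 ^ (M + 2) * T := by
    have h4 : M ≤ 2 ^ M := Nat.lt_two_pow_self.le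
    have h5 : T + 3 ≤ 4 * T := by omega
    calc M * (T + 3) ≤ 2 ^ M * (4 * T) := Nat.mul_le_mul h4 h5
      _ = 2 ^ (M + 2) * T := by
          rw [pow_add]
          ring
  refine h2.trans (h3.trans ?_)
  rw [hT]
  exact mul_tow_le j x (M + 2)

/-- The reduction of a number with an exponential logarithm. -/
private theorem step_two {M x Q : ℕ} (h : Nat.log 2 Q + 1 ≤ 2 ^ x) :
    Nat.log 2 (redB M Q) ≤ M * (x + 2) := by
  refine (log_redB _ _).trans (Nat.mul_le_mul_left _ ?_)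
  have := Nat.log_mono_right (b := 2) h
  rw [Nat.log_pow (by norm_num)] at this
  omega

private theorem log_redI {M : ℕ} (i : ℕ) : ∀ {j x Q : ℕ}, Nat.log 2 Q ≤ tow (i + (j + 1)) x →
    Nat.log 2 (redI M i Q) ≤ tow (j + 1) (x + i * (M + 2)) := by
  induction i with
  | zero =>
    intro j x Q h
    simpa [redI] using h
  | succ i ih =>
    intro j x Q h
    show Nat.log 2 (redI M i (redB M Q)) ≤ _
    have h1 : Nat.log 2 (redB M Q) ≤ tow (i + (j + 1)) (x + (M + 2)) := by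
      have h2 : i + 1 + (j + 1) = (i + j) + 2 := by ring
      rw [h2] at h
      have h3 := step_tow (M := M) h
      have h4 : i + (j + 1) = i + j + 1 := by ring
      rw [h4]
      exact h3
    have h2 := ih h1
    have h3 : x + (M + 2) + i * (M + 2) = x + (i + 1) * (M + 2) := by ring
    rwa [h3] at h2

private theorem redI_add (M i j Q : ℕ) : redI M (i + j) Q = redI M j (redI M i Q) := by
  induction i generalizing Q with
  | zero => simp [redI]
  | succ i ih =>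
    have : i + 1 + j = (i + j) + 1 := by ring
    rw [this]
    exact ih (redB M Q)

/-- The parameters: `H` is large, and `Q` is the number of the codes. -/
theorem exists_paramI (i A R a H₀ b : ℕ) :
    ∃ H : ℕ, H₀ ≤ H ∧ kapI (i + 3) R ((tow (i + 2) (H ^ A) + 1) ^ a) + b ≤ H := by
  obtain ⟨M, hM⟩ : ∃ M, M = 2 * R + 1 := ⟨_, rfl⟩
  -- `c₁`: the constant after `i` reductions, `c₂`: the constant after the next one
  obtain ⟨c₁, hc₁⟩ : ∃ c, c = a + 1 + i * (M + 2) := ⟨_, rfl⟩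
  obtain ⟨c₂, hc₂⟩ : ∃ c, c = M + c₁ + 3 := ⟨_, rfl⟩
  obtain ⟨t, ht₀, ht1, ht⟩ := exists_t' M
    ((i + 3) * R + b + R * (2 * (M * (A + c₂ + 2) + 1)) ^ M) H₀
  refine ⟨2 ^ t, ht₀.trans Nat.lt_two_pow_self.le, le_trans ?_ ht⟩
  have hpos : 1 ≤ t ^ M := Nat.one_le_pow _ _ ht1
  obtain ⟨Y, hY⟩ : ∃ Y, Y = (2 ^ t) ^ A := ⟨_, rfl⟩
  obtain ⟨Q, hQ⟩ : ∃ Q, Q = (tow (i + 2) Y + 1) ^ a := ⟨_, rfl⟩
  rw [← hY, ← hQ]
  -- the first logarithm
  have h1 : Nat.log 2 Q ≤ tow (i + (0 + 1)) (Y + (a + 1)) := by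
    obtain ⟨T, hT⟩ : ∃ T, T = tow (i + 1) Y := ⟨_, rfl⟩
    have hT1 : 1 ≤ T := hT ▸ tow_pos i Y
    have h2 : Q ≤ 2 ^ ((T + 1) * a) := by
      rw [hQ, pow_mul]
      refine Nat.pow_le_pow_left ?_ _
      have h3 : tow (i + 2) Y = 2 ^ T := by rw [hT]; rfl
      have h4 : 1 ≤ 2 ^ T := Nat.one_le_two_pow
      rw [h3, pow_succ]
      omega
    have h3 : Nat.log 2 Q ≤ (T + 1) * a := by
      refine (Nat.log_mono_right h2).trans ?_
      rw [Nat.log_pow (by norm_num)]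
    have h4 : (T + 1) * a ≤ 2 ^ (a + 1) * T := by
      have h5 : a ≤ 2 ^ a := Nat.lt_two_pow_self.le
      calc (T + 1) * a ≤ (2 * T) * 2 ^ a := Nat.mul_le_mul (by omega) h5
        _ = 2 ^ (a + 1) * T := by
            rw [pow_succ]
            ring
    refine h3.trans (h4.trans ?_)
    rw [hT]
    exact mul_tow_le i Y (a + 1)
  have h2 := log_redI (M := M) i h1
  have h3 : Nat.log 2 (redI M i Q) ≤ 2 ^ (Y + c₁) := by
    have h4 : Y + (a + 1) + i * (M + 2) = Y + c₁ := by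
      rw [hc₁]
      ring
    rw [h4] at h2
    exact h2
  -- the next one
  have h4 : Nat.log 2 (redB M (redI M i Q)) ≤ M * (Y + c₁ + 3) := by
    refine step_two (x := Y + c₁ + 1) ?_
    have h5 : 1 ≤ 2 ^ (Y + c₁) := Nat.one_le_two_pow
    rw [pow_succ]
    omega
  have hA : Y = 2 ^ (t * A) := by rw [hY, ← pow_mul]
  have h5 : Nat.log 2 (redB M (redI M i Q)) + 1 ≤ 2 ^ (t * A + c₂) := by
    have h9 : 1 ≤ 2 ^ (t * A) := Nat.one_le_two_pow
    have h10 : Y + c₁ + 3 ≤ 2 ^ (t * A) * 2 ^ (c₁ + 2) := by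
      rw [hA]
      have h11 : c₁ + 3 + 1 ≤ 2 ^ (c₁ + 2) := by
        have : c₁ + 1 ≤ 2 ^ c₁ := Nat.lt_two_pow_self
        rw [pow_add]
        omega
      calc 2 ^ (t * A) + c₁ + 3 ≤ 2 ^ (t * A) * (c₁ + 3 + 1) := by nlinarith
        _ ≤ _ := Nat.mul_le_mul_left _ h11
    have h12 : M + 1 ≤ 2 ^ M := Nat.lt_two_pow_self
    have h13 : 1 ≤ 2 ^ (t * A) * 2 ^ (c₁ + 2) := Nat.mul_pos (by positivity) (by positivity)
    calc Nat.log 2 (redB M (redI M i Q)) + 1 ≤ M * (Y + c₁ + 3) + 1 := by omega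
      _ ≤ M * (2 ^ (t * A) * 2 ^ (c₁ + 2)) + 2 ^ (t * A) * 2 ^ (c₁ + 2) :=
          Nat.add_le_add (Nat.mul_le_mul_left _ h10) h13
      _ = (M + 1) * (2 ^ (t * A) * 2 ^ (c₁ + 2)) := by ring
      _ ≤ 2 ^ M * (2 ^ (t * A) * 2 ^ (c₁ + 2)) := Nat.mul_le_mul_right _ h12
      _ = 2 ^ (t * A + (M + c₁ + 2)) := by
          rw [show t * A + (M + c₁ + 2) = t * A + (c₁ + 2) + M by ring, pow_add _ (t * A + _),
            pow_add _ (t * A)]
          ring
      _ ≤ 2 ^ (t * A + c₂) := Nat.pow_le_pow_right (by norm_num) (by omega)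
  have h6 := step_two (M := M) h5
  -- the last one
  have h7 : redI M (i + 3) Q ≤ (2 * (M * (A + c₂ + 2) + 1)) ^ M * t ^ M := by
    rw [redI_add]
    show redB M (redB M (redB M (redI M i Q))) ≤ _
    rw [← Nat.mul_pow]
    conv_lhs => unfold redB
    refine Nat.pow_le_pow_left ?_ _
    have h17 : M * (t * A + c₂ + 2) + 1 ≤ (M * (A + c₂ + 2) + 1) * t := by
      have h18 : t * A + c₂ + 2 ≤ (A + c₂ + 2) * t := by nlinarith
      calc M * (t * A + c₂ + 2) + 1 ≤ M * ((A + c₂ + 2) * t) + t :=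
            Nat.add_le_add (Nat.mul_le_mul_left _ h18) ht1
        _ = (M * (A + c₂ + 2) + 1) * t := by ring
    calc 2 * (Nat.log 2 (redB M (redB M (redI M i Q))) + 1)
        ≤ 2 * (M * (t * A + c₂ + 2) + 1) := by omega
      _ ≤ 2 * ((M * (A + c₂ + 2) + 1) * t) := Nat.mul_le_mul_left _ h17
      _ = 2 * (M * (A + c₂ + 2) + 1) * t := by ring
  unfold kapI
  rw [← hM]
  calc (i + 3) * R + R * redI M (i + 3) Q + b
      ≤ (i + 3) * R + R * ((2 * (M * (A + c₂ + 2) + 1)) ^ M * t ^ M) + b := by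
        have := Nat.mul_le_mul_left R h7
        omega
    _ = ((i + 3) * R + b) * 1 + R * (2 * (M * (A + c₂ + 2) + 1)) ^ M * t ^ M := by ring
    _ ≤ ((i + 3) * R + b) * t ^ M + R * (2 * (M * (A + c₂ + 2) + 1)) ^ M * t ^ M :=
        Nat.add_le_add_right (Nat.mul_le_mul_left _ hpos) _
    _ = ((i + 3) * R + b + R * (2 * (M * (A + c₂ + 2) + 1)) ^ M) * t ^ M := by ring

end Pool.Agent.TD
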