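import Mathlib

/-!
# Chains of changes of the value of a path
-/

set_option autoImplicit false

open Set

namespace Pool.Agent.TD

variable {V : Type}

/-- There are times `s 0 ≤ ... ≤ s n` of `S` in `[a, b]` such that the value of `u` changes `n`
times. -/
def Chn (u : ℝ → V) (S : Set ℝ) (n : ℕ) (a b : ℝ) : Prop :=
  ∃ s : ℕ → ℝ, (∀ i < n, s i ≤ s (i + 1)) ∧ (∀ i ≤ n, s i ∈ S) ∧ a ≤ s 0 ∧ s n ≤ b ∧
    ∀ i < n, u (s i) ≠ u (s (i + 1))

/-- The largest number of changes. -/
noncomputable def nch (u : ℝ → V) (S : Set ℝ) (a b : ℝ) : ℕ := sSup {n | Chn u S n a b}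

/-- At most `M` changes in a time interval of length `1`. -/
def Few (u : ℝ → V) (M : ℕ) (T : ℝ) : Prop :=
  ∀ (n : ℕ) (s : ℕ → ℝ), (∀ i < n, s i ≤ s (i + 1)) → 0 ≤ s 0 → s n ≤ s 0 + 1 → s n ≤ T →
    (∀ i < n, u (s i) ≠ u (s (i + 1))) → n ≤ M

theorem chain_le {s : ℕ → ℝ} {n : ℕ} (h : ∀ i < n, s i ≤ s (i + 1)) {i j : ℕ} (hij : i ≤ j)
    (hj : j ≤ n) : s i ≤ s j := by
  induction j, hij using Nat.le_induction with
  | base => exact le_rfl
  | succ j hij ih => exact (ih (by omega)).trans (h j (by omega))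

theorem Few.long {u : ℝ → V} {M : ℕ} {T : ℝ} (hf : Few u M T) (k : ℕ) :
    ∀ (n : ℕ) (s : ℕ → ℝ), (∀ i < n, s i ≤ s (i + 1)) → 0 ≤ s 0 → s n ≤ s 0 + (k + 1) → s n ≤ T →
      (∀ i < n, u (s i) ≠ u (s (i + 1))) → n ≤ (M + 1) * (k + 1) := by
  induction k with
  | zero =>
    intro n s h1 h2 h3 h4 h5
    have := hf n s h1 h2 (by simpa using h3) h4 h5
    omega
  | succ k ih =>
    intro n s h1 h2 h3 h4 h5
    classical
    obtain ⟨j, hj⟩ : ∃ j, j = Nat.findGreatest (fun i => s i ≤ s 0 + 1) n := ⟨_, rfl⟩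
    have hjn : j ≤ n := hj ▸ Nat.findGreatest_le n
    have hjs : s j ≤ s 0 + 1 := by
      rw [hj]
      exact Nat.findGreatest_spec (P := fun i => s i ≤ s 0 + 1) (Nat.zero_le n)
        (by show s 0 ≤ s 0 + 1; linarith)
    have hjM : j ≤ M := hf j s (fun i hi => h1 i (by omega)) h2 hjs
      ((chain_le h1 hjn le_rfl).trans h4) fun i hi => h5 i (by omega)
    rcases hjn.eq_or_lt with rfl | hlt
    · nlinarith
    · have hj1 : s 0 + 1 < s (j + 1) := by
        by_contra hcon
        push Not at hcon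
        have := Nat.le_findGreatest (P := fun i => s i ≤ s 0 + 1) (n := n) hlt hcon
        omega
      have h6 := ih (n - (j + 1)) (fun i => s (j + 1 + i))
        (fun i hi => h1 (j + 1 + i) (by omega)) (by simp only [add_zero]; linarith)
        (by
          simp only [add_zero]
          rw [show j + 1 + (n - (j + 1)) = n by omega]
          push_cast at h3
          linarith)
        (by
          show s (j + 1 + (n - (j + 1))) ≤ T
          rwa [show j + 1 + (n - (j + 1)) = n by omega])
        (fun i hi => h5 (j + 1 + i) (by omega))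
      have h7 : (M + 1) * (k + 1 + 1) = (M + 1) * (k + 1) + (M + 1) := by ring
      omega

variable {u : ℝ → V} {S : Set ℝ}

theorem Chn.mono {n : ℕ} {a b a' b' : ℝ} (h : Chn u S n a b) (ha : a' ≤ a) (hb : b ≤ b') :
    Chn u S n a' b' := by
  obtain ⟨s, h1, h2, h3, h4, h5⟩ := h
  exact ⟨s, h1, h2, ha.trans h3, h4.trans hb, h5⟩

theorem Chn.pre {n m : ℕ} {a b : ℝ} (h : Chn u S n a b) (hm : m ≤ n) : Chn u S m a b := by
  obtain ⟨s, h1, h2, h3, h4, h5⟩ := h
  exact ⟨s, fun i hi => h1 i (by omega), fun i hi => h2 i (by omega), h3,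
    (chain_le h1 hm le_rfl).trans h4, fun i hi => h5 i (by omega)⟩

theorem Chn.zero {a b s : ℝ} (hs : s ∈ S) (ha : a ≤ s) (hb : s ≤ b) : Chn u S 0 a b :=
  ⟨fun _ => s, fun _ _ => le_rfl, fun _ _ => hs, ha, hb, fun i hi => absurd hi (Nat.not_lt_zero i)⟩

theorem Chn.one {a b s t : ℝ} (hs : s ∈ S) (ht : t ∈ S) (ha : a ≤ s) (hst : s ≤ t) (hb : t ≤ b)
    (hne : u s ≠ u t) : Chn u S 1 a b := by
  refine ⟨fun i => if i = 0 then s else t, fun i hi => ?_, fun i hi => ?_, ?_, ?_, fun i hi => ?_⟩
  · have : i = 0 := by omega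
    subst this
    simpa using hst
  · by_cases h : i = 0
    · simpa [h] using hs
    · simpa [h] using ht
  · simpa using ha
  · simpa using hb
  · have : i = 0 := by omega
    subst this
    simpa using hne

/-- Concatenation. -/
theorem Chn.append {k l : ℕ} {a m m' b : ℝ} (h : Chn u S k a m) (h' : Chn u S l m' b)
    (hm : m ≤ m') (hmb : m ≤ b) : Chn u S (k + l) a b := by
  obtain ⟨s, h1, h2, h3, h4, h5⟩ := h
  obtain ⟨t, k1, k2, k3, k4, k5⟩ := h'
  by_cases he : u (s k) = u (t 0)
  · refine ⟨fun i => if i ≤ k then s i else t (i - k), fun i hi => ?_, fun i hi => ?_, ?_, ?_,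
      fun i hi => ?_⟩
    · dsimp only
      split_ifs with q1 q2 q2
      · exact h1 i (by omega)
      · have e1 : i = k := by omega
        subst e1
        rw [show i + 1 - i = 1 by omega]
        have := k1 0 (by omega)
        exact ((h4.trans hm).trans k3).trans this
      · omega
      · have := k1 (i - k) (by omega)
        rwa [show i + 1 - k = i - k + 1 by omega]
    · dsimp only
      split_ifs with q1
      · exact h2 i q1
      · exact k2 _ (by omega)
    · simpa using h3
    · dsimp only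
      split_ifs with q1
      · have e1 : l = 0 := by omega
        subst e1
        rw [add_zero]
        exact h4.trans hmb
      · rwa [show k + l - k = l by omega]
    · dsimp only
      split_ifs with q1 q2 q2
      · exact h5 i (by omega)
      · have e1 : i = k := by omega
        subst e1
        rw [show i + 1 - i = 1 by omega, he]
        exact k5 0 (by omega)
      · omega
      · have := k5 (i - k) (by omega)
        rwa [show i + 1 - k = i - k + 1 by omega]
  · have h6 : Chn u S (k + l + 1) a b := by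
      refine ⟨fun i => if i ≤ k then s i else t (i - k - 1), fun i hi => ?_, fun i hi => ?_, ?_, ?_,
        fun i hi => ?_⟩
      · dsimp only
        split_ifs with q1 q2 q2
        · exact h1 i (by omega)
        · have e1 : i = k := by omega
          subst e1
          rw [show i + 1 - i - 1 = 0 by omega]
          exact (h4.trans hm).trans k3
        · omega
        · have := k1 (i - k - 1) (by omega)
          rwa [show i + 1 - k - 1 = i - k - 1 + 1 by omega]
      · dsimp only
        split_ifs with q1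
        · exact h2 i q1
        · exact k2 _ (by omega)
      · simpa using h3
      · dsimp only
        rw [if_neg (by omega), show k + l + 1 - k - 1 = l by omega]
        exact k4
      · dsimp only
        split_ifs with q1 q2 q2
        · exact h5 i (by omega)
        · have e1 : i = k := by omega
          subst e1
          rw [show i + 1 - i - 1 = 0 by omega]
          exact he
        · omega
        · have := k5 (i - k - 1) (by omega)
          rwa [show i + 1 - k - 1 = i - k - 1 + 1 by omega]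
    exact h6.pre (by omega)

/-- Splitting at a time of `S`. -/
theorem Chn.split {n : ℕ} {a m b : ℝ} (h : Chn u S n a b) (hm : m ∈ S) (ham : a ≤ m)
    (hmb : m ≤ b) : ∃ k l, k + l = n ∧ Chn u S k a m ∧ Chn u S l m b := by
  classical
  obtain ⟨s, h1, h2, h3, h4, h5⟩ := h
  by_cases h0 : s 0 ≤ m
  · obtain ⟨j, hj⟩ : ∃ j, j = Nat.findGreatest (fun i => s i ≤ m) n := ⟨_, rfl⟩
    have hjn : j ≤ n := hj ▸ Nat.findGreatest_le n
    have hjs : s j ≤ m := by
      rw [hj]
      exact Nat.findGreatest_spec (P := fun i => s i ≤ m) (Nat.zero_le n) h0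
    have hpre : Chn u S j a m :=
      ⟨s, fun i hi => h1 i (by omega), fun i hi => h2 i (by omega), h3, hjs,
        fun i hi => h5 i (by omega)⟩
    rcases hjn.eq_or_lt with rfl | hlt
    · exact ⟨j, 0, by omega, hpre, Chn.zero hm le_rfl hmb⟩
    · have hj1 : m < s (j + 1) := by
        by_contra hcon
        push Not at hcon
        have := Nat.le_findGreatest (P := fun i => s i ≤ m) (n := n) hlt hcon
        omega
      have hsuf : Chn u S (n - (j + 1)) m b := by
        refine ⟨fun i => s (j + 1 + i), fun i hi => h1 _ (by omega), fun i hi => h2 _ (by omega),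
          by simpa using hj1.le, ?_, fun i hi => h5 _ (by omega)⟩
        dsimp only
        rwa [show j + 1 + (n - (j + 1)) = n by omega]
      by_cases he : u (s j) = u m
      · refine ⟨j, n - (j + 1) + 1, by omega, hpre, ?_⟩
        refine ⟨fun i => if i = 0 then m else s (j + i), fun i hi => ?_, fun i hi => ?_, ?_, ?_,
          fun i hi => ?_⟩
        · by_cases q : i = 0
          · subst q
            simpa using hj1.le
          · simp only [q, if_false, Nat.add_eq_zero_iff, one_ne_zero, and_false]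
            exact h1 (j + i) (by omega)
        · by_cases q : i = 0
          · simpa [q] using hm
          · simp only [q, if_false]
            exact h2 _ (by omega)
        · simp
        · simp only [Nat.add_eq_zero_iff, one_ne_zero, and_false, if_false]
          rwa [show j + (n - (j + 1) + 1) = n by omega]
        · by_cases q : i = 0
          · subst q
            simp only [if_true, zero_add, one_ne_zero, if_false]
            rw [← he]
            exact h5 j hlt
          · simp only [q, if_false, Nat.add_eq_zero_iff, one_ne_zero, and_false]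
            exact h5 (j + i) (by omega)
      · refine ⟨j + 1, n - (j + 1), by omega, ?_, hsuf⟩
        refine ⟨fun i => if i ≤ j then s i else m, fun i hi => ?_, fun i hi => ?_, ?_, ?_,
          fun i hi => ?_⟩
        · dsimp only
          split_ifs with q1 q2 q2
          · exact h1 i (by omega)
          · have e1 : i = j := by omega
            subst e1
            exact hjs
          · omega
          · exact le_rfl
        · dsimp only
          split_ifs with q1
          · exact h2 i (by omega)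
          · exact hm
        · simpa using h3
        · simp
        · dsimp only
          split_ifs with q1 q2 q2
          · exact h5 i (by omega)
          · have e1 : i = j := by omega
            subst e1
            exact he
          · omega
          · omega
  · push Not at h0
    exact ⟨0, n, by omega, Chn.zero hm ham le_rfl, ⟨s, h1, h2, h0.le, h4, h5⟩⟩

/-! ### The largest number of changes -/

/-- A bound for the number of changes. -/
def Bdd (u : ℝ → V) (S : Set ℝ) (a b : ℝ) : Prop := BddAbove {n | Chn u S n a b}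

theorem Bdd.mono {a b a' b' : ℝ} (h : Bdd u S a b) (ha : a ≤ a') (hb : b' ≤ b) :
    Bdd u S a' b' := by
  obtain ⟨K, hK⟩ := h
  exact ⟨K, fun n hn => hK (Chn.mono hn ha hb)⟩

theorem Chn.le_nch {n : ℕ} {a b : ℝ} (hb : Bdd u S a b) (h : Chn u S n a b) : n ≤ nch u S a b :=
  le_csSup hb h

theorem nch_spec {a b s : ℝ} (hb : Bdd u S a b) (hs : s ∈ S) (ha : a ≤ s) (hb' : s ≤ b) :
    Chn u S (nch u S a b) a b :=
  Nat.sSup_mem ⟨0, Chn.zero hs ha hb'⟩ hb

theorem nch_le {a b : ℝ} {K : ℕ} (h : ∀ n, Chn u S n a b → n ≤ K) : nch u S a b ≤ K := by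
  rcases (({n | Chn u S n a b} : Set ℕ)).eq_empty_or_nonempty with he | hne
  · unfold nch
    rw [he]
    simp
  · exact csSup_le hne h

theorem nch_mono {a b a' b' : ℝ} (hb : Bdd u S a' b') (ha : a' ≤ a) (hb' : b ≤ b') :
    nch u S a b ≤ nch u S a' b' :=
  nch_le fun _ hn => (hn.mono ha hb').le_nch hb

theorem nch_add {a b s : ℝ} (hb : Bdd u S a b) (hs : s ∈ S) (ha : a ≤ s) (hb' : s ≤ b) :
    nch u S a b = nch u S a s + nch u S s b := by
  apply le_antisymm
  · refine nch_le fun n hn => ?_
    obtain ⟨k, l, hkl, h1, h2⟩ := hn.split hs ha hb'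
    have h3 := h1.le_nch (hb.mono le_rfl hb')
    have h4 := h2.le_nch (hb.mono ha le_rfl)
    omega
  · exact ((nch_spec (hb.mono le_rfl hb') hs ha le_rfl).append
      (nch_spec (hb.mono ha le_rfl) hs le_rfl hb') le_rfl hb').le_nch hb

theorem nch_self_eq {a s : ℝ} (hb : Bdd u S a s) (hs : s ∈ S) (ha : a ≤ s) :
    nch u S s s = 0 := by
  have := nch_add hb hs ha le_rfl
  omega

/-- No change between times with the same count. -/
theorem eq_of_nch_eq {a s t : ℝ} (hb : Bdd u S a t) (hs : s ∈ S) (ht : t ∈ S) (ha : a ≤ s)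
    (hst : s ≤ t) (h : nch u S a s = nch u S a t) : u s = u t := by
  by_contra hne
  have h1 := nch_add hb hs ha hst
  have h2 := (Chn.one hs ht le_rfl hst le_rfl hne).le_nch (hb.mono ha le_rfl)
  omega

/-- A constant value: no change. -/
theorem nch_eq_zero {s t : ℝ} (h : ∀ x ∈ S, s ≤ x → x ≤ t → u x = u s) : nch u S s t = 0 := by
  refine Nat.le_zero.1 (nch_le fun n hn => ?_)
  by_contra hn0
  obtain ⟨f, h1, h2, h3, h4, h5⟩ := hn
  have h01 : 0 < n := by omega
  refine h5 0 h01 ?_
  have h6 := chain_le h1 (i := 0) (j := 0) le_rfl (by omega)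
  have h7 := chain_le h1 (i := 1) (j := n) (by omega) le_rfl
  have h8 := h1 0 h01
  rw [h _ (h2 0 (by omega)) h3 (by linarith), h _ (h2 1 (by omega)) (by linarith) (by linarith)]

/-- Superadditivity at any time. -/
theorem nch_super {a m b : ℝ} (hb : Bdd u S a b) (ham : a ≤ m) (hmb : m ≤ b) :
    nch u S a m + nch u S m b ≤ nch u S a b := by
  by_cases h1 : ∃ s ∈ S, a ≤ s ∧ s ≤ m
  · by_cases h2 : ∃ s ∈ S, m ≤ s ∧ s ≤ b
    · obtain ⟨s, hs, hs1, hs2⟩ := h1
      obtain ⟨t, ht, ht1, ht2⟩ := h2
      exact ((nch_spec (hb.mono le_rfl hmb) hs hs1 hs2).append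
        (nch_spec (hb.mono ham le_rfl) ht ht1 ht2) le_rfl hmb).le_nch hb
    · have h3 : nch u S m b = 0 := by
        refine nch_eq_zero fun x hx hx1 hx2 => ?_
        exact absurd ⟨x, hx, hx1, hx2⟩ h2
      have := nch_mono hb le_rfl hmb
      omega
  · have h3 : nch u S a m = 0 := by
      refine nch_eq_zero fun x hx hx1 hx2 => ?_
      exact absurd ⟨x, hx, hx1, hx2⟩ h1
    have := nch_mono hb ham le_rfl
    omega

/-- Subadditivity at any time, up to `1`. -/
theorem nch_sub {a m b : ℝ} (hb : Bdd u S a b) (ham : a ≤ m) (hmb : m ≤ b) :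
    nch u S a b ≤ nch u S a m + nch u S m b + 1 := by
  refine nch_le fun n hn => ?_
  classical
  obtain ⟨s, h1, h2, h3, h4, h5⟩ := hn
  by_cases h0 : s 0 ≤ m
  · obtain ⟨j, hj⟩ : ∃ j, j = Nat.findGreatest (fun i => s i ≤ m) n := ⟨_, rfl⟩
    have hjn : j ≤ n := hj ▸ Nat.findGreatest_le n
    have hjs : s j ≤ m := by
      rw [hj]
      exact Nat.findGreatest_spec (P := fun i => s i ≤ m) (Nat.zero_le n) h0
    have hpre : Chn u S j a m :=
      ⟨s, fun i hi => h1 i (by omega), fun i hi => h2 i (by omega), h3, hjs,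
        fun i hi => h5 i (by omega)⟩
    have h6 := hpre.le_nch (hb.mono le_rfl hmb)
    rcases hjn.eq_or_lt with rfl | hlt
    · omega
    · have hj1 : m < s (j + 1) := by
        by_contra hcon
        push Not at hcon
        have := Nat.le_findGreatest (P := fun i => s i ≤ m) (n := n) hlt hcon
        omega
      have hsuf : Chn u S (n - (j + 1)) m b := by
        refine ⟨fun i => s (j + 1 + i), fun i hi => h1 _ (by omega), fun i hi => h2 _ (by omega),
          by simpa using hj1.le, ?_, fun i hi => h5 _ (by omega)⟩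
        dsimp only
        rwa [show j + 1 + (n - (j + 1)) = n by omega]
      have h7 := hsuf.le_nch (hb.mono ham le_rfl)
      omega
  · push Not at h0
    have h6 : Chn u S n m b := ⟨s, h1, h2, h0.le, h4, h5⟩
    have := h6.le_nch (hb.mono ham le_rfl)
    omega

/-- Consecutive counts have different values. -/
theorem ne_of_nch_succ {a s t : ℝ} (hb : Bdd u S a t) (hs : s ∈ S) (ht : t ∈ S) (ha : a ≤ s)
    (hst : s ≤ t) (h : nch u S a t = nch u S a s + 1) : u s ≠ u t := by
  intro he
  have h1 := nch_add hb hs ha hst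
  have h2 : nch u S s t = 1 := by omega
  have h3 := nch_spec (hb.mono ha le_rfl) hs le_rfl hst
  rw [h2] at h3
  obtain ⟨f, k1, k2, k3, k4, k5⟩ := h3
  have k6 := k5 0 one_pos
  have k7 := k1 0 one_pos
  rw [zero_add] at k6 k7
  have h4 : Chn u S 2 s t := by
    by_cases q : u s = u (f 0)
    · have : u s ≠ u (f 1) := q ▸ k6
      exact (Chn.one hs (k2 1 le_rfl) le_rfl (k3.trans k7) le_rfl this).append
        (Chn.one (k2 1 le_rfl) ht le_rfl k4 le_rfl (by rw [← he]; exact this.symm)) le_rfl k4
    · exact (Chn.one hs (k2 0 (by omega)) le_rfl k3 le_rfl q).append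
        (Chn.one (k2 0 (by omega)) ht le_rfl (k7.trans k4) le_rfl (by rw [← he]; exact Ne.symm q))
        le_rfl (k7.trans k4)
  have := h4.le_nch (hb.mono ha le_rfl)
  omega

/-- All intermediate counts occur. -/
theorem exists_nch_eq {a b s : ℝ} (hb : Bdd u S a b) (hs : s ∈ S) (ha : a ≤ s) (hb' : s ≤ b)
    {c : ℕ} (hc : c ≤ nch u S a b) : ∃ t ∈ S, a ≤ t ∧ t ≤ b ∧ nch u S a t = c := by
  obtain ⟨f, h1, h2, h3, h4, h5⟩ := nch_spec hb hs ha hb'
  have hac : a ≤ f c := h3.trans (chain_le h1 (Nat.zero_le c) hc)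
  have hcb : f c ≤ b := (chain_le h1 hc le_rfl).trans h4
  refine ⟨f c, h2 c hc, hac, hcb, ?_⟩
  have h6 := nch_add hb (h2 c hc) hac hcb
  have h7 : c ≤ nch u S a (f c) := by
    refine Chn.le_nch (hb.mono le_rfl hcb) ⟨f, fun i hi => h1 i (by omega),
      fun i hi => h2 i (by omega), h3, le_rfl, fun i hi => h5 i (by omega)⟩
  have h8 : nch u S a b - c ≤ nch u S (f c) b := by
    refine Chn.le_nch (hb.mono hac le_rfl) ⟨fun i => f (c + i), fun i hi => h1 _ (by omega),
      fun i hi => h2 _ (by omega), by simp, ?_, fun i hi => h5 _ (by omega)⟩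
    dsimp only
    rwa [show c + (nch u S a b - c) = nch u S a b by omega]
  omega

/-- Transport of chains. -/
theorem Chn.map {u' : ℝ → V} {S' : Set ℝ} {n : ℕ} {a b a' b' : ℝ} (h : Chn u S n a b) (f : ℝ → ℝ)
    (hf : ∀ x ∈ S, a ≤ x → x ≤ b → f x ∈ S' ∧ a' ≤ f x ∧ f x ≤ b' ∧ u' (f x) = u x)
    (hle : ∀ x ∈ S, ∀ y ∈ S, a ≤ x → x ≤ y → y ≤ b → u x ≠ u y → f x ≤ f y) :
    Chn u' S' n a' b' := by
  obtain ⟨s, h1, h2, h3, h4, h5⟩ := h
  have hr : ∀ i ≤ n, a ≤ s i ∧ s i ≤ b := fun i hi =>
    ⟨h3.trans (chain_le h1 (Nat.zero_le i) hi), (chain_le h1 hi le_rfl).trans h4⟩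
  refine ⟨fun i => f (s i), fun i hi => ?_, fun i hi => ?_, ?_, ?_, fun i hi => ?_⟩
  · exact hle _ (h2 i (by omega)) _ (h2 (i + 1) (by omega)) (hr i (by omega)).1 (h1 i hi)
      (hr (i + 1) (by omega)).2 (h5 i hi)
  · exact (hf _ (h2 i hi) (hr i hi).1 (hr i hi).2).1
  · exact (hf _ (h2 0 (by omega)) (hr 0 (by omega)).1 (hr 0 (by omega)).2).2.1
  · exact (hf _ (h2 n le_rfl) (hr n le_rfl).1 (hr n le_rfl).2).2.2.1
  · dsimp only
    rw [(hf _ (h2 i (by omega)) (hr i (by omega)).1 (hr i (by omega)).2).2.2.2,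
      (hf _ (h2 (i + 1) (by omega)) (hr _ (by omega)).1 (hr _ (by omega)).2).2.2.2]
    exact h5 i hi

theorem Few.bdd {M : ℕ} {T : ℝ} (hf : Few u M T) {a b : ℝ} (ha : 0 ≤ a) (hb : b ≤ T) :
    Bdd u S a b := by
  obtain ⟨k, hk⟩ := exists_nat_ge (b - a)
  refine ⟨(M + 1) * (k + 1), ?_⟩
  rintro n ⟨s, h1, h2, h3, h4, h5⟩
  exact hf.long k n s h1 (ha.trans h3) (by linarith) (h4.trans hb) h5

theorem Few.nch_le {M : ℕ} {T : ℝ} (hf : Few u M T) {a b : ℝ} (ha : 0 ≤ a) (hb : b ≤ T) (k : ℕ)
    (hk : b ≤ a + (k + 1)) : nch u S a b ≤ (M + 1) * (k + 1) := by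
  refine TD.nch_le fun n hn => ?_
  obtain ⟨s, h1, h2, h3, h4, h5⟩ := hn
  exact hf.long k n s h1 (ha.trans h3) (by linarith) (h4.trans hb) h5

end Pool.Agent.TD
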