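import Pool.Agent.Lib.MP_98022b_gln.Track
import Pool.Agent.Lib.MP_98022b_td.Red1

/-!
# Persistent times and good times
-/

set_option autoImplicit false

open Set

namespace Pool.Agent.TD

open Pool.Agent.TR (IsEvents)

variable {V : Type}

/-- The path `u` is constant on `[s - δ, s + δ]`. -/
def PT (u : ℝ → V) (δ : ℝ) : Set ℝ := {s | ∀ t ∈ Icc (s - δ) (s + δ), u t = u s}

/-- There are no bad times in `[s - δ, s + δ]`. -/
def Gd (E : Set ℝ) (δ : ℝ) : Set ℝ := {s | ∀ t ∈ Icc (s - δ) (s + δ), t ∉ E}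

/-- Each time has a good time near it. -/
theorem companion {E : Set ℝ} {b δ s : ℝ} (hδ : 0 < δ)
    (gap : ∀ e ∈ E, ∀ e' ∈ E, e ∈ Icc 0 b → e' ∈ Icc 0 b → |e - e'| ≤ δ ∨ 4 * δ ≤ |e - e'|)
    (hs : 4 * δ ≤ s) (hs' : s + 4 * δ ≤ b) :
    ∃ t x, |t - s| ≤ 5 / 2 * δ ∧ x ∈ Icc (s - δ) (s + δ) ∧ t ∈ Gd E δ ∧
      ∀ y ∈ uIcc x t, y ∉ E := by
  by_cases h0 : ∀ y ∈ Icc (s - δ) (s + δ), y ∉ E
  · refine ⟨s, s, by simp; positivity, ⟨by linarith, by linarith⟩, h0, fun y hy => ?_⟩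
    rw [uIcc_self, mem_singleton_iff] at hy
    subst hy
    exact h0 y ⟨by linarith, by linarith⟩
  push Not at h0
  obtain ⟨e, ⟨he1, he2⟩, heE⟩ := h0
  obtain ⟨Cl, hCl⟩ : ∃ Cl : Set ℝ, Cl = {e' | e' ∈ E ∧ |e' - e| ≤ δ} := ⟨_, rfl⟩
  have heb : e ∈ Icc 0 b := ⟨by linarith, by linarith⟩
  have hmem : e ∈ Cl := by
    rw [hCl]
    exact ⟨heE, by simp; positivity⟩
  have hClb : ∀ e' ∈ Cl, e' ∈ E ∧ e' ∈ Icc 0 b ∧ e - δ ≤ e' ∧ e' ≤ e + δ := by
    intro e' he'
    rw [hCl] at he'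
    have := abs_le.1 he'.2
    exact ⟨he'.1, ⟨by linarith [this.1], by linarith [this.2]⟩, by linarith [this.1],
      by linarith [this.2]⟩
  have hbA : BddAbove Cl := ⟨e + δ, fun x hx => (hClb x hx).2.2.2⟩
  have hbB : BddBelow Cl := ⟨e - δ, fun x hx => (hClb x hx).2.2.1⟩
  obtain ⟨ep, hep⟩ : ∃ ep, ep = sSup Cl := ⟨_, rfl⟩
  obtain ⟨em, hem⟩ : ∃ em, em = sInf Cl := ⟨_, rfl⟩
  have hle : ∀ x ∈ Cl, x ≤ ep := fun x hx => hep ▸ le_csSup hbA hx
  have hge : ∀ x ∈ Cl, em ≤ x := fun x hx => hem ▸ csInf_le hbB hx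
  -- the diameter
  have hdiam : ∀ x ∈ Cl, ∀ y ∈ Cl, y ≤ x + δ := by
    intro x hx y hy
    obtain ⟨x1, x2, x3, x4⟩ := hClb x hx
    obtain ⟨y1, y2, y3, y4⟩ := hClb y hy
    rcases gap x x1 y y1 x2 y2 with h | h
    · linarith [(abs_le.1 h).1]
    · rcases le_abs'.1 h with h' | h'
      · exfalso
        linarith
      · linarith
  have hwidth : ep ≤ em + δ := by
    have h1 : ∀ x ∈ Cl, ep ≤ x + δ := fun x hx => by
      rw [hep]
      exact csSup_le ⟨e, hmem⟩ fun y hy => hdiam x hx y hy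
    have h2 : ep - δ ≤ em := by
      rw [hem]
      exact le_csInf ⟨e, hmem⟩ fun x hx => by linarith [h1 x hx]
    linarith
  -- other bad times
  have hother : ∀ y ∈ E, y ∈ Icc 0 b → y ∉ Cl → y ≤ em - 4 * δ ∨ ep + 4 * δ ≤ y := by
    intro y hy hyb hyC
    have hye : 4 * δ ≤ |y - e| := by
      rcases gap y hy e heE hyb heb with h | h
      · exact absurd (hCl ▸ ⟨hy, h⟩) hyC
      · exact h
    rcases le_abs'.1 hye with h | h
    · left
      have h1 : ∀ x ∈ Cl, y + 4 * δ ≤ x := by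
        intro x hx
        obtain ⟨x1, x2, x3, x4⟩ := hClb x hx
        rcases gap y hy x x1 hyb x2 with h' | h'
        · exfalso
          have := (abs_le.1 h').1
          linarith
        · rcases le_abs'.1 h' with h'' | h''
          · linarith
          · exfalso
            linarith
      have h2 : y + 4 * δ ≤ em := by
        rw [hem]
        exact le_csInf ⟨e, hmem⟩ h1
      linarith
    · right
      have h1 : ∀ x ∈ Cl, x ≤ y - 4 * δ := by
        intro x hx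
        obtain ⟨x1, x2, x3, x4⟩ := hClb x hx
        rcases gap y hy x x1 hyb x2 with h' | h'
        · exfalso
          have := (abs_le.1 h').2
          linarith
        · rcases le_abs'.1 h' with h'' | h''
          · exfalso
            linarith
          · linarith
      have h2 : ep ≤ y - 4 * δ := by
        rw [hep]
        exact csSup_le ⟨e, hmem⟩ h1
      linarith
  have hee : e ≤ ep := hle e hmem
  have hee' : em ≤ e := hge e hmem
  by_cases hc : ep < s + δ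
  · have hfree : ∀ y, ep < y → y < ep + 4 * δ → y ≤ b → y ∉ E := by
      intro y h1 h2 h3 hy
      have hyC : y ∉ Cl := fun h => absurd (hle y h) (by linarith)
      rcases hother y hy ⟨by linarith, h3⟩ hyC with h | h <;> linarith
    refine ⟨ep + 3 / 2 * δ, s + δ, ?_, ⟨by linarith, le_rfl⟩, fun y hy => ?_, fun y hy => ?_⟩
    · rw [abs_le]
      constructor <;> linarith
    · exact hfree y (by linarith [hy.1]) (by linarith [hy.2]) (by linarith [hy.2])
    · rw [mem_uIcc] at hy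
      rcases hy with hy | hy
      · exact hfree y (by linarith [hy.1]) (by linarith [hy.2]) (by linarith [hy.2])
      · exact hfree y (by linarith [hy.1]) (by linarith [hy.2]) (by linarith [hy.2])
  · push Not at hc
    have hfree : ∀ y, y < em → em - 4 * δ < y → 0 ≤ y → y ∉ E := by
      intro y h1 h2 h3 hy
      have hyC : y ∉ Cl := fun h => absurd (hge y h) (by linarith)
      rcases hother y hy ⟨h3, by linarith⟩ hyC with h | h <;> linarith
    refine ⟨em - 3 / 2 * δ, s - δ, ?_, ⟨le_rfl, by linarith⟩, fun y hy => ?_, fun y hy => ?_⟩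
    · rw [abs_le]
      constructor <;> linarith
    · exact hfree y (by linarith [hy.2]) (by linarith [hy.1]) (by linarith [hy.1])
    · rw [mem_uIcc] at hy
      rcases hy with hy | hy
      · exact hfree y (by linarith [hy.2]) (by linarith [hy.1]) (by linarith [hy.1])
      · exact hfree y (by linarith [hy.2]) (by linarith [hy.1]) (by linarith [hy.1])

/-- A path which agrees with `u` off the bad times in `[a, b]`. -/
structure Agr (u w : ℝ → V) (E : Set ℝ) (a b : ℝ) : Prop where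
  const : ∀ s ∈ Icc a b, ∀ t ∈ Icc a b, s ≤ t → (∀ e ∈ E, e ∉ Icc s t) → u s = u t
  agree : ∀ s ∈ Icc a b, s ∉ E → w s = u s

section

variable {u w : ℝ → V} {E : Set ℝ} {a b T δ : ℝ}

theorem Agr.eq_of_free (h : Agr u w E a b) {x y : ℝ} (hx : x ∈ Icc a b) (hy : y ∈ Icc a b)
    (hf : ∀ z ∈ uIcc x y, z ∉ E) : w x = w y := by
  have h1 : u x = u y := by
    rcases le_total x y with hxy | hxy
    · exact h.const x hx y hy hxy fun e he he' => hf e (by rwa [uIcc_of_le hxy]) he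
    · exact (h.const y hy x hx hxy fun e he he' => hf e (by rwa [uIcc_of_ge hxy]) he).symm
  rw [h.agree x hx (hf x left_mem_uIcc), h.agree y hy (hf y right_mem_uIcc), h1]

/-- A good time is persistent. -/
theorem Agr.gd_subset (h : Agr u w E a b) (hδ : 0 < δ) {s : ℝ} (hs : s ∈ Gd E δ)
    (ha : a + δ ≤ s) (hb : s + δ ≤ b) : s ∈ PT w δ := by
  intro t ht
  refine h.eq_of_free ⟨by linarith [ht.1], by linarith [ht.2]⟩ ⟨by linarith, by linarith⟩
    fun z hz => hs z ?_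
  have h1 : t ∈ Icc (s - δ) (s + δ) := ht
  have h2 : s ∈ Icc (s - δ) (s + δ) := ⟨by linarith, by linarith⟩
  exact (ordConnected_Icc.uIcc_subset h1 h2) hz

/-- The good time near a persistent time. -/
theorem Agr.exists_gd (h : Agr u w E a b) (hδ : 0 < δ) (h0a : 0 ≤ a) (hbT : b ≤ T)
    (gap : ∀ e ∈ E, ∀ e' ∈ E, e ∈ Icc 0 T → e' ∈ Icc 0 T → |e - e'| ≤ δ ∨ 4 * δ ≤ |e - e'|)
    {s : ℝ} (hs : s ∈ PT w δ) (ha : a + 4 * δ ≤ s) (hb : s + 4 * δ ≤ b) :
    ∃ t ∈ Gd E δ, |t - s| ≤ 5 / 2 * δ ∧ ∀ y ∈ uIcc s t, w y = w s := by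
  obtain ⟨t, x, h1, h2, h3, h4⟩ := companion hδ gap (s := s) (by linarith) (by linarith)
  have h1' := abs_le.1 h1
  refine ⟨t, h3, h1, fun y hy => ?_⟩
  by_cases hyI : y ∈ Icc (s - δ) (s + δ)
  · exact hs y hyI
  · have hyx : y ∈ uIcc x t := by
      rw [mem_uIcc] at hy ⊢
      rw [mem_Icc, not_and_or, not_le, not_le] at hyI
      rcases hy with hy | hy
      · left
        rcases hyI with h5 | h5
        · exfalso
          linarith [hy.1]
        · exact ⟨by linarith [h2.2], hy.2⟩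
      · right
        rcases hyI with h5 | h5
        · exact ⟨hy.1, by linarith [h2.1]⟩
        · exfalso
          linarith [hy.2]
    have hxI : x ∈ Icc a b := ⟨by linarith [h2.1], by linarith [h2.2]⟩
    have hyI2 : y ∈ Icc a b := by
      have htI : t ∈ Icc a b := ⟨by linarith, by linarith⟩
      exact (ordConnected_Icc.uIcc_subset hxI htI) hyx
    rw [← hs x h2]
    refine h.eq_of_free hyI2 hxI fun z hz => h4 z ?_
    exact (ordConnected_uIcc.uIcc_subset hyx left_mem_uIcc) hz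

/-- THE COUNT between good times depends only on the good times. -/
theorem Agr.nch_eq (h : Agr u w E a b) (hδ : 0 < δ) (h0a : 0 ≤ a) (hbT : b ≤ T)
    (gap : ∀ e ∈ E, ∀ e' ∈ E, e ∈ Icc 0 T → e' ∈ Icc 0 T → |e - e'| ≤ δ ∨ 4 * δ ≤ |e - e'|)
    {t₀ t₁ : ℝ} (ht₀ : t₀ ∈ Gd E δ) (ht₁ : t₁ ∈ Gd E δ) (h01 : t₀ ≤ t₁) (ha : a + 4 * δ ≤ t₀)
    (hb : t₁ + 4 * δ ≤ b) (hbu : Bdd u (Gd E δ) t₀ t₁) (hbw : Bdd w (PT w δ) t₀ t₁) :
    nch w (PT w δ) t₀ t₁ = nch u (Gd E δ) t₀ t₁ := by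
  classical
  apply le_antisymm
  · refine nch_le fun n hn => ?_
    -- a choice of good times
    have hch : ∀ r : ℝ, ∃ t : ℝ, r ∈ PT w δ → t₀ ≤ r → r ≤ t₁ →
        t ∈ Gd E δ ∧ t₀ ≤ t ∧ t ≤ t₁ ∧ ∀ y ∈ uIcc r t, w y = w r := by
      intro r
      by_cases hr : r ∈ PT w δ ∧ t₀ ≤ r ∧ r ≤ t₁
      · obtain ⟨hr1, hr2, hr3⟩ := hr
        obtain ⟨t, ht, hd, hc⟩ := h.exists_gd hδ h0a hbT gap hr1 (by linarith) (by linarith)
        by_cases q0 : t < t₀
        · refine ⟨t₀, fun _ _ _ => ⟨ht₀, le_rfl, h01, fun y hy => hc y ?_⟩⟩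
          rw [uIcc_of_ge hr2] at hy
          rw [uIcc_of_ge (by linarith)]
          exact ⟨by linarith [hy.1], hy.2⟩
        · by_cases q1 : t₁ < t
          · refine ⟨t₁, fun _ _ _ => ⟨ht₁, h01, le_rfl, fun y hy => hc y ?_⟩⟩
            rw [uIcc_of_le hr3] at hy
            rw [uIcc_of_le (by linarith)]
            exact ⟨hy.1, by linarith [hy.2]⟩
          · exact ⟨t, fun _ _ _ => ⟨ht, not_lt.1 q0, not_lt.1 q1, hc⟩⟩
      · exact ⟨r, fun h1 h2 h3 => absurd ⟨h1, h2, h3⟩ hr⟩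
    choose f hf using hch
    refine Chn.le_nch hbu (hn.map f (fun x hx h1 h2 => ?_) fun x hx y hy h1 h2 h3 hne => ?_)
    · obtain ⟨k1, k2, k3, k4⟩ := hf x hx h1 h2
      refine ⟨k1, k2, k3, ?_⟩
      rw [← k4 (f x) right_mem_uIcc]
      refine (h.agree (f x) ⟨by linarith, by linarith⟩ (k1 _ ⟨by linarith, by linarith⟩)).symm
    · obtain ⟨-, -, -, k4⟩ := hf x hx h1 (h2.trans h3)
      obtain ⟨-, -, -, l4⟩ := hf y hy (h1.trans h2) h3
      by_contra hcon
      push Not at hcon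
      -- a common time
      obtain ⟨z, hz⟩ : ∃ z, z = max (min x (f x)) (min y (f y)) := ⟨_, rfl⟩
      have hz1 : z ∈ uIcc x (f x) := by
        rw [hz, uIcc, mem_Icc]
        refine ⟨le_max_left _ _, max_le min_le_max ?_⟩
        exact (min_le_right _ _).trans (hcon.le.trans (le_max_right _ _))
      have hz2 : z ∈ uIcc y (f y) := by
        rw [hz, uIcc, mem_Icc]
        refine ⟨le_max_right _ _, max_le ?_ min_le_max⟩
        exact (min_le_left _ _).trans (h2.trans (le_max_left _ _))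
      exact hne ((k4 z hz1).symm.trans (l4 z hz2))
  · refine nch_le fun n hn => Chn.le_nch hbw (hn.map id (fun x hx h1 h2 => ?_)
      fun x _ y _ _ h _ _ => h)
    refine ⟨h.gd_subset hδ hx (by simp only [id]; linarith) (by simp only [id]; linarith), h1, h2,
      ?_⟩
    exact h.agree x ⟨by linarith, by linarith⟩ (hx x ⟨by linarith, by linarith⟩)

end

end Pool.Agent.TD
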