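import Pool.Agent.Lib.MP_98022b_cc.MachV
import Pool.Agent.Lib.MP_98022b_cc.Iface
import Pool.Agent.Lib.MP_98022b_td.MarksI

/-!
# Families of reduced sequences: definitions

In contrast to `SeqData` the index of a state is not determined by the distance of the states; it
is only bounded by a multiple of the distance.
-/

set_option autoImplicit false

open Set

namespace Pool.Agent.TD

open Pool.Agent.GLN Pool.Agent.FA Pool.Agent.CCM

/-- A family of sequences of states (`W` is the radius of the window, `q` the number of the states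
seen from `g`). -/
structure SeqL (G X V : Type) [Group G] [MulAction G V] (dV : V → V → ℕ) (Λ W q : ℕ) where
  Dom : G → X → Prop
  P : G → X → ℤ → V
  dom_smul : ∀ h g x, Dom g x → Dom (h * g) x
  smul : ∀ h g x c, P (h * g) x c = h • P g x c
  dist : ∀ g x, Dom g x → ∀ c c' : ℤ, |c| ≤ W → |c'| ≤ W →
    |c - c'| ≤ Λ * (dV (P g x c) (P g x c') + 1)
  fin : ∃ A : Set V, A.Finite ∧ A.ncard ≤ q ∧ ∀ g x, Dom g x → ∀ c : ℤ, |c| ≤ W →
    g⁻¹ • P g x c ∈ A

/-- The frame `(h, y)` sees the sequence of `(g, x)`, up to a shift by at most `η`. -/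
def SeqL.Sees {G X V : Type} [Group G] [MulAction G V] {dV : V → V → ℕ} {Λ W q : ℕ}
    (D : SeqL G X V dV Λ W q) (η : ℕ) (g : G) (x : X) (h : G) (y : X) : Prop :=
  D.Dom h y ∧ ∃ σ : ℤ, |σ| ≤ η ∧ ∀ c : ℤ, |c| ≤ W → D.P h y (c + σ) = D.P g x c

/-- A family of sequences of states with a map `π` of the states: the number of the changes of the
images of the states between two states is bounded by a multiple of their distance `d'`. -/
structure SeqQ (G X V V' : Type) [Group G] [MulAction G V] (d' : V → V → ℕ) (π : V → V')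
    (Λ W q : ℕ) where
  Dom : G → X → Prop
  P : G → X → ℤ → V
  dom_smul : ∀ h g x, Dom g x → Dom (h * g) x
  smul : ∀ h g x c, P (h * g) x c = h • P g x c
  chg : ∀ g x, Dom g x → ∀ (n : ℕ) (c : ℕ → ℤ), (∀ i ≤ n, |c i| ≤ W) →
    (∀ i < n, c i ≤ c (i + 1) ∧ π (P g x (c i)) ≠ π (P g x (c (i + 1)))) →
    n ≤ Λ * (d' (P g x (c 0)) (P g x (c n)) + 1)
  fin : ∃ A : Set V, A.Finite ∧ A.ncard ≤ q ∧ ∀ g x, Dom g x → ∀ c : ℤ, |c| ≤ W →
    g⁻¹ • P g x c ∈ A

/-- The frame `(h, y)` sees the sequence of `(g, x)`, up to a shift by at most `η`. -/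
def SeqQ.Sees {G X V V' : Type} [Group G] [MulAction G V] {d' : V → V → ℕ} {π : V → V'}
    {Λ W q : ℕ} (D : SeqQ G X V V' d' π Λ W q) (η : ℕ) (g : G) (x : X) (h : G) (y : X) : Prop :=
  D.Dom h y ∧ ∃ σ : ℤ, |σ| ≤ η ∧ ∀ c : ℤ, |c| ≤ W → D.P h y (c + σ) = D.P g x c

variable {G X V V' : Type} [Group G] [MulAction G V] {dV : V → V → ℕ} {Λ W q : ℕ}

/-- The map of the states is the identity. -/
def SeqL.toQ (D : SeqL G X V dV Λ W q) : SeqQ G X V V dV id Λ W q where
  Dom := D.Dom
  P := D.P
  dom_smul := D.dom_smul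
  smul := D.smul
  chg := by
    intro g x hx n c hc hch
    have key : ∀ m ≤ n, (m : ℤ) ≤ c m - c 0 := by
      intro m
      induction m with
      | zero =>
        intro _
        simp
      | succ m ih =>
        intro hm
        obtain ⟨h1, h2⟩ := hch m (by omega)
        have h3 : c m ≠ c (m + 1) := fun h => h2 (by rw [h])
        have h4 := ih (by omega)
        push_cast
        omega
    have h1 := key n le_rfl
    have h2 := D.dist g x hx (c 0) (c n) (hc 0 (Nat.zero_le _)) (hc n le_rfl)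
    have h3 : c n - c 0 ≤ |c 0 - c n| := by
      rw [abs_sub_comm]
      exact le_abs_self _
    have h4 : (n : ℤ) ≤ Λ * (dV (D.P g x (c 0)) (D.P g x (c n)) + 1) := h1.trans (h3.trans h2)
    exact_mod_cast h4
  fin := D.fin

end Pool.Agent.TD
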